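import Mathlib

/-!
Characters of Fermat varieties of all degrees as tuples of elements of `ℚ/ℤ`.
-/

set_option autoImplicit false

namespace Pool.Agent.Lib.MP_386e47_ag_h1L

open Finset

/-- the group `ℚ/ℤ` -/
abbrev QZ : Type := AddCircle (1 : ℚ)

/-- the representative in `[0, 1)` -/
noncomputable def rep (x : QZ) : ℚ := (AddCircle.equivIco (1 : ℚ) 0 x : ℚ)

section

variable {ι : Type} [Fintype ι]

/-- a character of the Fermat varieties of dimension `card ι - 2`: nonzero entries with sum
zero -/
def IsCharacter (a : ι → QZ) : Prop := (∀ i, a i ≠ 0) ∧ ∑ i, a i = 0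

/-- `u` is prime to the orders of all entries of `a`: then `u • a` is a conjugate of `a` -/
def Adm (a : ι → QZ) (u : ℕ) : Prop := ∀ i, u.Coprime (addOrderOf (a i))

/-- the sum of the representatives in `[0, 1)` of the entries of the conjugate `u • a` -/
noncomputable def total (a : ι → QZ) (u : ℕ) : ℚ := ∑ i, rep (u • a i)

/-- Hodge level zero: for all conjugates the total is half of the number of entries -/
def LevelZero (a : ι → QZ) : Prop :=
  IsCharacter a ∧ ∀ u, Adm a u → total a u = (Fintype.card ι : ℚ) / 2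

/-- Hodge level one: for all conjugates the total is half of the number of entries plus or
minus one half -/
def LevelOne (a : ι → QZ) : Prop :=
  IsCharacter a ∧ ∀ u, Adm a u → total a u = ((Fintype.card ι : ℚ) - 1) / 2 ∨
    total a u = ((Fintype.card ι : ℚ) + 1) / 2

/-- the formal sum of the entries -/
noncomputable def formal (a : ι → QZ) : QZ →₀ ℤ := ∑ i, Finsupp.single (a i) 1

end

/-- the formal sum of the Hasse-Davenport tuple `x, x + 1/p, ..., x + (p-1)/p, -px` (and `1/2`
if `p = 2`) -/
noncomputable def hasseDavenport (p : ℕ) (x : QZ) : QZ →₀ ℤ :=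
  ∑ j ∈ range p, Finsupp.single (x + ((j / p : ℚ) : QZ)) 1 + Finsupp.single (-(p • x)) 1 +
    if p = 2 then Finsupp.single ((1 / 2 : ℚ) : QZ) 1 else 0

/-- the group generated by the formal sums of the characters of level zero with at most four
entries and of the Hasse-Davenport tuples of prime order (with nonzero entries) -/
noncomputable def Rel : AddSubgroup (QZ →₀ ℤ) := AddSubgroup.closure
  ({h | ∃ (k : ℕ) (b : Fin k → QZ), k ≤ 4 ∧ LevelZero b ∧ h = formal b} ∪
    {h | ∃ (p : ℕ) (x : QZ), p.Prime ∧ p • x ≠ 0 ∧ h = hasseDavenport p x})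

/-- `b` lies on a stable line: there is an integral direction `c` such that for all conjugates
`u • b` of `b` and all real `t` for which no entry of `u b + t c` is an integer the fractional
parts of the entries have sum two or three -/
def OnStableLine (b : Fin 5 → QZ) : Prop :=
  ∃ c : Fin 5 → ℤ, c ≠ 0 ∧ ∑ i, c i = 0 ∧ ∀ u, Adm b u → ∀ t : ℝ,
    (∀ i, ∀ n : ℤ, (rep (u • b i) : ℝ) + c i * t ≠ n) →
      ∑ i, Int.fract ((rep (u • b i) : ℝ) + c i * t) = 2 ∨
      ∑ i, Int.fract ((rep (u • b i) : ℝ) + c i * t) = 3

/-- `a` is equivalent modulo `Rel` to a triple or to a 5-tuple on a stable line -/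
def Known {ι : Type} [Fintype ι] (a : ι → QZ) : Prop :=
  (∃ b : Fin 3 → QZ, IsCharacter b ∧ formal a - formal b ∈ Rel) ∨
    ∃ b : Fin 5 → QZ, IsCharacter b ∧ OnStableLine b ∧ formal a - formal b ∈ Rel

end Pool.Agent.Lib.MP_386e47_ag_h1L
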