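import Pool.Agent.Lib.MP_386e47_ag_h1L.R2

/-! Row E1: pairs. -/

set_option autoImplicit false

namespace Pool.Agent.Lib.MP_386e47_ag_h1L

open Finset

private lemma rep_neg {y : QZ} (hy : y ≠ 0) : rep (-y) = 1 - rep y := by
  have h1 : (-y : QZ) = ((-rep y : ℚ) : QZ) := by
    rw [AddCircle.coe_neg, coe_rep]
  have h2 : Int.fract (rep y) = rep y := Int.fract_eq_self.2 ⟨rep_nonneg y, rep_lt_one y⟩
  have h3 : Int.fract (rep y) ≠ 0 := by
    rw [h2]
    exact fun h => hy (rep_eq_zero.1 h)
  rw [h1, rep_coe, Int.fract_neg h3, h2]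

private lemma formal_equiv {J K : Type} [Fintype J] [Fintype K] (e : K ≃ J) (b : J → QZ) :
    formal (b ∘ e) = formal b := by
  unfold formal
  exact Equiv.sum_comp e fun i => (Finsupp.single (b i) 1 : QZ →₀ ℤ)

private lemma levelZero_equiv {J K : Type} [Fintype J] [Fintype K] (e : K ≃ J) {b : J → QZ}
    (hb : LevelZero b) : LevelZero (b ∘ e) := by
  obtain ⟨⟨h1, h2⟩, h3⟩ := hb
  refine ⟨⟨fun i => h1 (e i), ?_⟩, fun u hu => ?_⟩
  · rw [← h2]
    exact Equiv.sum_comp e b
  · have hu' : Adm b u := fun i => by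
      have h := hu (e.symm i)
      simpa using h
    have h := h3 u hu'
    rw [Fintype.card_congr e, ← h]
    unfold total
    exact Equiv.sum_comp e fun i => rep (u • b i)

/-- a level zero tuple with at most four entries, for any index type -/
lemma rel_levelZero {J : Type} [Fintype J] (b : J → QZ) (hJ : Fintype.card J ≤ 4)
    (hb : LevelZero b) : formal b ∈ Rel := by
  refine AddSubgroup.subset_closure (Or.inl ⟨Fintype.card J, b ∘ (Fintype.equivFin J).symm, hJ,
    levelZero_equiv _ hb, ?_⟩)
  exact (formal_equiv _ b).symm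

/-- `![x, -x]` is of level zero -/
lemma rel_pair {x : QZ} (hx : x ≠ 0) :
    (Finsupp.single x 1 + Finsupp.single (-x) 1 : QZ →₀ ℤ) ∈ Rel := by
  have h : LevelZero ![x, -x] := by
    refine ⟨⟨fun i => ?_, ?_⟩, fun u hu => ?_⟩
    · fin_cases i
      · exact hx
      · simpa using hx
    · simp
    · have h0 : u.Coprime (addOrderOf x) := by
        have h := hu 0
        simpa using h
      have h1 : u • x ≠ 0 := smul_ne hx h0
      have h2 := rep_neg h1
      unfold total
      rw [Fin.sum_univ_two]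
      simp only [Matrix.cons_val_zero, Matrix.cons_val_one, smul_neg, Fintype.card_fin]
      rw [h2]
      norm_num
  have h' := rel_levelZero ![x, -x] (by simp) h
  have e : formal ![x, -x] = (Finsupp.single x 1 + Finsupp.single (-x) 1 : QZ →₀ ℤ) := by
    unfold formal
    rw [Fin.sum_univ_two]
    simp
  rwa [e] at h'

lemma rel_two_half : (2 : ℤ) • (Finsupp.single half 1 : QZ →₀ ℤ) ∈ Rel := by
  have h := rel_pair half_ne_zero
  rw [neg_half] at h
  rwa [two_smul]

/-- integers of the same parity -/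
lemma rel_parity {m n : ℤ} (h : Even (m - n)) :
    m • (Finsupp.single half 1 : QZ →₀ ℤ) - n • (Finsupp.single half 1 : QZ →₀ ℤ) ∈ Rel := by
  obtain ⟨k, hk⟩ := h
  rw [← sub_smul, hk, ← mul_two, mul_smul]
  exact AddSubgroup.zsmul_mem _ rel_two_half k

end Pool.Agent.Lib.MP_386e47_ag_h1L
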