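import Pool.Agent.Lib.MP_386e47_ag_h1L.E1

/-! Row E2: the distribution relation for every `n`.

Proof: induction on the prime factorisation. `n = 1` is trivial. `n = p` prime: `hasseDavenport p x`
is in `Rel`, `[p x] + [-p x]` is in `Rel` (`rel_pair`), and `(p - 1) [1/2]` resp. `[1/2] - [1/2]`
by `rel_parity`. `n = a b`: split `j = i + a k`, `i < a`, `k < b`:
`x + j/n = (x + i/n) + k/b`, the inner sum over `k` is equivalent to
`[b x + i/a] + (b - 1) [1/2]`, and then the sum over `i` is the case `a` for `b x`. -/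

set_option autoImplicit false

namespace Pool.Agent.Lib.MP_386e47_ag_h1L

open Finset

/-- `Dist n`: the distribution relation of order `n` -/
def Dist (n : ℕ) : Prop := ∀ x : QZ, n • x ≠ 0 →
  ∑ j ∈ range n, (Finsupp.single (x + ((j / n : ℚ) : QZ)) 1 : QZ →₀ ℤ) - Finsupp.single (n • x) 1
    - ((n : ℤ) - 1) • Finsupp.single half 1 ∈ Rel

lemma dist_prime {p : ℕ} (hp : p.Prime) : Dist p := by
  intro x hx
  have h1 : hasseDavenport p x ∈ Rel :=
    AddSubgroup.subset_closure (Or.inr ⟨p, x, hp, hx, rfl⟩)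
  have h2 := rel_pair hx
  have h3 : (if p = 2 then Finsupp.single ((1 / 2 : ℚ) : QZ) 1 else 0 : QZ →₀ ℤ) +
      ((p : ℤ) - 1) • Finsupp.single half 1 ∈ Rel := by
    split_ifs with h
    · have := rel_two_half
      subst h
      convert this using 1
      rw [two_smul]
      norm_num
      rfl
    · rw [zero_add]
      have hodd : Odd p := hp.odd_of_ne_two h
      have h4 : Even (((p : ℤ) - 1) - 0) := by
        obtain ⟨k, hk⟩ := hodd
        exact ⟨k, by rw [hk]; push_cast; ring⟩
      have := rel_parity h4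
      simpa using this
  have h5 := Rel.sub_mem (Rel.sub_mem h1 h2) h3
  convert h5 using 1
  unfold hasseDavenport
  abel

private lemma sum_range_mul' {M : Type*} [AddCommMonoid M] (f : ℕ → M) (a b : ℕ) :
    ∑ j ∈ range (a * b), f j = ∑ k ∈ range b, ∑ i ∈ range a, f (i + a * k) := by
  induction b with
  | zero => simp
  | succ b ih =>
    rw [Nat.mul_succ, Finset.sum_range_add, ih, Finset.sum_range_succ]
    simp_rw [add_comm (a * b)]

lemma dist_mul {a b : ℕ} (ha : 0 < a) (hb : 0 < b) (h1 : Dist a) (h2 : Dist b) :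
    Dist (a * b) := by
  intro x hx
  have ha' : (a : ℚ) ≠ 0 := by positivity
  have hb' : (b : ℚ) ≠ 0 := by positivity
  have hmul : a • (b • x) = (a * b) • x := (mul_smul a b x).symm
  -- `b • (x + i / (a b)) = b x + i / a`
  have hbi : ∀ i : ℕ, b • (x + ((i / (a * b) : ℚ) : QZ)) = b • x + ((i / a : ℚ) : QZ) := by
    intro i
    rw [smul_add, ← AddCircle.coe_nsmul]
    congr 2
    rw [nsmul_eq_mul]
    field_simp
  have hai : ∀ i : ℕ, a • (b • (x + ((i / (a * b) : ℚ) : QZ))) = (a * b) • x := by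
    intro i
    rw [hbi, smul_add, hmul, ← AddCircle.coe_nsmul]
    have : a • (i / a : ℚ) = (i : ℤ) • (1 : ℚ) := by
      rw [nsmul_eq_mul]; field_simp; simp
    rw [this, AddCircle.coe_zsmul, AddCircle.coe_period]
    simp
  have key : ∀ i ∈ range a, (∑ k ∈ range b,
      (Finsupp.single (x + ((i / (a * b) : ℚ) : QZ) + ((k / b : ℚ) : QZ)) 1 : QZ →₀ ℤ)) -
      Finsupp.single (b • x + ((i / a : ℚ) : QZ)) 1 - ((b : ℤ) - 1) • Finsupp.single half 1
        ∈ Rel := by
    intro i _
    have hne : b • (x + ((i / (a * b) : ℚ) : QZ)) ≠ 0 := by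
      intro h0
      have := hai i
      rw [h0, smul_zero] at this
      exact hx this.symm
    have := h2 _ hne
    rwa [hbi] at this
  have hs := AddSubgroup.sum_mem _ key
  have hA := h1 (b • x) (by rw [hmul]; exact hx)
  have := Rel.add_mem hs hA
  convert this using 1
  rw [sum_range_mul', Finset.sum_comm]
  have e : ∀ i k : ℕ, x + ((((i + a * k : ℕ) : ℚ) / ((a * b : ℕ) : ℚ) : ℚ) : QZ) =
      x + ((i / (a * b) : ℚ) : QZ) + ((k / b : ℚ) : QZ) := by
    intro i k
    rw [add_assoc, ← AddCircle.coe_add]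
    congr 2
    push_cast
    field_simp
  simp_rw [e]
  rw [Finset.sum_sub_distrib, Finset.sum_sub_distrib, Finset.sum_const, card_range, hmul]
  have e2 : (((a * b : ℕ) : ℤ) - 1) • (Finsupp.single half 1 : QZ →₀ ℤ) =
      a • (((b : ℤ) - 1) • (Finsupp.single half 1 : QZ →₀ ℤ)) +
        ((a : ℤ) - 1) • (Finsupp.single half 1 : QZ →₀ ℤ) := by
    rw [← natCast_zsmul, smul_smul, ← add_smul]
    congr 1
    push_cast
    ring
  rw [e2]
  abel

theorem dist_all {n : ℕ} (hn : 0 < n) : Dist n := by
  induction n using Nat.recOnMul with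
  | zero => exact absurd hn (lt_irrefl 0)
  | one =>
    intro x _
    simp only [range_one, sum_singleton, Nat.cast_zero, Nat.cast_one, zero_div, sub_self, zero_smul,
      one_smul]
    have : ((0 : ℚ) : QZ) = 0 := rfl
    rw [this, add_zero, sub_self, sub_zero]
    exact Rel.zero_mem
  | prime p hp => exact dist_prime hp
  | mul a b iha ihb =>
    have ha : 0 < a := Nat.pos_of_mul_pos_right hn
    have hb : 0 < b := Nat.pos_of_mul_pos_left hn
    exact dist_mul ha hb (iha ha) (ihb hb)

end Pool.Agent.Lib.MP_386e47_ag_h1L
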