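import Pool.Agent.Lib.MP_386e47_ag_h1L.W1

/-! Row E3: a vanishing sum of sawtooth functions has no jumps.

Proof of `jump_zero`: near an arbitrary `t` and for small `h ≠ 0` the parameter `t + h` is generic
and, by `LevelOne.saw_local`, `gs (t + h) = gs t + M h - sign h * J / 2`, `J` the sum in the
statement; compare `h → 0+` and `h → 0-`. Proof of `degree_zero`: `gs` is affine with slope `M`
near a generic parameter (`gs_local`). -/

set_option autoImplicit false

namespace Pool.Agent.Lib.MP_386e47_ag_h1L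

open Finset
open Pool.Agent.LevelOne (saw dot)

variable {ι : Type} [Fintype ι] [DecidableEq ι]

open Classical in
private lemma e3_one (x : ℝ) (q : ℤ) (hq : q ≠ 0) :
    ∀ᶠ h in nhdsWithin (0 : ℝ) (Set.Ioi 0),
      ((∀ n : ℤ, x + q * h ≠ n) ∧ saw (x + q * h) =
        saw x + q * h - ((if ∃ n : ℤ, x = n then Int.sign q else 0 : ℤ) : ℝ) / 2) ∧
      ((∀ n : ℤ, x - q * h ≠ n) ∧ saw (x - q * h) =
        saw x - q * h + ((if ∃ n : ℤ, x = n then Int.sign q else 0 : ℤ) : ℝ) / 2) := by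
  obtain ⟨ε, hε, H⟩ := Pool.Agent.LevelOne.saw_local x
  have hq' : (q : ℝ) ≠ 0 := by exact_mod_cast hq
  have hqa : 0 < |(q : ℝ)| := abs_pos.2 hq'
  filter_upwards [Ioo_mem_nhdsGT (div_pos hε hqa)] with h hh
  have h0 : (q : ℝ) * h ≠ 0 := mul_ne_zero hq' hh.1.ne'
  have h1 : |(q : ℝ) * h| < ε := by
    rw [abs_mul, abs_of_pos hh.1, mul_comm]
    exact (lt_div_iff₀ hqa).1 hh.2
  have h0' : -((q : ℝ) * h) ≠ 0 := neg_ne_zero.2 h0
  have h1' : |-((q : ℝ) * h)| < ε := by rwa [abs_neg]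
  obtain ⟨a1, a2⟩ := H _ h0 h1
  obtain ⟨b1, b2⟩ := H _ h0' h1'
  rw [← sub_eq_add_neg] at b1 b2
  have hP : (Int.fract x = 0) ↔ ∃ n : ℤ, x = n := Pool.Agent.LevelOne.fract_eq_zero_iff
  refine ⟨⟨a1, ?_⟩, ⟨b1, ?_⟩⟩
  · rw [a2]
    by_cases hx : ∃ n : ℤ, x = n
    · rw [if_pos hx, if_pos (hP.2 hx)]
      rcases lt_or_gt_of_ne hq with h2 | h2
      · have h3 : (q : ℝ) < 0 := by exact_mod_cast h2
        rw [sign_neg (mul_neg_of_neg_of_pos h3 hh.1), Int.sign_eq_neg_one_of_neg h2]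
        simp
      · have h3 : 0 < (q : ℝ) := by exact_mod_cast h2
        rw [sign_pos (mul_pos h3 hh.1), Int.sign_eq_one_of_pos h2]
        simp
    · rw [if_neg hx, if_neg (fun h => hx (hP.1 h))]
      simp
  · rw [b2]
    by_cases hx : ∃ n : ℤ, x = n
    · rw [if_pos hx, if_pos (hP.2 hx)]
      rcases lt_or_gt_of_ne hq with h2 | h2
      · have h3 : (q : ℝ) < 0 := by exact_mod_cast h2
        rw [sign_pos (neg_pos.2 (mul_neg_of_neg_of_pos h3 hh.1)), Int.sign_eq_neg_one_of_neg h2]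
        push_cast
        rw [SignType.coe_one]
        ring
      · have h3 : 0 < (q : ℝ) := by exact_mod_cast h2
        rw [sign_neg (neg_neg_of_pos (mul_pos h3 hh.1)), Int.sign_eq_one_of_pos h2]
        rw [SignType.coe_neg_one]
        push_cast
        ring
    · rw [if_neg hx, if_neg (fun h => hx (hP.1 h))]
      push_cast
      ring

open Classical in
private lemma e3_both (C : Finset ι) (α : ι → ℝ) (q : ι → ℤ) (hq : ∀ i ∈ C, q i ≠ 0)
    (h : ∀ t, Gen C α q t → gs C α q t = 0) (t : ℝ) :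
    ∑ i ∈ C, (if ∃ n : ℤ, α i + q i * t = n then Int.sign (q i) else 0) = 0 ∧
      ∑ i ∈ C, q i = 0 := by
  have hall := (Filter.eventually_all_finset C).2 fun i hi => e3_one (α i + q i * t) (q i) (hq i hi)
  obtain ⟨u, hu, H⟩ := mem_nhdsGT_iff_exists_Ioo_subset.1 hall
  have hu' : 0 < u := hu
  set J : ℤ := ∑ i ∈ C, (if ∃ n : ℤ, α i + q i * t = n then Int.sign (q i) else 0) with hJ
  set M : ℤ := ∑ i ∈ C, q i with hM
  have key : ∀ s : ℝ, 0 < s → s < u → 2 * (M : ℝ) * s = J := by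
    intro s hs hsu
    have h1 := H ⟨hs, hsu⟩
    have e1 : ∀ i, α i + q i * (t + s) = α i + q i * t + q i * s := fun i => by ring
    have e2 : ∀ i, α i + q i * (t - s) = α i + q i * t - q i * s := fun i => by ring
    have g1 : gs C α q (t + s) = 0 := h _ fun i hi n => by
      rw [e1]
      exact (h1 i hi).1.1 n
    have g2 : gs C α q (t - s) = 0 := h _ fun i hi n => by
      rw [e2]
      exact (h1 i hi).2.1 n
    have g3 : gs C α q (t + s) = gs C α q t + M * s - (J : ℝ) / 2 := by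
      unfold gs
      rw [hM, hJ]
      push_cast
      rw [sum_mul, sum_div, ← sum_add_distrib, ← sum_sub_distrib]
      refine sum_congr rfl fun i hi => ?_
      rw [e1, (h1 i hi).1.2]
      push_cast
      rfl
    have g4 : gs C α q (t - s) = gs C α q t - M * s + (J : ℝ) / 2 := by
      unfold gs
      rw [hM, hJ]
      push_cast
      rw [sum_mul, sum_div, ← sum_sub_distrib, ← sum_add_distrib]
      refine sum_congr rfl fun i hi => ?_
      rw [e2, (h1 i hi).2.2]
      push_cast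
      rfl
    rw [g1] at g3
    rw [g2] at g4
    linarith
  have k1 := key (u / 2) (by linarith) (by linarith)
  have k2 := key (u / 4) (by linarith) (by linarith)
  have hJ0 : (J : ℝ) = 0 := by linarith
  have hM0 : (M : ℝ) = 0 := by
    rw [hJ0] at k1
    have h3 : (M : ℝ) * u = 0 := by linarith
    exact (mul_eq_zero.1 h3).resolve_right hu'.ne'
  exact ⟨by exact_mod_cast hJ0, by exact_mod_cast hM0⟩

open Classical in
theorem jump_zero (C : Finset ι) (α : ι → ℝ) (q : ι → ℤ) (hq : ∀ i ∈ C, q i ≠ 0)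
    (h : ∀ t, Gen C α q t → gs C α q t = 0) (t : ℝ) :
    ∑ i ∈ C, (if ∃ n : ℤ, α i + q i * t = n then Int.sign (q i) else 0) = 0 :=
  (e3_both C α q hq h t).1

theorem degree_zero (C : Finset ι) (α : ι → ℝ) (q : ι → ℤ) (hq : ∀ i ∈ C, q i ≠ 0)
    (h : ∀ t, Gen C α q t → gs C α q t = 0) : ∑ i ∈ C, q i = 0 :=
  (e3_both C α q hq h 0).2

end Pool.Agent.Lib.MP_386e47_ag_h1L
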