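import Pool.Agent.Lib.MP_386e47_ag_h1L.E4a
import Pool.Agent.Lib.MP_386e47_ag_h1L.E3

/-! Row E4: an inactive class is a sum of distribution relations.

Proof: choose `c i` with `q i • c i = a i` (`QZ` is divisible). With `n = |q i|`, `s = sign (q i)`
and `x = c i`: `n • x = s • a i` and `Dist n` give
`[a i] = s * ∑ j < n [x + j/n] + (n - 1) [1/2]` modulo `Rel` (if `s = -1` use `rel_pair` for
`a i`: `[a i] = -[-a i] = -[n x]`, and the parity of the coefficient of `[1/2]` only).
The coefficient at `z : QZ` of `∑ i ∈ C, sign (q i) * ∑ j < |q i|, [c i + j/|q i|]` is the sum of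
`sign (q i)` over the `i` with `q i • z = a i` (exactly one `j` for each such `i`); this is the
sum of `jump_zero` at `t = - rep z` (`int_iff`), so it vanishes. Finally
`∑ (|q i| - 1)` has the parity of `∑ q i - card C = - card C` (`degree_zero`). -/

set_option autoImplicit false

namespace Pool.Agent.Lib.MP_386e47_ag_h1L

open Finset
open Pool.Agent.LevelOne (saw dot)

variable {ι : Type} [Fintype ι] [DecidableEq ι]

theorem rel_inactive (C : Finset ι) (a : ι → QZ) (ha : ∀ i ∈ C, a i ≠ 0) (q : ι → ℤ)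
    (hq : ∀ i ∈ C, q i ≠ 0)
    (h : ∀ t, Gen C (fun i => (rep (a i) : ℝ)) q t → gs C (fun i => (rep (a i) : ℝ)) q t = 0) :
    ∑ i ∈ C, (Finsupp.single (a i) 1 : QZ →₀ ℤ) - (C.card : ℤ) • Finsupp.single half 1 ∈ Rel := by
  classical
  have hex : ∀ i, ∃ c : QZ, i ∈ C → q i • c = a i := by
    intro i
    by_cases hi : i ∈ C
    · obtain ⟨c, hc⟩ := exists_div (a i) (q i) (hq i hi)
      exact ⟨c, fun _ => hc⟩
    · exact ⟨0, fun h' => absurd h' hi⟩
  choose c hc using hex
  -- the sum of the entries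
  have h1 : ∑ i ∈ C, ((Finsupp.single (a i) 1 : QZ →₀ ℤ) - (Int.sign (q i)) •
      ∑ j ∈ range (q i).natAbs,
        (Finsupp.single (c i + ((j / (q i).natAbs : ℚ) : QZ)) 1 : QZ →₀ ℤ)
      - (q i - 1) • Finsupp.single half 1) ∈ Rel :=
    Rel.sum_mem fun i hi => rel_entry (a i) (c i) (ha i hi) (q i) (hq i hi) (hc i hi)
  -- the middle part vanishes
  have h2 : ∑ i ∈ C, (Int.sign (q i)) • ∑ j ∈ range (q i).natAbs,
        (Finsupp.single (c i + ((j / (q i).natAbs : ℚ) : QZ)) 1 : QZ →₀ ℤ) = 0 := by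
    ext z
    rw [Finsupp.finsetSum_apply]
    have h3 := jump_zero C (fun i => (rep (a i) : ℝ)) q hq h (((-rep z : ℚ)) : ℝ)
    rw [Finsupp.coe_zero, Pi.zero_apply]
    rw [← h3]
    refine Finset.sum_congr rfl fun i hi => ?_
    rw [Finsupp.smul_apply, root_count (a i) (c i) (q i) (hq i hi) (hc i hi) z, smul_eq_mul]
    have h4 : (∃ n : ℤ, (rep (a i) : ℝ) + q i * (((-rep z : ℚ)) : ℝ) = n) ↔ q i • z = a i := by
      rw [int_iff, AddCircle.coe_neg, coe_rep, smul_neg, add_neg_eq_zero]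
      exact eq_comm
    by_cases h5 : q i • z = a i
    · rw [if_pos h5, if_pos (h4.2 h5), mul_one]
    · rw [if_neg h5, if_neg (fun h6 => h5 (h4.1 h6)), mul_zero]
  have h3 : ∑ i ∈ C, (q i - 1) = -(C.card : ℤ) := by
    rw [Finset.sum_sub_distrib, degree_zero C _ q hq h]
    simp
  rw [Finset.sum_sub_distrib, Finset.sum_sub_distrib, h2, ← Finset.sum_smul, h3, sub_zero] at h1
  have hpar : (-(C.card : ℤ)) • (Finsupp.single half 1 : QZ →₀ ℤ)
        - (C.card : ℤ) • (Finsupp.single half 1 : QZ →₀ ℤ) ∈ Rel := by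
    apply rel_parity
    exact ⟨-(C.card : ℤ), by ring⟩
  have := Rel.add_mem h1 hpar
  convert this using 1
  abel

end Pool.Agent.Lib.MP_386e47_ag_h1L
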