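import Pool.Agent.Lib.MP_386e47_ag_h1L.E2

/-! Row E4a: one entry in terms of the roots of `q x = a`.

`root_count`: `q = ± n`, `n > 0`; the `n` elements `c + j/n` are exactly the solutions of
`n z = n c`. `rel_entry`: with `n = |q|`, `s = sign q`: `n • c = s • a`; `Dist n` (`dist_all`) for `x = c`;
if `s = -1` use `rel_pair` for `a` (`n • c = -a`); the coefficient of `[1/2]` only matters modulo
two (`rel_parity`). -/

set_option autoImplicit false

namespace Pool.Agent.Lib.MP_386e47_ag_h1L

open Finset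

/-- the roots of `q x = a` -/
lemma exists_div (a : QZ) (q : ℤ) (hq : q ≠ 0) : ∃ c : QZ, q • c = a := by
  refine ⟨((rep a / q : ℚ) : QZ), ?_⟩
  have hq' : (q : ℚ) ≠ 0 := by exact_mod_cast hq
  rw [← AddCircle.coe_zsmul, zsmul_eq_mul, mul_div_cancel₀ _ hq', coe_rep]

lemma natAbs_nsmul_eq_zero {q : ℤ} {y : QZ} : q.natAbs • y = 0 ↔ q • y = 0 := by
  rcases Int.natAbs_eq q with h | h
  · constructor
    · intro h0; rw [h, natCast_zsmul]; exact h0
    · intro h0; rw [h, natCast_zsmul] at h0; exact h0
  · constructor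
    · intro h0; rw [h, neg_smul, natCast_zsmul, h0, neg_zero]
    · intro h0; rw [h, neg_smul, natCast_zsmul] at h0; exact neg_eq_zero.1 h0

lemma root_count (a c : QZ) (q : ℤ) (hq : q ≠ 0) (hc : q • c = a) (z : QZ) :
    (∑ j ∈ range q.natAbs, (Finsupp.single (c + ((j / q.natAbs : ℚ) : QZ)) 1 : QZ →₀ ℤ)) z =
      if q • z = a then 1 else 0 := by
  classical
  have hn : 0 < q.natAbs := Int.natAbs_pos.2 hq
  have hn' : (0 : ℚ) < (q.natAbs : ℚ) := by exact_mod_cast hn
  have hnz : (q.natAbs : ℚ) ≠ 0 := hn'.ne'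
  rw [Finsupp.finsetSum_apply]
  simp only [Finsupp.single_apply]
  split_ifs with h
  · -- a unique root
    have hy : q.natAbs • (z - c) = 0 := by
      rw [natAbs_nsmul_eq_zero, smul_sub, h, hc, sub_self]
    obtain ⟨m, hm⟩ : ∃ m : ℤ, (q.natAbs : ℚ) * rep (z - c) = m := by
      have h1 : (((q.natAbs : ℚ) * rep (z - c) : ℚ) : QZ) = 0 := by
        rw [← nsmul_eq_mul, AddCircle.coe_nsmul, coe_rep, hy]
      exact coe_eq_zero.1 h1
    have hm0 : 0 ≤ m := by
      have : (0 : ℚ) ≤ m := by
        rw [← hm]; exact mul_nonneg hn'.le (rep_nonneg _)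
      exact_mod_cast this
    have hm1 : m < q.natAbs := by
      have : (m : ℚ) < q.natAbs := by
        rw [← hm]
        calc (q.natAbs : ℚ) * rep (z - c) < (q.natAbs : ℚ) * 1 :=
              mul_lt_mul_of_pos_left (rep_lt_one _) hn'
          _ = q.natAbs := mul_one _
      have h5 : ((m : ℤ) : ℚ) < (((q.natAbs : ℕ) : ℤ) : ℚ) := by
        rw [Int.cast_natCast]; exact this
      exact Int.cast_lt.1 h5
    have hmt : ((m.toNat : ℕ) : ℚ) = m := by
      have : ((m.toNat : ℕ) : ℤ) = m := Int.toNat_of_nonneg hm0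
      exact_mod_cast this
    have hz : c + ((m.toNat / q.natAbs : ℚ) : QZ) = z := by
      have : ((m.toNat : ℚ) / q.natAbs) = rep (z - c) := by
        rw [hmt, ← hm]; field_simp
      rw [this, coe_rep]; abel
    rw [Finset.sum_eq_single m.toNat]
    · rw [if_pos hz]
    · intro j hj hjm
      rw [if_neg]
      intro hjz
      apply hjm
      have h2 : ((((j : ℚ) - m) / q.natAbs : ℚ) : QZ) = 0 := by
        rw [sub_div, AddCircle.coe_sub]
        rw [hmt] at hz
        have := hjz.trans hz.symm
        rw [add_right_inj] at this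
        rw [this, sub_self]
      obtain ⟨k, hk⟩ := coe_eq_zero.1 h2
      rw [div_eq_iff hnz] at hk
      have hk' : (j : ℤ) - m = k * (q.natAbs : ℤ) := by
        have h6 : (((j : ℤ) - m : ℤ) : ℚ) = ((k * (q.natAbs : ℤ) : ℤ) : ℚ) := by
          rw [Int.cast_sub, Int.cast_mul, Int.cast_natCast, Int.cast_natCast]; exact hk
        exact Int.cast_injective h6
      have hj' : (j : ℤ) < q.natAbs := by
        have := Finset.mem_range.1 hj
        exact_mod_cast this
      have hj0 : (0 : ℤ) ≤ j := Int.natCast_nonneg j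
      have hk0 : k = 0 := by
        rcases lt_trichotomy k 0 with h3 | h3 | h3
        · exfalso
          have : k * (q.natAbs : ℤ) ≤ -1 * q.natAbs :=
            mul_le_mul_of_nonneg_right (by omega) (by positivity)
          linarith
        · exact h3
        · exfalso
          have : 1 * (q.natAbs : ℤ) ≤ k * q.natAbs :=
            mul_le_mul_of_nonneg_right (by omega) (by positivity)
          linarith
      rw [hk0, zero_mul] at hk'
      have : (j : ℤ) = m := by linarith
      rw [← this, Int.toNat_natCast]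
    · intro hnm
      exfalso
      apply hnm
      rw [Finset.mem_range]
      have : (m.toNat : ℤ) < q.natAbs := by rw [Int.toNat_of_nonneg hm0]; exact hm1
      exact_mod_cast this
  · apply Finset.sum_eq_zero
    intro j _
    rw [if_neg]
    intro hj
    apply h
    rw [← hj, smul_add, hc]
    have h4 : q • ((j / q.natAbs : ℚ) : QZ) = 0 := by
      rw [← natAbs_nsmul_eq_zero, ← AddCircle.coe_nsmul, nsmul_eq_mul, mul_div_cancel₀ _ hnz]
      exact coe_eq_zero.2 ⟨j, by simp⟩
    rw [h4, add_zero]

/-- one entry -/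
lemma rel_entry (a c : QZ) (ha : a ≠ 0) (q : ℤ) (hq : q ≠ 0) (hc : q • c = a) :
    (Finsupp.single a 1 : QZ →₀ ℤ) - (Int.sign q) • ∑ j ∈ range q.natAbs,
      (Finsupp.single (c + ((j / q.natAbs : ℚ) : QZ)) 1 : QZ →₀ ℤ)
      - (q - 1) • Finsupp.single half 1 ∈ Rel := by
  have hn : 0 < q.natAbs := Int.natAbs_pos.2 hq
  set S : QZ →₀ ℤ := ∑ j ∈ range q.natAbs,
      (Finsupp.single (c + ((j / q.natAbs : ℚ) : QZ)) 1 : QZ →₀ ℤ) with hS
  rcases lt_or_gt_of_ne hq with h | h
  · -- negative
    have hqn : (q.natAbs : ℤ) = -q := by omega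
    have hnc : q.natAbs • c = -a := by
      rw [← natCast_zsmul, hqn, neg_smul, hc]
    have hd : S - Finsupp.single (-a) 1 - ((q.natAbs : ℤ) - 1) • Finsupp.single half 1 ∈ Rel := by
      have := dist_all hn c (by rw [hnc]; exact neg_ne_zero.2 ha)
      rw [hnc] at this
      exact this
    have hp := rel_pair ha
    have hpar : ((q.natAbs : ℤ) - 1) • (Finsupp.single half 1 : QZ →₀ ℤ)
        - (q - 1) • (Finsupp.single half 1 : QZ →₀ ℤ) ∈ Rel := by
      apply rel_parity
      rw [hqn]
      exact ⟨-q, by ring⟩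
    have := Rel.add_mem (Rel.add_mem hd hp) hpar
    rw [Int.sign_eq_neg_one_of_neg h]
    convert this using 1
    simp only [neg_smul, one_smul]
    abel
  · have hqn : (q.natAbs : ℤ) = q := by omega
    have hnc : q.natAbs • c = a := by
      rw [← natCast_zsmul, hqn, hc]
    have hd : S - Finsupp.single a 1 - ((q.natAbs : ℤ) - 1) • Finsupp.single half 1 ∈ Rel := by
      have := dist_all hn c (by rw [hnc]; exact ha)
      rw [hnc] at this
      exact this
    have hpar : (-(q - 1)) • (Finsupp.single half 1 : QZ →₀ ℤ)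
        - (q - 1) • (Finsupp.single half 1 : QZ →₀ ℤ) ∈ Rel := by
      apply rel_parity
      exact ⟨-(q - 1), by ring⟩
    have := Rel.add_mem (Rel.neg_mem hd) hpar
    rw [Int.sign_eq_one_of_pos h]
    convert this using 1
    rw [hqn]
    simp only [neg_smul, one_smul]
    abel

end Pool.Agent.Lib.MP_386e47_ag_h1L
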