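import Pool.Agent.Lib.MP_386e47_ag_h1L.E4

/-! Row E5: an active class of nonzero degree is equivalent to one entry.

Proof: `rel_inactive` for the index type `Option ι`, the set `C` with the additional entry `none`,
`a none = -b`, `q none = -M`, `b = ∑ i ∈ C, a i - (card C - 1)/2`, `M = ∑ q i`. `b ≠ 0`: `t = 0` is
generic for `C` (the entries are not zero), so `betaC` is not an integer; `rep b` differs from `betaC`
by an integer; `saw (-x) = - saw x` (`LevelOne.saw_neg`), `saw (x + n) = saw x`. Then add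
`rel_pair` for `b` and use the parity. -/

set_option autoImplicit false

namespace Pool.Agent.Lib.MP_386e47_ag_h1L

open Finset
open Pool.Agent.LevelOne (saw dot)

variable {ι : Type} [Fintype ι] [DecidableEq ι]

/-- the single entry to which the class is equivalent -/
noncomputable def bC (C : Finset ι) (a : ι → QZ) : QZ :=
  ∑ i ∈ C, a i - ((((C.card : ℚ) - 1) / 2 : ℚ) : QZ)

omit [Fintype ι] in
private lemma coe_beta (C : Finset ι) (a : ι → QZ) :
    ((∑ i ∈ C, rep (a i) - ((C.card : ℚ) - 1) / 2 : ℚ) : QZ) = bC C a := by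
  have h1 : ((∑ i ∈ C, rep (a i) : ℚ) : QZ) = ∑ i ∈ C, a i := by
    have h2 : ∀ D : Finset ι, ((∑ i ∈ D, rep (a i) : ℚ) : QZ) = ∑ i ∈ D, a i := by
      intro D
      induction D using Finset.induction_on with
      | empty => simp
      | insert i D hi ih =>
        rw [Finset.sum_insert hi, Finset.sum_insert hi, AddCircle.coe_add, ih, coe_rep]
    exact h2 C
  rw [AddCircle.coe_sub, h1, bC]

omit [Fintype ι] [DecidableEq ι] in
private lemma beta_cast (C : Finset ι) (a : ι → QZ) :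
    betaC C (fun i => (rep (a i) : ℝ)) =
      ((∑ i ∈ C, rep (a i) - ((C.card : ℚ) - 1) / 2 : ℚ) : ℝ) := by
  unfold betaC
  push_cast
  rfl

theorem rel_active (C : Finset ι) (a : ι → QZ) (ha : ∀ i ∈ C, a i ≠ 0) (q : ι → ℤ)
    (hq : ∀ i ∈ C, q i ≠ 0) (hM : ∑ i ∈ C, q i ≠ 0)
    (h : ∀ t, Gen C (fun i => (rep (a i) : ℝ)) q t →
      (∀ n : ℤ, betaC C (fun i => (rep (a i) : ℝ)) + ((∑ i ∈ C, q i : ℤ) : ℝ) * t ≠ n) ∧
      gs C (fun i => (rep (a i) : ℝ)) q t =
        saw (betaC C (fun i => (rep (a i) : ℝ)) + ((∑ i ∈ C, q i : ℤ) : ℝ) * t)) :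
    bC C a ≠ 0 ∧ ∑ i ∈ C, (Finsupp.single (a i) 1 : QZ →₀ ℤ) - Finsupp.single (bC C a) 1
      - ((C.card : ℤ) - 1) • Finsupp.single half 1 ∈ Rel := by
  have hb : bC C a ≠ 0 := by
    intro h0
    rw [← coe_beta, coe_eq_zero] at h0
    obtain ⟨n, hn⟩ := h0
    have hg : Gen C (fun i => (rep (a i) : ℝ)) q 0 := by
      intro i hi k
      rw [mul_zero, add_zero]
      exact rep_ne_int (ha i hi) k
    apply (h 0 hg).1 n
    rw [mul_zero, add_zero, beta_cast, hn]
    norm_num
  refine ⟨hb, ?_⟩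
  -- the extended class
  set M : ℤ := ∑ i ∈ C, q i with hMdef
  let C' : Finset (Option ι) := insertNone C
  let a' : Option ι → QZ := fun o => o.elim (-(bC C a)) a
  let q' : Option ι → ℤ := fun o => o.elim (-M) q
  have ha' : ∀ i ∈ C', a' i ≠ 0 := by
    intro i hi
    cases i with
    | none => simpa [a'] using hb
    | some j =>
      have hj : j ∈ C := by simpa [C'] using hi
      exact ha j hj
  have hq' : ∀ i ∈ C', q' i ≠ 0 := by
    intro i hi
    cases i with
    | none => simpa [q'] using hM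
    | some j =>
      have hj : j ∈ C := by simpa [C'] using hi
      exact hq j hj
  have hrep : ∃ n : ℤ, ((rep (-(bC C a)) : ℚ) : ℝ) =
      -betaC C (fun i => (rep (a i) : ℝ)) + n := by
    have h1 : ((rep (-(bC C a)) + (∑ i ∈ C, rep (a i) - ((C.card : ℚ) - 1) / 2) : ℚ) : QZ) = 0 := by
      rw [AddCircle.coe_add, coe_rep, coe_beta, neg_add_cancel]
    rw [coe_eq_zero] at h1
    obtain ⟨n, hn⟩ := h1
    refine ⟨n, ?_⟩
    rw [beta_cast]
    have h2 : rep (-(bC C a)) = -(∑ i ∈ C, rep (a i) - ((C.card : ℚ) - 1) / 2) + n := by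
      linarith
    rw [h2]
    push_cast
    ring
  have key := rel_inactive C' a' ha' q' hq' (by
    intro t ht
    have ht' : Gen C (fun i => (rep (a i) : ℝ)) q t := by
      intro i hi n
      have := ht (some i) (by simpa [C'] using hi) n
      simpa [a', q'] using this
    obtain ⟨h1, h2⟩ := h t ht'
    have h3 : gs C' (fun i => (rep (a' i) : ℝ)) q' t =
        saw ((rep (-(bC C a)) : ℝ) + ((-M : ℤ) : ℝ) * t) + gs C (fun i => (rep (a i) : ℝ)) q t := by
      unfold gs
      rw [Finset.sum_insertNone]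
      rfl
    rw [h3, h2]
    obtain ⟨n, hn⟩ := hrep
    rw [hn]
    have h4 : -betaC C (fun i => (rep (a i) : ℝ)) + (n : ℝ) + ((-M : ℤ) : ℝ) * t =
        -(betaC C (fun i => (rep (a i) : ℝ)) + (M : ℝ) * t) + n := by
      push_cast
      ring
    rw [h4, Pool.Agent.LevelOne.saw_add_int, Pool.Agent.LevelOne.saw_neg]
    ring)
  have hsum : ∑ i ∈ C', (Finsupp.single (a' i) 1 : QZ →₀ ℤ) =
      Finsupp.single (-(bC C a)) 1 + ∑ i ∈ C, (Finsupp.single (a i) 1 : QZ →₀ ℤ) := by
    rw [Finset.sum_insertNone]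
    rfl
  have hcard : (C'.card : ℤ) = C.card + 1 := by
    simp [C']
  rw [hsum, hcard] at key
  have hpair := rel_pair hb
  have hpar := rel_parity (m := (C.card : ℤ) + 1) (n := (C.card : ℤ) - 1) ⟨1, by ring⟩
  have e : ∑ i ∈ C, (Finsupp.single (a i) 1 : QZ →₀ ℤ) - Finsupp.single (bC C a) 1
      - ((C.card : ℤ) - 1) • Finsupp.single half 1 =
      (Finsupp.single (-(bC C a)) 1 + ∑ i ∈ C, (Finsupp.single (a i) 1 : QZ →₀ ℤ) -
        ((C.card : ℤ) + 1) • Finsupp.single half 1) -
      (Finsupp.single (bC C a) 1 + Finsupp.single (-(bC C a)) 1) +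
      (((C.card : ℤ) + 1) • Finsupp.single half 1 - ((C.card : ℤ) - 1) • Finsupp.single half 1) := by
    abel
  rw [e]
  exact Rel.add_mem (Rel.sub_mem key hpair) hpar

end Pool.Agent.Lib.MP_386e47_ag_h1L
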