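import Pool.Agent.Lib.MP_386e47_ag_h1L.R2

/-! Row E6: homomorphisms which vanish on `Rel`, and the lifting of conjugations.

`exists_lift`: Dirichlet, `Nat.infinite_setOf_prime_and_eq_mod` (a prime `p > K`, `p ≡ u` modulo `n`);
for `n = 0`... `n > 0` is assumed.
`rel_eval`: closure induction; for a generator `formal b` with `b` of level zero take
`K = ∏ addOrderOf (b i)`: `∑ saw (rep (u • b i)) = 0` by `levelZero_iff`; for `hasseDavenport p x`
take `K = p * addOrderOf x` (times `2`): `∑ j < p, saw (y + j/p) = saw (p y)` for `y = u x` after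
the permutation `j ↦ u j` of the residues modulo `p`. For sums take the product of the `K`. -/

set_option autoImplicit false

namespace Pool.Agent.Lib.MP_386e47_ag_h1L

open Finset
open Pool.Agent.LevelOne (saw dot)

theorem exists_lift {n K u : ℕ} (hn : 0 < n) (hK : 0 < K) (hu : u.Coprime n) :
    ∃ w : ℕ, w ≡ u [MOD n] ∧ w.Coprime K ∧ w.Coprime n := by
  obtain ⟨p, hp, hpp, hpu⟩ := Nat.forall_exists_prime_gt_and_modEq (K + n) hn.ne' hu
  refine ⟨p, hpu, ?_, ?_⟩
  · rw [Nat.Prime.coprime_iff_not_dvd hpp]
    intro h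
    have := Nat.le_of_dvd hK h
    omega
  · rw [Nat.Prime.coprime_iff_not_dvd hpp]
    intro h
    have := Nat.le_of_dvd hn h
    omega

lemma smul_eq_of_modEq {x : QZ} {n u w : ℕ} (hx : n • x = 0) (h : w ≡ u [MOD n]) :
    w • x = u • x := by
  have key : ∀ a : ℕ, a • x = (a % n) • x := by
    intro a
    conv_lhs => rw [← Nat.div_add_mod a n]
    rw [add_nsmul, mul_nsmul, hx, nsmul_zero, zero_add]
  rw [key w, key u]
  congr 1

private lemma sum_shift {n : ℕ} (f : ℕ → ℝ) (hf : ∀ j, f (j + n) = f j) (k : ℕ) :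
    ∑ j ∈ range n, f (j + k) = ∑ j ∈ range n, f j := by
  induction k with
  | zero => simp
  | succ k ih =>
    have h1 : ∑ j ∈ range n, f (j + (k + 1)) + f k = ∑ j ∈ range n, f (j + k) + f (n + k) := by
      have h2 := sum_range_succ (fun j => f (j + k)) n
      have h3 := sum_range_succ' (fun j => f (j + k)) n
      rw [h2] at h3
      rw [h3]
      simp only [zero_add]
      congr 1
      refine sum_congr rfl fun j _ => ?_
      congr 1
      ring
    have h2 : f (n + k) = f k := by rw [add_comm, hf]
    rw [h2] at h1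
    rw [← ih]
    linarith

/-- the distribution relation of the sawtooth function -/
lemma saw_dist (n : ℕ) (hn : 0 < n) (x : ℝ) :
    ∑ j ∈ range n, saw (x + j / n) = saw (n * x) := by
  have hn0 : (0 : ℝ) < n := by exact_mod_cast hn
  -- the fundamental interval
  have base : ∀ y : ℝ, 0 ≤ y → n * y < 1 → ∑ j ∈ range n, saw (y + j / n) = saw (n * y) := by
    intro y hy0 hy1
    rcases hy0.eq_or_lt with h | h
    · subst h
      simp only [zero_add, mul_zero]
      rw [Pool.Agent.LevelOne.saw_zero]
      obtain ⟨k, rfl⟩ : ∃ k, n = k + 1 := ⟨n - 1, by omega⟩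
      rw [sum_range_succ']
      have h1 : ∀ j ∈ range k, saw (((j + 1 : ℕ) : ℝ) / ((k + 1 : ℕ) : ℝ)) =
          ((j : ℝ) + 1) / (k + 1) - 1 / 2 := by
        intro j hj
        rw [mem_range] at hj
        rw [Pool.Agent.LevelOne.saw_of_mem]
        · push_cast
          rfl
        · positivity
        · rw [div_lt_one (by positivity)]
          exact_mod_cast (by omega : j + 1 < k + 1)
      rw [sum_congr rfl h1]
      simp only [Nat.cast_zero, zero_div]
      rw [Pool.Agent.LevelOne.saw_zero, add_zero, sum_sub_distrib, ← sum_div, sum_add_distrib]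
      simp only [sum_const, card_range, nsmul_eq_mul, mul_one]
      have h2 : ∑ j ∈ range k, (j : ℝ) = (k : ℝ) * (k - 1) / 2 := by
        have := Finset.sum_range_id_mul_two k
        have h3 : ((∑ j ∈ range k, j : ℕ) : ℝ) * 2 = (k : ℝ) * ((k - 1 : ℕ) : ℝ) := by
          exact_mod_cast this
        rcases Nat.eq_zero_or_pos k with h4 | h4
        · subst h4; simp
        · rw [Nat.cast_sub h4] at h3
          push_cast at h3
          linarith
      rw [h2]
      have h5 : (k : ℝ) + 1 ≠ 0 := by positivity
      field_simp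
      ring
    · have h1 : ∀ j ∈ range n, saw (y + j / n) = y + (j : ℝ) / n - 1 / 2 := by
        intro j hj
        rw [mem_range] at hj
        apply Pool.Agent.LevelOne.saw_of_mem
        · positivity
        · have h2 : (j : ℝ) + 1 ≤ n := by exact_mod_cast hj
          have h3 : y < 1 / n := by
            rw [lt_div_iff₀ hn0]
            linarith
          have h4 : (j : ℝ) / n + 1 / n ≤ 1 := by
            rw [← add_div, div_le_one hn0]
            exact h2
          linarith
      rw [sum_congr rfl h1, Pool.Agent.LevelOne.saw_of_mem (by positivity) hy1, sum_sub_distrib,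
        sum_add_distrib, ← sum_div]
      simp only [sum_const, card_range, nsmul_eq_mul]
      have h2 : ∑ j ∈ range n, (j : ℝ) = (n : ℝ) * (n - 1) / 2 := by
        have := Finset.sum_range_id_mul_two n
        have h3 : ((∑ j ∈ range n, j : ℕ) : ℝ) * 2 = (n : ℝ) * ((n - 1 : ℕ) : ℝ) := by
          exact_mod_cast this
        rw [Nat.cast_sub hn] at h3
        push_cast at h3
        linarith
      rw [h2]
      field_simp
      ring
  -- reduction to `0 ≤ x < 1`
  have red : ∑ j ∈ range n, saw (x + j / n) = ∑ j ∈ range n, saw (Int.fract x + j / n) := by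
    refine sum_congr rfl fun j _ => ?_
    rw [← Pool.Agent.LevelOne.saw_add_int (Int.fract x + j / n) ⌊x⌋]
    congr 1
    have := Int.fract_add_floor x
    linarith
  have red2 : saw (n * x) = saw (n * Int.fract x) := by
    rw [← Pool.Agent.LevelOne.saw_add_int (n * Int.fract x) (n * ⌊x⌋)]
    congr 1
    have := Int.fract_add_floor x
    push_cast
    rw [← mul_add, this]
  rw [red, red2]
  set z := Int.fract x with hz
  have hz0 : 0 ≤ z := Int.fract_nonneg x
  set k := ⌊(n : ℝ) * z⌋₊ with hk
  have hk1 : (k : ℝ) ≤ n * z := Nat.floor_le (by positivity)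
  have hk2 : (n : ℝ) * z < k + 1 := Nat.lt_floor_add_one _
  set y := z - k / n with hy
  have hy0 : 0 ≤ y := by
    rw [hy, sub_nonneg, div_le_iff₀ hn0]
    linarith
  have hny : n * y = n * z - k := by
    rw [hy]
    field_simp
  have h1 := base y hy0 (by rw [hny]; linarith)
  have h2 : saw (n * y) = saw (n * z) := by
    rw [hny, ← Pool.Agent.LevelOne.saw_add_int (n * z - k) k]
    congr 1
    push_cast
    ring
  rw [← h2, ← h1]
  have h3 := sum_shift (n := n) (fun j => saw (y + j / n)) (fun j => by
    rw [← Pool.Agent.LevelOne.saw_add_one (y + j / n)]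
    congr 1
    push_cast
    field_simp
    ring) k
  rw [← h3]
  refine sum_congr rfl fun j _ => ?_
  congr 1
  rw [hy]
  push_cast
  field_simp
  ring

/-- the sawtooth function at a representative -/
private lemma saw_rep (q : ℚ) : saw ((rep (q : QZ) : ℚ) : ℝ) = saw (q : ℝ) := by
  rw [rep_coe, ← Pool.Agent.LevelOne.saw_add_int _ ⌊q⌋]
  congr 1
  have := Int.fract_add_floor q
  exact_mod_cast this

private lemma sum_perm {p : ℕ} (hp : 0 < p) (f : ℕ → ℝ) (hf : ∀ j, f (j + p) = f j) {u : ℕ}
    (hu : u.Coprime p) : ∑ j ∈ range p, f (u * j) = ∑ j ∈ range p, f j := by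
  have hmod : ∀ a, f a = f (a % p) := by
    intro a
    have key : ∀ b c, f (c + p * b) = f c := by
      intro b c
      induction b with
      | zero => simp
      | succ b ih =>
        rw [Nat.mul_succ, ← add_assoc, hf, ih]
    conv_lhs => rw [← Nat.mod_add_div a p]
    exact key _ _
  have hmaps : ∀ j ∈ range p, (u * j) % p ∈ range p := fun j _ =>
    mem_range.2 (Nat.mod_lt _ hp)
  have hinj : Set.InjOn (fun j => (u * j) % p) (range p : Set ℕ) := by
    intro a ha b hb hab
    rw [mem_coe, mem_range] at ha hb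
    have h1 : u * a ≡ u * b [MOD p] := hab
    have h2 : a ≡ b [MOD p] := Nat.ModEq.cancel_left_of_coprime (by rwa [Nat.gcd_comm]) h1
    have h3 : a % p = b % p := h2
    rwa [Nat.mod_eq_of_lt ha, Nat.mod_eq_of_lt hb] at h3
  refine sum_nbij (fun j => (u * j) % p) hmaps hinj ?_ fun j _ => hmod _
  exact surjOn_of_injOn_of_card_le _ hmaps hinj le_rfl

private noncomputable def ev (u : ℕ) (h : QZ →₀ ℤ) : ℝ :=
  h.sum fun x n => (n : ℝ) * saw (rep (u • x) : ℝ)

private lemma ev_add (u : ℕ) (h h' : QZ →₀ ℤ) : ev u (h + h') = ev u h + ev u h' := by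
  unfold ev
  refine Finsupp.sum_add_index' (fun _ => by simp) fun _ _ _ => ?_
  push_cast
  ring

private lemma ev_zero (u : ℕ) : ev u 0 = 0 := by
  unfold ev
  simp

private lemma ev_neg (u : ℕ) (h : QZ →₀ ℤ) : ev u (-h) = -ev u h := by
  have h1 := ev_add u h (-h)
  rw [add_neg_cancel, ev_zero] at h1
  linarith

private lemma ev_single (u : ℕ) (x : QZ) : ev u (Finsupp.single x 1) = saw (rep (u • x) : ℝ) := by
  unfold ev
  rw [Finsupp.sum_single_index (by simp)]
  simp

private lemma ev_sum {σ : Type*} (u : ℕ) (s : Finset σ) (f : σ → QZ →₀ ℤ) :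
    ev u (∑ i ∈ s, f i) = ∑ i ∈ s, ev u (f i) := by
  classical
  induction s using Finset.induction_on with
  | empty => simp [ev_zero]
  | insert a s ha ih => rw [sum_insert ha, sum_insert ha, ev_add, ih]

theorem rel_eval {h : QZ →₀ ℤ} (hh : h ∈ Rel) : ∃ K : ℕ, 0 < K ∧ ∀ u : ℕ, u.Coprime K →
    h.sum (fun x n => (n : ℝ) * saw (rep (u • x) : ℝ)) = 0 := by
  suffices H : ∃ K : ℕ, 0 < K ∧ ∀ u : ℕ, u.Coprime K → ev u h = 0 from H
  unfold Rel at hh
  induction hh using AddSubgroup.closure_induction with
  | mem h hh =>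
    rcases hh with ⟨k, b, _, hb, rfl⟩ | ⟨p, x, hp, _, rfl⟩
    · refine ⟨∏ i, addOrderOf (b i), Finset.prod_pos fun i _ => order_pos _, fun u hu => ?_⟩
      have hadm : Adm b u := fun i => Nat.Coprime.coprime_dvd_right
        (Finset.dvd_prod_of_mem (fun i => addOrderOf (b i)) (mem_univ i)) hu
      have h1 := (levelZero_iff hb.1).1 hb u hadm
      unfold formal
      rw [ev_sum]
      simp only [ev_single]
      exact h1
    · refine ⟨p, hp.pos, fun u hu => ?_⟩
      unfold hasseDavenport
      rw [ev_add, ev_add, ev_sum]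
      simp only [ev_single]
      have hp0 : (0 : ℝ) < p := by exact_mod_cast hp.pos
      set y : ℝ := u * (rep x : ℝ) with hy
      have h1 : ∑ j ∈ range p, saw ((rep (u • (x + ((j / p : ℚ) : QZ))) : ℚ) : ℝ) =
          ∑ j ∈ range p, saw (y + j / p) := by
        rw [← sum_perm hp.pos (fun j => saw (y + j / p)) (fun j => by
          rw [← Pool.Agent.LevelOne.saw_add_one (y + j / p)]
          congr 1
          push_cast
          field_simp
          ring) hu]
        refine sum_congr rfl fun j _ => ?_
        have h2 : u • (x + ((j / p : ℚ) : QZ)) = ((u * (rep x + j / p) : ℚ) : QZ) := by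
          conv_lhs => rw [← coe_rep x]
          rw [← AddCircle.coe_add, ← AddCircle.coe_nsmul, nsmul_eq_mul]
        rw [h2, saw_rep]
        congr 1
        rw [hy]
        push_cast
        ring
      have h3 : saw ((rep (u • -(p • x)) : ℚ) : ℝ) = - saw (p * y) := by
        have h2 : u • -(p • x) = ((-(u * (p * rep x)) : ℚ) : QZ) := by
          conv_lhs => rw [← coe_rep x]
          rw [← AddCircle.coe_nsmul, ← AddCircle.coe_neg, ← AddCircle.coe_nsmul, nsmul_eq_mul,
            nsmul_eq_mul]
          congr 1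
          ring
        rw [h2, saw_rep, ← Pool.Agent.LevelOne.saw_neg]
        congr 1
        rw [hy]
        push_cast
        ring
      have h4 : ev u (if p = 2 then Finsupp.single ((1 / 2 : ℚ) : QZ) 1 else 0) = 0 := by
        split_ifs with h5
        · subst h5
          rw [ev_single]
          have h6 := rep_half_odd hu
          have h7 : rep (u • ((1 / 2 : ℚ) : QZ)) = 1 / 2 := h6
          rw [h7]
          rw [Pool.Agent.LevelOne.saw_of_mem] <;> norm_num
        · exact ev_zero u
      rw [h1, h3, h4, saw_dist p hp.pos]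
      ring
  | zero => exact ⟨1, one_pos, fun u _ => ev_zero u⟩
  | add h h' _ _ ih ih' =>
    obtain ⟨K, hK, hK2⟩ := ih
    obtain ⟨K', hK', hK2'⟩ := ih'
    refine ⟨K * K', Nat.mul_pos hK hK', fun u hu => ?_⟩
    rw [ev_add, hK2 u (Nat.Coprime.coprime_dvd_right (dvd_mul_right _ _) hu),
      hK2' u (Nat.Coprime.coprime_dvd_right (dvd_mul_left _ _) hu), add_zero]
  | neg h _ ih =>
    obtain ⟨K, hK, hK2⟩ := ih
    exact ⟨K, hK, fun u hu => by rw [ev_neg, hK2 u hu, neg_zero]⟩

end Pool.Agent.Lib.MP_386e47_ag_h1L
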