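import Pool.Agent.Lib.MP_386e47_ag_h1L.E1
import Pool.Agent.Lib.MP_386e47_ag_h1L.E6

/-! Row E7: the constant part.

If `card Z` is even, the tuple `(a i), i ∈ Z`, has level zero with at most four entries; if
`card Z` is odd (so at most three) add the entry `1/2`. The hypothesis is only for `u` prime to
the orders of all entries of `a`, level zero of the part needs all `u` prime to the orders of its own
entries: `exists_lift`, `smul_eq_of_modEq`. The sum of the entries is zero because
`∑ saw = 0` for `u = 1` (`∑ rep = card / 2`). Then `rel_levelZero` and `rel_parity`. -/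

set_option autoImplicit false

namespace Pool.Agent.Lib.MP_386e47_ag_h1L

open Finset
open Pool.Agent.LevelOne (saw dot)

variable {ι : Type} [Fintype ι] [DecidableEq ι]

private lemma e7_lift (Z : Finset ι) (a : ι → QZ)
    (h : ∀ u, Adm a u → ∑ i ∈ Z, saw (rl a u i) = 0) (u : ℕ)
    (hu : ∀ i ∈ Z, u.Coprime (addOrderOf (a i))) : ∑ i ∈ Z, saw (rl a u i) = 0 := by
  have hn : 0 < ∏ i ∈ Z, addOrderOf (a i) := prod_pos fun i _ => order_pos (a i)
  have hK : 0 < ∏ i, addOrderOf (a i) := prod_pos fun i _ => order_pos (a i)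
  obtain ⟨w, hw1, hw2, -⟩ := exists_lift hn hK (Nat.Coprime.prod_right hu)
  have hw : Adm a w := fun i =>
    Nat.Coprime.coprime_dvd_right (dvd_prod_of_mem (fun i => addOrderOf (a i)) (mem_univ i)) hw2
  rw [← h w hw]
  refine sum_congr rfl fun i hi => ?_
  unfold rl
  rw [smul_eq_of_modEq (x := a i) (n := ∏ i ∈ Z, addOrderOf (a i)) ?_ hw1]
  obtain ⟨c, hc⟩ : addOrderOf (a i) ∣ ∏ i ∈ Z, addOrderOf (a i) :=
    dvd_prod_of_mem (fun i => addOrderOf (a i)) hi
  rw [hc, mul_comm, mul_nsmul', addOrderOf_nsmul_eq_zero, smul_zero]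

private lemma e7_total (Z : Finset ι) (a : ι → QZ) (ha : ∀ i, a i ≠ 0)
    (h : ∑ i ∈ Z, saw (rl a 1 i) = 0) : ∑ i ∈ Z, rep (a i) = (Z.card : ℚ) / 2 := by
  have h1 : ∀ i ∈ Z, saw (rl a 1 i) = (rep (a i) : ℝ) - 1 / 2 := by
    intro i _
    unfold rl
    rw [one_smul, Pool.Agent.LevelOne.saw_of_ne (rep_ne_int (ha i))]
    congr 1
    rw [Int.fract_eq_self]
    exact ⟨by exact_mod_cast rep_nonneg (a i), by exact_mod_cast rep_lt_one (a i)⟩
  rw [sum_congr rfl h1, sum_sub_distrib, sum_const, nsmul_eq_mul] at h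
  have h2 : ((∑ i ∈ Z, rep (a i) : ℚ) : ℝ) = (((Z.card : ℚ) / 2 : ℚ) : ℝ) := by
    push_cast
    linarith
  exact_mod_cast h2

private lemma e7_sum (Z : Finset ι) (a : ι → QZ) :
    ∑ i ∈ Z, a i = ((∑ i ∈ Z, rep (a i) : ℚ) : QZ) := by
  have h1 := map_sum (QuotientAddGroup.mk' (AddSubgroup.zmultiples (1 : ℚ)))
    (fun i => rep (a i)) Z
  have h2 : ((∑ i ∈ Z, rep (a i) : ℚ) : QZ) = ∑ i ∈ Z, ((rep (a i) : ℚ) : QZ) := h1
  rw [h2]
  exact sum_congr rfl fun i _ => (coe_rep (a i)).symm

theorem rel_const (Z : Finset ι) (hZ : Z.card ≤ 4) (a : ι → QZ) (ha : ∀ i, a i ≠ 0)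
    (h : ∀ u, Adm a u → ∑ i ∈ Z, saw (rl a u i) = 0) :
    ∑ i ∈ Z, (Finsupp.single (a i) 1 : QZ →₀ ℤ) + (Z.card : ℤ) • Finsupp.single half 1 ∈ Rel := by
  have hlift := e7_lift Z a h
  have htot := e7_total Z a ha (hlift 1 fun i _ => Nat.coprime_one_left _)
  have hsum := e7_sum Z a
  rw [htot] at hsum
  rcases Nat.even_or_odd Z.card with hev | hod
  · obtain ⟨k, hk⟩ := hev
    have h0 : ∑ i ∈ Z, a i = 0 := by
      rw [hsum, coe_eq_zero]
      exact ⟨k, by rw [hk]; push_cast; ring⟩
    let b : {i // i ∈ Z} → QZ := fun i => a i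
    have hchar : IsCharacter b := by
      refine ⟨fun i => ha i, ?_⟩
      rw [← h0]
      exact Finset.sum_coe_sort Z a
    have hb : LevelZero b := by
      rw [levelZero_iff hchar]
      intro u hu
      have h1 := hlift u fun i hi => hu ⟨i, hi⟩
      rw [← Finset.sum_coe_sort Z (fun i => saw (rl a u i))] at h1
      exact h1
    have h1 := rel_levelZero b (by rw [Fintype.card_coe]; exact hZ) hb
    have h2 : formal b = ∑ i ∈ Z, (Finsupp.single (a i) 1 : QZ →₀ ℤ) := by
      unfold formal
      exact Finset.sum_coe_sort Z (fun i => (Finsupp.single (a i) 1 : QZ →₀ ℤ))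
    rw [h2] at h1
    have h3 := rel_parity (m := (Z.card : ℤ)) (n := 0) (by
      rw [sub_zero, hk]
      exact ⟨k, by push_cast; ring⟩)
    rw [zero_smul, sub_zero] at h3
    exact Rel.add_mem h1 h3
  · obtain ⟨k, hk⟩ := hod
    have hZ3 : Z.card + 1 ≤ 4 := by omega
    have h0 : ∑ i ∈ Z, a i = half := by
      have e : ((Z.card : ℚ) / 2 : ℚ) = 1 / 2 + (k : ℚ) := by
        rw [hk]
        push_cast
        ring
      have e2 : ((k : ℚ) : QZ) = 0 := coe_eq_zero.2 ⟨k, by push_cast; rfl⟩
      rw [hsum, e]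
      show (((1 / 2 : ℚ) + (k : ℚ) : ℚ) : QZ) = half
      rw [AddCircle.coe_add, e2, add_zero]
      rfl
    let b : Option {i // i ∈ Z} → QZ := fun i => i.elim half fun i => a i
    have hchar : IsCharacter b := by
      refine ⟨?_, ?_⟩
      · intro i
        rcases i with _ | i
        · exact half_ne_zero
        · exact ha i
      · rw [Fintype.sum_option]
        show half + ∑ i : {i // i ∈ Z}, a i = 0
        rw [Finset.sum_coe_sort Z a, h0]
        exact two_half
    have hb : LevelZero b := by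
      rw [levelZero_iff hchar]
      intro u hu
      have hu2 : u.Coprime 2 := by
        have := hu none
        have h2 : addOrderOf (b none) = 2 := order_half
        rwa [h2] at this
      have h1 := hlift u fun i hi => hu (some ⟨i, hi⟩)
      rw [← Finset.sum_coe_sort Z (fun i => saw (rl a u i))] at h1
      rw [Fintype.sum_option]
      have h2 : saw (rl b u none) = 0 := by
        show saw ((rep (u • half) : ℚ) : ℝ) = 0
        rw [rep_half_odd hu2]
        push_cast
        rw [Pool.Agent.LevelOne.saw_of_mem (by norm_num) (by norm_num)]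
        norm_num
      rw [h2, zero_add]
      exact h1
    have h1 := rel_levelZero b (by
      rw [Fintype.card_option, Fintype.card_coe]
      exact hZ3) hb
    have h2 : formal b = Finsupp.single half 1 + ∑ i ∈ Z, (Finsupp.single (a i) 1 : QZ →₀ ℤ) := by
      unfold formal
      rw [Fintype.sum_option]
      congr 1
      exact Finset.sum_coe_sort Z (fun i => (Finsupp.single (a i) 1 : QZ →₀ ℤ))
    rw [h2] at h1
    have h3 := rel_parity (m := (Z.card : ℤ)) (n := 1) (by
      rw [hk]
      exact ⟨k, by push_cast; ring⟩)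
    rw [one_smul] at h3
    have h4 := Rel.add_mem h1 h3
    convert h4 using 1
    abel

end Pool.Agent.Lib.MP_386e47_ag_h1L
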