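import Pool.Agent.Lib.MP_386e47_ag_h1L.R2

/-! Row E8: equivalent tuples have the same sum.

`rel_sum`: closure induction; a level zero tuple has sum zero by definition, the Hasse-Davenport
tuple of order `p` has sum `(p - 1)/2` (`+ 1/2` if `p = 2`), which is zero in `ℚ/ℤ`. -/

set_option autoImplicit false

namespace Pool.Agent.Lib.MP_386e47_ag_h1L

open Finset

private noncomputable def phi : (QZ →₀ ℤ) →+ QZ := Finsupp.liftAddHom fun x => zmultiplesHom QZ x

private lemma phi_apply (h : QZ →₀ ℤ) : phi h = h.sum (fun x n => n • x) := rfl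

private lemma phi_single (x : QZ) : phi (Finsupp.single x 1) = x := by
  rw [phi_apply, Finsupp.sum_single_index (by simp), one_zsmul]

private lemma phi_formal {I : Type} [Fintype I] (a : I → QZ) : phi (formal a) = ∑ i, a i := by
  unfold formal
  rw [map_sum]
  exact sum_congr rfl fun i _ => phi_single (a i)

private lemma coe_sum {J : Type} (s : Finset J) (f : J → ℚ) :
    ((∑ j ∈ s, f j : ℚ) : QZ) = ∑ j ∈ s, (f j : QZ) :=
  map_sum (QuotientAddGroup.mk' (AddSubgroup.zmultiples (1 : ℚ))) f s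

private lemma phi_hd (p : ℕ) (x : QZ) (hp : p.Prime) : phi (hasseDavenport p x) = 0 := by
  have hp0 : (p : ℚ) ≠ 0 := by exact_mod_cast hp.ne_zero
  have hs : ∑ j ∈ range p, ((j : ℚ) / p) = ((p : ℚ) - 1) / 2 := by
    rw [← sum_div, ← Nat.cast_sum]
    have h1 := Finset.sum_range_id_mul_two p
    have h2 : ((∑ i ∈ range p, i : ℕ) : ℚ) * 2 = p * (p - 1) := by
      have h3 : (((∑ i ∈ range p, i) * 2 : ℕ) : ℚ) = ((p * (p - 1) : ℕ) : ℚ) := by rw [h1]
      rw [Nat.cast_mul, Nat.cast_mul, Nat.cast_sub hp.one_le] at h3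
      simpa using h3
    rw [div_eq_iff hp0]
    linarith
  unfold hasseDavenport
  rw [map_add, map_add, map_sum, sum_congr rfl fun j _ => phi_single _, phi_single,
    sum_add_distrib, sum_const, card_range, ← coe_sum, hs]
  by_cases h2 : p = 2
  · rw [if_pos h2, phi_single, h2]
    have h3 : (2 : ℕ) • x + (((((2 : ℕ) : ℚ) - 1) / 2 : ℚ) : QZ) + -((2 : ℕ) • x) +
        ((1 / 2 : ℚ) : QZ) = ((((((2 : ℕ) : ℚ) - 1) / 2 + 1 / 2 : ℚ)) : QZ) := by
      rw [AddCircle.coe_add]
      abel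
    rw [h3, coe_eq_zero]
    exact ⟨1, by norm_num⟩
  · rw [if_neg h2, map_zero, add_zero]
    have h3 : p • x + ((((p : ℚ) - 1) / 2 : ℚ) : QZ) + -(p • x) =
        ((((p : ℚ) - 1) / 2 : ℚ) : QZ) := by abel
    rw [h3, coe_eq_zero]
    obtain ⟨k, hk⟩ := hp.odd_of_ne_two h2
    exact ⟨k, by rw [hk]; push_cast; ring⟩

theorem rel_sum {h : QZ →₀ ℤ} (hh : h ∈ Rel) : h.sum (fun x n => n • x) = 0 := by
  have key : Rel ≤ phi.ker := by
    unfold Rel
    rw [AddSubgroup.closure_le]
    rintro g (⟨k, b, -, hb, rfl⟩ | ⟨p, x, hp, -, rfl⟩)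
    · change phi (formal b) = 0
      rw [phi_formal]
      exact hb.1.2
    · exact phi_hd p x hp
  exact key hh

/-- equivalent tuples have the same sum -/
lemma sum_eq_of_rel {I J : Type} [Fintype I] [Fintype J] (a : I → QZ) (b : J → QZ)
    (h : formal a - formal b ∈ Rel) : ∑ i, a i = ∑ j, b j := by
  have h1 : phi (formal a - formal b) = 0 := rel_sum h
  rw [map_sub, phi_formal, phi_formal] at h1
  exact sub_eq_zero.1 h1

end Pool.Agent.Lib.MP_386e47_ag_h1L
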