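import Pool.Agent.Lib.MP_386e47_ag_h1L.R2

/-! Row F0: transport to `Fin 3` and `Fin 5`. -/

set_option autoImplicit false

namespace Pool.Agent.Lib.MP_386e47_ag_h1L

open Finset
open Pool.Agent.LevelOne (saw dot)

variable {ι J : Type} [Fintype ι] [Fintype J]

private lemma f0_char {n : ℕ} (e : Fin n ≃ J) {b : J → QZ} (hb : IsCharacter b) :
    IsCharacter (fun i => b (e i)) :=
  ⟨fun i => hb.1 (e i), by rw [Equiv.sum_comp e b]; exact hb.2⟩

private lemma f0_formal {n : ℕ} (e : Fin n ≃ J) (b : J → QZ) :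
    formal (fun i => b (e i)) = formal b := by
  unfold formal
  exact Equiv.sum_comp e (fun j => (Finsupp.single (b j) 1 : QZ →₀ ℤ))

lemma known_of_three (a : ι → QZ) (b : J → QZ) (hJ : Fintype.card J = 3) (hb : IsCharacter b)
    (h : formal a - formal b ∈ Rel) : Known a := by
  let e : Fin 3 ≃ J := (Fintype.equivFinOfCardEq hJ).symm
  refine Or.inl ⟨fun i => b (e i), f0_char e hb, ?_⟩
  rw [f0_formal e b]
  exact h

lemma known_of_five (a : ι → QZ) (b : J → QZ) (hJ : Fintype.card J = 5) (hb : IsCharacter b)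
    (h : formal a - formal b ∈ Rel) (c : J → ℤ) (hc : c ≠ 0) (hc0 : ∑ j, c j = 0)
    (hl : ∀ u, Adm b u → ∀ t : ℝ, (∀ j, ∀ n : ℤ, rl b u j + c j * t ≠ n) →
      |∑ j, saw (rl b u j + c j * t)| = 1 / 2) : Known a := by
  let e : Fin 5 ≃ J := (Fintype.equivFinOfCardEq hJ).symm
  refine Or.inr ⟨fun i => b (e i), f0_char e hb, ⟨fun i => c (e i), ?_, ?_, ?_⟩, ?_⟩
  · intro h0
    apply hc
    funext j
    have := congrFun h0 (e.symm j)
    simpa using this
  · rw [Equiv.sum_comp e c]
    exact hc0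
  · intro u hu t ht
    have hu' : Adm b u := by
      intro j
      have := hu (e.symm j)
      simpa using this
    have hg : ∀ j, ∀ n : ℤ, rl b u j + c j * t ≠ n := by
      intro j n
      have := ht (e.symm j) n
      simpa [rl] using this
    have h1 := hl u hu' t hg
    have h2 : ∑ j, saw (rl b u j + c j * t) = ∑ j, Int.fract (rl b u j + c j * t) - 5 / 2 := by
      rw [sum_congr rfl fun j _ => Pool.Agent.LevelOne.saw_of_ne (hg j), sum_sub_distrib,
        sum_const, card_univ, hJ]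
      norm_num
    have h3 : ∑ i : Fin 5, Int.fract ((rep (u • b (e i)) : ℝ) + (c (e i) : ℝ) * t) =
        ∑ j, Int.fract (rl b u j + c j * t) :=
      Equiv.sum_comp e (fun j => Int.fract (rl b u j + c j * t))
    rw [h2] at h1
    change ∑ i : Fin 5, Int.fract ((rep (u • b (e i)) : ℝ) + (c (e i) : ℝ) * t) = 2 ∨
      ∑ i : Fin 5, Int.fract ((rep (u • b (e i)) : ℝ) + (c (e i) : ℝ) * t) = 3
    rw [h3]
    rcases (abs_eq (by norm_num : (0 : ℝ) ≤ 1 / 2)).1 h1 with h4 | h4
    · right; linarith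
    · left; linarith
  · rw [f0_formal e b]
    exact h

/-- a character does not have exactly one entry -/
lemma card_ne_one (b : J → QZ) (hb : IsCharacter b) : Fintype.card J ≠ 1 := by
  intro h
  obtain ⟨j, hj⟩ := Fintype.card_eq_one_iff.1 h
  apply hb.1 j
  have h2 := hb.2
  rw [Fintype.sum_eq_single j (fun x hx => absurd (hj x) hx)] at h2
  exact h2

end Pool.Agent.Lib.MP_386e47_ag_h1L
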