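import Pool.Agent.Lib.MP_386e47_ag_h1L.W1

/-! Row W4: a class in one variable. -/

set_option autoImplicit false

namespace Pool.Agent.Lib.MP_386e47_ag_h1L

open Finset
open Pool.Agent.LevelOne (saw dot)

variable {ι κ : Type} [Fintype ι] [Fintype κ] [DecidableEq ι] {v : ι → κ → ℤ}
  {C : Finset ι} {y : κ → ℤ} {N : ℤ} {q : ι → ℤ}

lemma dot_class (hC : IsClass v C y N q) (θ : κ → ℝ) {i : ι} (hi : i ∈ C) :
    dot (v i) θ = q i * (dot y θ / N) := by
  have hN : (N : ℝ) ≠ 0 := by exact_mod_cast hC.2.1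
  have h1 := Pool.Agent.LevelOne.smul_dot N (v i) θ
  rw [(hC.2.2.1 i hi).2, Pool.Agent.LevelOne.smul_dot] at h1
  rw [mul_div_assoc', h1]
  field_simp

lemma gC_eq (hC : IsClass v C y N q) (α : ι → ℝ) (θ : κ → ℝ) :
    gC C α v θ = gs C α q (dot y θ / N) := by
  unfold gC gs
  exact sum_congr rfl fun i hi => by rw [dot_class hC θ hi]

lemma genC_iff (hC : IsClass v C y N q) (α : ι → ℝ) (θ : κ → ℝ) :
    GenC C α v θ ↔ Gen C α q (dot y θ / N) := by
  unfold GenC Gen
  exact forall₂_congr fun i hi => by rw [dot_class hC θ hi]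

/-- every parameter is taken -/
lemma exists_theta (hC : IsClass v C y N q) (t : ℝ) : ∃ θ : κ → ℝ, dot y θ / N = t := by
  classical
  have hN : (N : ℝ) ≠ 0 := by exact_mod_cast hC.2.1
  obtain ⟨j, hj⟩ := Function.ne_iff.1 hC.1
  have hj' : (y j : ℝ) ≠ 0 := by exact_mod_cast hj
  refine ⟨Pi.single j (t * N / y j), ?_⟩
  have h1 : dot y (Pi.single j (t * N / y j) : κ → ℝ) = (y j : ℝ) * (t * N / y j) := by
    unfold dot
    rw [Finset.sum_eq_single j]
    · rw [Pi.single_eq_same]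
    · intro b _ hb
      rw [Pi.single_eq_of_ne hb, mul_zero]
    · intro h
      exact absurd (Finset.mem_univ j) h
  rw [h1]
  field_simp

/-- the sum of the linear forms of the class is the multiple of the sum of the `q i` -/
lemma wsum_eq (hC : IsClass v C y N q) : N • wsum v C = (∑ i ∈ C, q i) • y := by
  unfold wsum
  rw [Finset.smul_sum, Finset.sum_smul]
  exact sum_congr rfl fun i hi => (hC.2.2.1 i hi).2

lemma wsum_ne_zero_iff (hC : IsClass v C y N q) : wsum v C ≠ 0 ↔ ∑ i ∈ C, q i ≠ 0 := by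
  have h := wsum_eq hC
  rw [not_iff_not]
  constructor
  · intro h0
    rw [h0, smul_zero] at h
    rcases smul_eq_zero.1 h.symm with h1 | h1
    · exact h1
    · exact absurd h1 hC.1
  · intro h0
    rw [h0, zero_smul] at h
    rcases smul_eq_zero.1 h with h1 | h1
    · exact absurd h1 hC.2.1
    · exact h1

lemma dot_wsum (hC : IsClass v C y N q) (θ : κ → ℝ) :
    dot (wsum v C) θ = ((∑ i ∈ C, q i : ℤ) : ℝ) * (dot y θ / N) := by
  have hN : (N : ℝ) ≠ 0 := by exact_mod_cast hC.2.1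
  have h1 := Pool.Agent.LevelOne.smul_dot N (wsum v C) θ
  rw [wsum_eq hC, Pool.Agent.LevelOne.smul_dot] at h1
  rw [mul_div_assoc', h1]
  field_simp

lemma inactive_iff (hC : IsClass v C y N q) (α : ι → ℝ) :
    Inactive α v C ↔ ∀ t, Gen C α q t → gs C α q t = 0 := by
  constructor
  · intro h t ht
    obtain ⟨θ, rfl⟩ := exists_theta hC t
    rw [← gC_eq hC]
    exact h θ ((genC_iff hC α θ).2 ht)
  · intro h θ hθ
    rw [gC_eq hC]
    exact h _ ((genC_iff hC α θ).1 hθ)

end Pool.Agent.Lib.MP_386e47_ag_h1L
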