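import Pool.Agent.Lib.MP_386e47_ag_h1L.W3
import Pool.Agent.Lib.MP_386e47_ag_h1L.W4
import Pool.Agent.Lib.MP_386e47_ag_h1L.E5

/-! The relations of the classes, in terms of the linear forms. -/

set_option autoImplicit false

namespace Pool.Agent.Lib.MP_386e47_ag_h1L

open Finset
open Pool.Agent.LevelOne (saw dot)

variable {ι κ : Type} [Fintype ι] [Fintype κ] [DecidableEq ι]

omit [Fintype ι] [DecidableEq ι] in
lemma rl_one (a : ι → QZ) : rl a 1 = fun i => (rep (a i) : ℝ) := by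
  funext i
  unfold rl
  rw [one_smul]

/-- an inactive class, in terms of the linear forms -/
lemma rel_class_inactive {v : ι → κ → ℤ} {a : ι → QZ} (ha : ∀ i, a i ≠ 0) {C : Finset ι}
    (hC : C ∈ classes v) (h : Inactive (rl a 1) v C) :
    ∑ i ∈ C, (Finsupp.single (a i) 1 : QZ →₀ ℤ) - (C.card : ℤ) • Finsupp.single half 1 ∈ Rel := by
  obtain ⟨y, N, q, hq⟩ := isClass_cl hC
  rw [rl_one] at h
  exact rel_inactive C a (fun i _ => ha i) q (fun i hi => (hq.2.2.1 i hi).1)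
    ((inactive_iff hq _).mp h)

/-- an active class, in terms of the linear forms -/
lemma rel_class_active {v : ι → κ → ℤ} {a : ι → QZ} (ha : ∀ i, a i ≠ 0) {C : Finset ι}
    (hC : C ∈ classes v) (hw : wsum v C ≠ 0)
    (h : ∀ θ : κ → ℝ, GenC C (rl a 1) v θ →
        (∀ n : ℤ, betaC C (rl a 1) + dot (wsum v C) θ ≠ n) ∧
        gC C (rl a 1) v θ = saw (betaC C (rl a 1) + dot (wsum v C) θ)) :
    bC C a ≠ 0 ∧ ∑ i ∈ C, (Finsupp.single (a i) 1 : QZ →₀ ℤ) - Finsupp.single (bC C a) 1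
      - ((C.card : ℤ) - 1) • Finsupp.single half 1 ∈ Rel := by
  obtain ⟨y, N, q, hq⟩ := isClass_cl hC
  rw [rl_one] at h
  refine rel_active C a (fun i _ => ha i) q (fun i hi => (hq.2.2.1 i hi).1)
    ((wsum_ne_zero_iff hq).mp hw) fun t ht => ?_
  obtain ⟨θ, hθ⟩ := exists_theta hq t
  have h1 := h θ (by rw [genC_iff hq, hθ]; exact ht)
  rw [dot_wsum hq, hθ, gC_eq hq, hθ] at h1
  exact h1

end Pool.Agent.Lib.MP_386e47_ag_h1L
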