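import Pool.Agent.Lib.MP_386e47_ag_h1L.W3

/-! Row K3: the rank is at most the number of classes, and one less if there is a class with
nonzero sum. -/

set_option autoImplicit false

namespace Pool.Agent.Lib.MP_386e47_ag_h1L

open Finset

variable {ι κ : Type} [Fintype ι] [Fintype κ] [DecidableEq ι] {v : ι → κ → ℤ}

/-- the rational form -/
private def vq (v : ι → κ → ℤ) (i : ι) : κ → ℚ := fun k => (v i k : ℚ)

omit [Fintype ι] [Fintype κ] [DecidableEq ι] in
private lemma par_vq {i j : ι} (h : Par v i j) :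
    (∃ r : ℚ, vq v i = r • vq v j) ∧ ∃ r : ℚ, vq v j = r • vq v i := by
  obtain ⟨hi, hj, a, b, ha, hab⟩ := h
  have hb : b ≠ 0 := by
    rintro rfl
    rw [zero_smul] at hab
    rcases smul_eq_zero.1 hab with h | h
    · exact ha h
    · exact hj h
  have haq : (a : ℚ) ≠ 0 := by exact_mod_cast ha
  have hbq : (b : ℚ) ≠ 0 := by exact_mod_cast hb
  have hk : ∀ k, (a : ℚ) * (v j k : ℚ) = b * (v i k : ℚ) := by
    intro k
    have := congrFun hab k
    simp only [Pi.smul_apply, smul_eq_mul] at this
    exact_mod_cast this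
  refine ⟨⟨(a : ℚ) / b, ?_⟩, ⟨(b : ℚ) / a, ?_⟩⟩
  · funext k
    simp only [vq, Pi.smul_apply, smul_eq_mul]
    rw [div_mul_eq_mul_div, eq_div_iff hbq, mul_comm]
    exact (hk k).symm
  · funext k
    simp only [vq, Pi.smul_apply, smul_eq_mul]
    rw [div_mul_eq_mul_div, eq_div_iff haq, mul_comm]
    exact hk k

private lemma same_class {C : Finset ι} (hC : C ∈ classes v) {i j : ι} (hi : i ∈ C) (hj : j ∈ C) :
    ∃ r : ℚ, vq v i = r • vq v j := by
  obtain ⟨i0, _, rfl⟩ := mem_classes.1 hC
  obtain ⟨_, r, hr⟩ := par_vq (mem_cl.1 hi)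
  obtain ⟨⟨s, hs⟩, _⟩ := par_vq (mem_cl.1 hj)
  exact ⟨r * s, by rw [hr, hs, mul_smul]⟩

omit [DecidableEq ι] in
private lemma rk_le_of (P : Finset (Finset ι)) (g : Finset ι → κ → ℚ)
    (h : ∀ i, vq v i ∈ Submodule.span ℚ (g '' (P : Set (Finset ι)))) : rk v ≤ P.card := by
  have h1 : Submodule.span ℚ (Set.range fun i (k : κ) => (v i k : ℚ)) ≤
      Submodule.span ℚ (Set.range fun C : P => g C.1) := by
    refine Submodule.span_le.2 ?_
    rintro _ ⟨i, rfl⟩
    have h2 := h i
    have h3 : g '' (P : Set (Finset ι)) = Set.range fun C : P => g C.1 := by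
      ext x
      constructor
      · rintro ⟨C, hC, rfl⟩; exact ⟨⟨C, hC⟩, rfl⟩
      · rintro ⟨C, rfl⟩; exact ⟨C.1, C.2, rfl⟩
    rw [h3] at h2
    exact h2
  unfold rk
  refine (Submodule.finrank_mono h1).trans ?_
  have h4 := finrank_range_le_card (R := ℚ) (b := fun C : P => g C.1)
  rw [Set.finrank] at h4
  simpa using h4

open Classical in
/-- the form of a member of the class -/
private noncomputable def pick (v : ι → κ → ℤ) (C : Finset ι) : κ → ℚ :=
  if h : C.Nonempty then vq v h.choose else 0

private lemma mem_span_pick {C : Finset ι} (hC : C ∈ classes v) {i : ι} (hi : i ∈ C) :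
    ∃ r : ℚ, vq v i = r • pick v C := by
  have h : C.Nonempty := ⟨i, hi⟩
  unfold pick
  rw [dif_pos h]
  exact same_class hC hi h.choose_spec

private lemma vq_cases (i : ι) : vq v i = 0 ∨ ∃ C ∈ classes v, i ∈ C := by
  by_cases h : v i = 0
  · left
    funext k
    simp [vq, h]
  · right
    exact ⟨cl v i, mem_classes.2 ⟨i, h, rfl⟩, self_mem_cl h⟩

/-- the forms of a class are rational multiples of one form -/
theorem rk_le : rk v ≤ (classes v).card := by
  refine rk_le_of (classes v) (pick v) fun i => ?_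
  rcases vq_cases (v := v) i with h | ⟨C, hC, hi⟩
  · rw [h]; exact Submodule.zero_mem _
  · obtain ⟨r, hr⟩ := mem_span_pick hC hi
    rw [hr]
    exact Submodule.smul_mem _ _ (Submodule.subset_span ⟨C, hC, rfl⟩)

omit [Fintype ι] [Fintype κ] [DecidableEq ι] in
private lemma sum_vq_eq (C : Finset ι) : ∑ i ∈ C, vq v i = fun k => ((wsum v C k : ℤ) : ℚ) := by
  funext k
  simp only [vq, wsum, Finset.sum_apply]
  push_cast
  rfl

/-- the sum over the classes of `wsum` vanishes, so one form of nonzero sum is in the span of the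
other classes -/
theorem rk_lt (hsum : ∑ i, v i = 0) {C : Finset ι} (hC : C ∈ classes v) (hw : wsum v C ≠ 0) :
    rk v + 1 ≤ (classes v).card := by
  classical
  rw [← Finset.card_erase_add_one hC]
  refine Nat.add_le_add_right ?_ 1
  have hmem : ∀ C' ∈ (classes v).erase C, ∀ i ∈ C', vq v i ∈
      Submodule.span ℚ (pick v '' (((classes v).erase C : Finset (Finset ι)) : Set (Finset ι))) := by
    intro C' hC' i hi
    obtain ⟨r, hr⟩ := mem_span_pick (mem_of_mem_erase hC') hi
    rw [hr]
    exact Submodule.smul_mem _ _ (Submodule.subset_span ⟨C', hC', rfl⟩)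
  have htot : ∑ i, vq v i = 0 := by
    funext k
    simp only [vq, Finset.sum_apply, Pi.zero_apply]
    have := congrFun hsum k
    simp only [Finset.sum_apply, Pi.zero_apply] at this
    exact_mod_cast this
  have hzs : ∑ i ∈ zs v, vq v i = 0 := by
    refine Finset.sum_eq_zero fun i hi => ?_
    have : v i = 0 := by simpa [zs] using hi
    funext k
    simp [vq, this]
  have h1 := sum_classes v (vq v)
  rw [htot, hzs, zero_add, ← Finset.add_sum_erase _ _ hC] at h1
  -- the sum of the class is in the span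
  have hCs : ∑ i ∈ C, vq v i ∈
      Submodule.span ℚ (pick v '' (((classes v).erase C : Finset (Finset ι)) : Set (Finset ι))) := by
    have h2 : ∑ i ∈ C, vq v i = -∑ C' ∈ (classes v).erase C, ∑ i ∈ C', vq v i :=
      eq_neg_of_add_eq_zero_left h1.symm
    rw [h2]
    refine Submodule.neg_mem _ (Submodule.sum_mem _ fun C' hC' => Submodule.sum_mem _ fun i hi => ?_)
    exact hmem C' hC' i hi
  have hCne : ∑ i ∈ C, vq v i ≠ 0 := by
    rw [sum_vq_eq]
    intro h
    apply hw
    funext k
    have := congrFun h k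
    simpa using this
  -- the sum is a nonzero multiple of `pick v C`
  have hmul : ∃ r : ℚ, ∑ i ∈ C, vq v i = r • pick v C := by
    have : ∀ i ∈ C, ∃ r : ℚ, vq v i = r • pick v C := fun i hi => mem_span_pick hC hi
    choose! r hr using this
    exact ⟨∑ i ∈ C, r i, by rw [Finset.sum_smul]; exact Finset.sum_congr rfl hr⟩
  obtain ⟨r, hr⟩ := hmul
  have hr0 : r ≠ 0 := by
    rintro rfl
    rw [zero_smul] at hr
    exact hCne hr
  have hpick : pick v C ∈
      Submodule.span ℚ (pick v '' (((classes v).erase C : Finset (Finset ι)) : Set (Finset ι))) := by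
    have : pick v C = r⁻¹ • ∑ i ∈ C, vq v i := by rw [hr, smul_smul, inv_mul_cancel₀ hr0, one_smul]
    rw [this]
    exact Submodule.smul_mem _ _ hCs
  refine rk_le_of ((classes v).erase C) (pick v) fun i => ?_
  rcases vq_cases (v := v) i with h | ⟨C', hC', hi⟩
  · rw [h]; exact Submodule.zero_mem _
  · by_cases hCC : C' = C
    · obtain ⟨s, hs⟩ := mem_span_pick hC' hi
      rw [hs, hCC]
      exact Submodule.smul_mem _ _ hpick
    · exact hmem C' (mem_erase.2 ⟨hCC, hC'⟩) i hi

/-- counting entries: a class with vanishing sum has at least two entries -/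
lemma two_le_card {C : Finset ι} (hC : C ∈ classes v) (hw : wsum v C = 0) : 2 ≤ C.card := by
  by_contra h
  have h1 : C.card = 1 := by
    have := (classes_nonempty hC).card_pos
    omega
  obtain ⟨i, rfl⟩ := Finset.card_eq_one.1 h1
  have : v i = 0 := by simpa [wsum] using hw
  exact ne_zero_of_mem hC (mem_singleton_self i) this

end Pool.Agent.Lib.MP_386e47_ag_h1L
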