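import Pool.Agent.Lib.MP_386e47_ag_h1L.W8
import Pool.Agent.Lib.MP_386e47_ag_h1L.G1
import Pool.Agent.Lib.MP_386e47_ag_h1L.E8
import Pool.Agent.Lib.MP_386e47_ag_h1L.E7
import Pool.Agent.Lib.MP_386e47_ag_h1L.K3
import Pool.Agent.Lib.MP_386e47_ag_h1L.F0

/-! Three classes of nonzero degree. -/

set_option autoImplicit false

namespace Pool.Agent.Lib.MP_386e47_ag_h1L

open Finset
open Pool.Agent.LevelOne (saw dot)

variable {ι κ : Type} [Fintype ι] [Fintype κ] [DecidableEq ι]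

theorem case_T (l : ℕ) (hl : 2 ≤ l) (hcard : Fintype.card ι = 2 * l + 1) (a : ι → QZ)
    (ha : IsCharacter a) (v : ι → κ → ℤ) (hsum : ∑ i, v i = 0)
    (hst : ∀ u, Adm a u → TwoVal (rl a u) v) (hrk : l - 1 ≤ rk v)
    (hT : ∃ C ∈ classes v, wsum v C ≠ 0) : Known a := by
  classical
  have hz : ∀ u, Adm a u → ∀ i ∈ zs v, ∀ n : ℤ, rl a u i ≠ n := fun u hu i _ n =>
    rl_ne_int hu (ha.1 i) n
  obtain ⟨h3, -, hin, hact⟩ := triangle (rl a 1) (hz 1 (adm_one a)) (hst 1 (adm_one a)) hsum hT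
  have hk0 : ∀ u, Adm a u → ∑ i ∈ zs v, saw (rl a u i) = 0 := fun u hu =>
    (triangle (rl a u) (hz u hu) (hst u hu) hsum hT).2.1
  set P1 : Finset (Finset ι) := (classes v).filter fun C => wsum v C ≠ 0 with hP1
  set P0 : Finset (Finset ι) := (classes v).filter fun C => ¬ wsum v C ≠ 0 with hP0
  have hmem1 : ∀ C ∈ P1, C ∈ classes v ∧ wsum v C ≠ 0 := fun C hC => Finset.mem_filter.mp hC
  have hmem0 : ∀ C ∈ P0, C ∈ classes v ∧ wsum v C = 0 := fun C hC => by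
    have := Finset.mem_filter.mp hC
    exact ⟨this.1, not_not.mp this.2⟩
  have hsplit : ∀ {M : Type} [AddCommMonoid M] (g : Finset ι → M),
      ∑ C ∈ classes v, g C = ∑ C ∈ P1, g C + ∑ C ∈ P0, g C := by
    intro M _ g
    rw [hP1, hP0, Finset.sum_filter_add_sum_filter_not]
  -- counting
  obtain ⟨C0, hC0, hw0⟩ := hT
  have hcl : l ≤ (classes v).card := by
    have := rk_lt hsum hC0 hw0
    omega
  have hcc : (classes v).card = 3 + P0.card := by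
    have := hsplit fun _ => 1
    simpa [h3] using this
  have hent : 2 * l + 1 = (zs v).card + (∑ C ∈ P1, C.card + ∑ C ∈ P0, C.card) := by
    have h1 := sum_classes v fun _ => 1
    rw [hsplit] at h1
    simpa [hcard] using h1
  have hge1 : 3 ≤ ∑ C ∈ P1, C.card := by
    have h1 : ∑ C ∈ P1, 1 ≤ ∑ C ∈ P1, C.card := Finset.sum_le_sum fun C hC =>
      (classes_nonempty (hmem1 C hC).1).card_pos
    simpa [h3] using h1
  have hge0 : 2 * P0.card ≤ ∑ C ∈ P0, C.card := by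
    have h1 : ∑ C ∈ P0, 2 ≤ ∑ C ∈ P0, C.card := Finset.sum_le_sum fun C hC =>
      two_le_card (hmem0 C hC).1 (hmem0 C hC).2
    simpa [mul_comm] using h1
  have hz4 : (zs v).card ≤ 4 := by omega
  -- the relations
  set H : QZ →₀ ℤ := Finsupp.single half 1 with hH
  have r0 : ∑ i ∈ zs v, (Finsupp.single (a i) 1 : QZ →₀ ℤ) + ((zs v).card : ℤ) • H ∈ Rel :=
    rel_const (zs v) hz4 a ha.1 hk0
  have r1 : ∀ C ∈ P1, ∑ i ∈ C, (Finsupp.single (a i) 1 : QZ →₀ ℤ) - Finsupp.single (bC C a) 1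
      - ((C.card : ℤ) - 1) • H ∈ Rel := fun C hC =>
    (rel_class_active ha.1 (hmem1 C hC).1 (hmem1 C hC).2
      (hact C (hmem1 C hC).1 (hmem1 C hC).2)).2
  have r2 : ∀ C ∈ P0, ∑ i ∈ C, (Finsupp.single (a i) 1 : QZ →₀ ℤ) - (C.card : ℤ) • H ∈ Rel :=
    fun C hC => rel_class_inactive ha.1 (hmem0 C hC).1 (hin C (hmem0 C hC).1 (hmem0 C hC).2)
  have s1 := Rel.sum_mem r1
  have s2 := Rel.sum_mem r2
  let b : P1 → QZ := fun C => bC C.1 a
  have hfa : formal a = ∑ i ∈ zs v, (Finsupp.single (a i) 1 : QZ →₀ ℤ) +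
      (∑ C ∈ P1, ∑ i ∈ C, (Finsupp.single (a i) 1 : QZ →₀ ℤ) +
        ∑ C ∈ P0, ∑ i ∈ C, (Finsupp.single (a i) 1 : QZ →₀ ℤ)) := by
    unfold formal
    rw [sum_classes v, hsplit]
  have hfb : formal b = ∑ C ∈ P1, (Finsupp.single (bC C a) 1 : QZ →₀ ℤ) := by
    unfold formal
    rw [← Finset.sum_coe_sort P1 fun C => (Finsupp.single (bC C a) 1 : QZ →₀ ℤ)]
  have hrel : formal a - formal b ∈ Rel := by
    have e1 : ∑ C ∈ P1, (∑ i ∈ C, (Finsupp.single (a i) 1 : QZ →₀ ℤ) - Finsupp.single (bC C a) 1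
        - ((C.card : ℤ) - 1) • H) = ∑ C ∈ P1, ∑ i ∈ C, (Finsupp.single (a i) 1 : QZ →₀ ℤ) -
        formal b - ((∑ C ∈ P1, (C.card : ℤ)) - 3) • H := by
      rw [Finset.sum_sub_distrib, Finset.sum_sub_distrib, hfb, ← Finset.sum_smul,
        Finset.sum_sub_distrib]
      simp [h3]
    have e2 : ∑ C ∈ P0, (∑ i ∈ C, (Finsupp.single (a i) 1 : QZ →₀ ℤ) - (C.card : ℤ) • H) =
        ∑ C ∈ P0, ∑ i ∈ C, (Finsupp.single (a i) 1 : QZ →₀ ℤ) -
          (∑ C ∈ P0, (C.card : ℤ)) • H := by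
      rw [Finset.sum_sub_distrib, ← Finset.sum_smul]
    rw [e1] at s1
    rw [e2] at s2
    have hev : Even ((((∑ C ∈ P1, (C.card : ℤ)) - 3) + (∑ C ∈ P0, (C.card : ℤ)) -
        ((zs v).card : ℤ)) - 0) := by
      have h5 : (2 * l + 1 : ℤ) = (zs v).card + (∑ C ∈ P1, (C.card : ℤ) +
          ∑ C ∈ P0, (C.card : ℤ)) := by exact_mod_cast hent
      refine ⟨(l : ℤ) - 1 - (zs v).card, ?_⟩
      linarith
    have s3 := rel_parity hev
    rw [zero_smul, sub_zero] at s3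
    have s4 := Rel.add_mem (Rel.add_mem (Rel.add_mem s1 s2) r0) s3
    convert s4 using 1
    rw [hfa, ← hH]
    simp only [sub_smul, add_smul]
    abel
  refine known_of_three a b (by simpa using h3) ⟨fun C => ?_, ?_⟩ hrel
  · exact (rel_class_active ha.1 (hmem1 C.1 C.2).1 (hmem1 C.1 C.2).2
      (hact C.1 (hmem1 C.1 C.2).1 (hmem1 C.1 C.2).2)).1
  · rw [← sum_eq_of_rel a b hrel, ha.2]

end Pool.Agent.Lib.MP_386e47_ag_h1L
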