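import Pool.Agent.Lib.MP_386e47_ag_h1L.G2
import Pool.Agent.Lib.MP_386e47_ag_h1L.K3
import Pool.Agent.Lib.MP_386e47_ag_h1L.F0

/-! All classes are inactive. -/

set_option autoImplicit false

namespace Pool.Agent.Lib.MP_386e47_ag_h1L

open Finset
open Pool.Agent.LevelOne (saw dot)

variable {ι κ : Type} [Fintype ι] [Fintype κ] [DecidableEq ι]

theorem case_C (l : ℕ) (hl : 2 ≤ l) (hcard : Fintype.card ι = 2 * l + 1) (a : ι → QZ)
    (ha : IsCharacter a) (v : ι → κ → ℤ) (hrk : l - 1 ≤ rk v)
    (h0 : ∀ C ∈ classes v, wsum v C = 0)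
    (hin : ∀ C ∈ classes v, Inactive (rl a 1) v C) : Known a := by
  classical
  have hcl : l - 1 ≤ (classes v).card := hrk.trans rk_le
  have hent : 2 * l + 1 = (zs v).card + ∑ C ∈ classes v, C.card := by
    have h1 := sum_classes v fun _ => 1
    simpa [hcard] using h1
  have hge : 2 * (classes v).card ≤ ∑ C ∈ classes v, C.card := by
    have h1 : ∑ C ∈ classes v, 2 ≤ ∑ C ∈ classes v, C.card := Finset.sum_le_sum fun C hC =>
      two_le_card hC (h0 C hC)
    simpa [mul_comm] using h1
  set s : ℕ := ∑ C ∈ classes v, C.card with hs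
  have hrel : formal a - formal (coreT a (zs v) (s % 2)) ∈ Rel := by
    refine rel_core ha.1 (zs v) (s % 2) (classes v) (Finset.Subset.refl _) hin
      (fun f => sum_classes v f) ?_
    have h1 : (∑ C ∈ classes v, (C.card : ℤ)) = (s : ℤ) := by
      rw [hs]
      push_cast
      rfl
    rw [h1]
    refine ⟨(s / 2 : ℕ), ?_⟩
    have h2 := Nat.div_add_mod s 2
    omega
  have hch := isCharacter_core ha (zs v) (s % 2) hrel
  have h1 := card_ne_one _ hch
  rw [card_core] at h1
  refine known_of_three a _ ?_ hch hrel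
  rw [card_core]
  omega

end Pool.Agent.Lib.MP_386e47_ag_h1L
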