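import Pool.Agent.Lib.MP_386e47_ag_h1L.G3
import Pool.Agent.Lib.MP_386e47_ag_h1L.F2

/-! All classes but one are inactive. -/

set_option autoImplicit false

namespace Pool.Agent.Lib.MP_386e47_ag_h1L

open Finset
open Pool.Agent.LevelOne (saw dot)

variable {ι κ : Type} [Fintype ι] [Fintype κ] [DecidableEq ι]

theorem case_P (l : ℕ) (hl : 2 ≤ l) (hcard : Fintype.card ι = 2 * l + 1) (a : ι → QZ)
    (ha : IsCharacter a) (v : ι → κ → ℤ)
    (hst : ∀ u, Adm a u → TwoVal (rl a u) v) (hrk : l - 1 ≤ rk v)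
    (h0 : ∀ C ∈ classes v, wsum v C = 0) {C : Finset ι} (hC : C ∈ classes v)
    (hoth : ∀ C' ∈ classes v, C' ≠ C → Inactive (rl a 1) v C') : Known a := by
  classical
  have hdisj : Disjoint C (zs v) := by
    rw [Finset.disjoint_left]
    intro i hi hi'
    exact ne_zero_of_mem hC hi (Finset.mem_filter.mp hi').2
  set P : Finset (Finset ι) := (classes v).erase C with hP
  have hsumB : ∀ {M : Type} [AddCommMonoid M] (f : ι → M),
      ∑ i, f i = ∑ i ∈ C ∪ zs v, f i + ∑ C' ∈ P, ∑ i ∈ C', f i := by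
    intro M _ f
    rw [sum_classes v f, ← Finset.add_sum_erase (classes v) (fun C => ∑ i ∈ C, f i) hC,
      Finset.sum_union hdisj, ← add_assoc]
    congr 1
    exact add_comm _ _
  have hcl : l - 1 ≤ (classes v).card := hrk.trans rk_le
  have hPc : P.card = (classes v).card - 1 := Finset.card_erase_of_mem hC
  have hent : 2 * l + 1 = (C ∪ zs v).card + ∑ C ∈ P, C.card := by
    have h1 := hsumB fun _ => 1
    simpa [hcard] using h1
  have hge : 2 * P.card ≤ ∑ C ∈ P, C.card := by
    have h1 : ∑ C ∈ P, 2 ≤ ∑ C ∈ P, C.card := Finset.sum_le_sum fun C' hC' =>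
      two_le_card (Finset.mem_of_mem_erase hC') (h0 C' (Finset.mem_of_mem_erase hC'))
    simpa [mul_comm] using h1
  set s : ℕ := ∑ C ∈ P, C.card with hs
  have hrel : formal a - formal (coreT a (C ∪ zs v) (s % 2)) ∈ Rel := by
    refine rel_core ha.1 (C ∪ zs v) (s % 2) P (Finset.erase_subset _ _)
      (fun C' hC' => hoth C' (Finset.mem_of_mem_erase hC') (Finset.ne_of_mem_erase hC'))
      hsumB ?_
    have h1 : (∑ C ∈ P, (C.card : ℤ)) = (s : ℤ) := by
      rw [hs]
      push_cast
      rfl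
    rw [h1]
    refine ⟨(s / 2 : ℕ), ?_⟩
    have h2 := Nat.div_add_mod s 2
    omega
  have hch := isCharacter_core ha (C ∪ zs v) (s % 2) hrel
  have h1 := card_ne_one _ hch
  rw [card_core] at h1
  by_cases h3 : (C ∪ zs v).card + s % 2 = 3
  · exact known_of_three a _ (by rw [card_core]; exact h3) hch hrel
  have h5 : (C ∪ zs v).card + s % 2 = 5 := by omega
  obtain ⟨y, N, q, hq⟩ := isClass_cl hC
  have hq0 : ∑ i ∈ C, q i = 0 := by
    by_contra hne
    exact (wsum_ne_zero_iff hq).mpr hne (h0 C hC)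
  refine known_of_five a _ (by rw [card_core]; exact h5) hch hrel
    (Sum.elim (fun i => if i.1 ∈ C then q i.1 else 0) fun _ => 0) ?_ ?_ ?_
  · intro hc
    obtain ⟨i, hi⟩ := classes_nonempty hC
    have h6 := congrFun hc (Sum.inl ⟨i, Finset.mem_union_left _ hi⟩)
    simp only [Sum.elim_inl, hi, if_true, Pi.zero_apply] at h6
    exact (hq.2.2.1 i hi).1 h6
  · rw [Fintype.sum_sum_type]
    simp only [Sum.elim_inl, Sum.elim_inr, Finset.sum_const_zero, add_zero]
    rw [Finset.sum_coe_sort (C ∪ zs v) fun i => if i ∈ C then q i else 0, Finset.sum_union hdisj,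
      Finset.sum_congr rfl fun i hi => if_pos hi, hq0, zero_add]
    exact Finset.sum_eq_zero fun i hi => if_neg fun h => (Finset.disjoint_left.mp hdisj h) hi
  · intro u hu t ht
    obtain ⟨θ, hθ⟩ := exists_theta hq t
    have hgen : GenC C (rl a u) v θ := by
      rw [genC_iff hq, hθ]
      intro i hi n
      have h6 := ht (Sum.inl ⟨i, Finset.mem_union_left _ hi⟩) n
      simp only [Sum.elim_inl, hi, if_true] at h6
      exact h6
    have h6 := core_line a ha v hst h0 hC hoth (s % 2) u hu θ hgen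
    rw [gC_eq hq, hθ] at h6
    have hin : ∀ k : Fin (s % 2), saw (rl (coreT a (C ∪ zs v) (s % 2)) u (Sum.inr k) +
        ((0 : ℤ) : ℝ) * t) = 0 := by
      intro k
      have h7 := hu (Sum.inr k)
      have h8 : u.Coprime 2 := by
        rw [← order_half]
        exact h7
      have h9 : rl (coreT a (C ∪ zs v) (s % 2)) u (Sum.inr k) = (((1 / 2 : ℚ)) : ℝ) := by
        unfold rl coreT
        simp only [Sum.elim_inr]
        rw [rep_half_odd h8]
      rw [h9, Int.cast_zero, zero_mul, add_zero,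
        Pool.Agent.LevelOne.saw_of_mem (by norm_num) (by norm_num)]
      norm_num
    rw [Fintype.sum_sum_type]
    simp only [Sum.elim_inl, Sum.elim_inr]
    rw [Finset.sum_congr rfl fun k _ => hin k, Finset.sum_const_zero, add_zero]
    have h10 : ∑ i : (C ∪ zs v : Finset ι), saw (rl (coreT a (C ∪ zs v) (s % 2)) u (Sum.inl i) +
        ((if i.1 ∈ C then q i.1 else 0 : ℤ) : ℝ) * t) =
        ∑ i ∈ C ∪ zs v, saw (rl a u i + ((if i ∈ C then q i else 0 : ℤ) : ℝ) * t) :=
      Finset.sum_coe_sort (C ∪ zs v)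
        fun i => saw (rl a u i + ((if i ∈ C then q i else 0 : ℤ) : ℝ) * t)
    rw [h10, Finset.sum_union hdisj]
    have h11 : ∑ i ∈ C, saw (rl a u i + ((if i ∈ C then q i else 0 : ℤ) : ℝ) * t) =
        gs C (rl a u) q t := by
      unfold gs
      exact Finset.sum_congr rfl fun i hi => by rw [if_pos hi]
    have h12 : ∑ i ∈ zs v, saw (rl a u i + ((if i ∈ C then q i else 0 : ℤ) : ℝ) * t) =
        kap0 (rl a u) v := by
      unfold kap0
      refine Finset.sum_congr rfl fun i hi => ?_
      rw [if_neg fun h => (Finset.disjoint_left.mp hdisj h) hi]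
      simp
    rw [h11, h12, add_comm]
    exact h6

end Pool.Agent.Lib.MP_386e47_ag_h1L
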