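import Pool.Agent.Lib.MP_386e47_ag_h1L.R1

/-! Row K1: the number of torsion points on finitely many translates of a subtorus.

Proof: with `v i = (c i)_{c ∈ S}` choose `I ⊆ Fin N` such that the `v i` (over `ℚ`), `i ∈ I`, are
linearly independent and span, `card I = rk` (`exists_linearIndependent'` or the like). For every `j` there are
integers `d j ≠ 0` and `k j i` with `d j • v j = ∑ i ∈ I, k j i • v i`, so `χ = d j e_j - ∑ k j i e_i`
is orthogonal to `S`, and `(Q * d j) • a j = ∑ (Q * k j i) • a i`: given the `a i`, `i ∈ I`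
(at most `m ^ rk` choices, `m`-torsion of `QZ` has `m` elements), there are at most `Q * |d j|`
choices for `a j`. -/

set_option autoImplicit false

namespace Pool.Agent.Lib.MP_386e47_ag_h1L

open Finset

/-- the solutions of `n x = y` lie in a set of at most `n` elements -/
private lemma exists_div_finset (n : ℕ) (hn : 0 < n) (y : QZ) :
    ∃ T : Finset QZ, T.card ≤ n ∧ ∀ x : QZ, n • x = y → x ∈ T := by
  classical
  by_cases h : ∃ x0 : QZ, n • x0 = y
  · obtain ⟨x0, hx0⟩ := h
    refine ⟨(range n).image (fun k : ℕ => x0 + (((k : ℚ) / n : ℚ) : QZ)), ?_, ?_⟩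
    · exact le_trans card_image_le (by rw [card_range])
    · intro x hx
      have h0 : n • (x - x0) = 0 := by rw [smul_sub, hx, hx0, sub_self]
      have h1 : ((n * rep (x - x0) : ℚ) : QZ) = 0 := by
        have : ((n * rep (x - x0) : ℚ) : QZ) = n • ((rep (x - x0) : ℚ) : QZ) := by
          rw [← nsmul_eq_mul]; rfl
        rw [this, coe_rep, h0]
      obtain ⟨z, hz⟩ := coe_eq_zero.1 h1
      have hnq : (0 : ℚ) < n := by exact_mod_cast hn
      have h2 : (0 : ℚ) ≤ z := by rw [← hz]; exact mul_nonneg hnq.le (rep_nonneg _)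
      have h3 : (z : ℚ) < n := by
        rw [← hz]; nlinarith [rep_lt_one (x - x0)]
      have h2' : 0 ≤ z := by exact_mod_cast h2
      obtain ⟨k, rfl⟩ := Int.eq_ofNat_of_zero_le h2'
      have h3' : k < n := by
        have : ((k : ℕ) : ℚ) < n := by simpa using h3
        exact_mod_cast this
      refine mem_image.2 ⟨k, mem_range.2 h3', ?_⟩
      have h4 : rep (x - x0) = k / n := by
        rw [eq_div_iff hnq.ne', mul_comm]; simpa using hz
      have h5 : x - x0 = ((k / n : ℚ) : QZ) := by rw [← h4, coe_rep]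
      rw [← h5]; abel
  · exact ⟨∅, by simp, fun x hx => (h ⟨x, hx⟩).elim⟩

/-- the number of solutions of `n x = y` is at most `n` -/
lemma encard_div (n : ℕ) (hn : 0 < n) (y : QZ) : {x : QZ | n • x = y}.encard ≤ n := by
  obtain ⟨T, hT, h⟩ := exists_div_finset n hn y
  have : {x : QZ | n • x = y} ⊆ (T : Set QZ) := fun x hx => by simpa using h x hx
  refine (Set.encard_le_encard this).trans ?_
  rw [Set.encard_coe_eq_coe_finsetCard]
  exact_mod_cast hT

/-- rational dependence made integral -/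
private lemma exists_int_relation {κ' σ : Type} [Fintype κ'] (w : κ' → σ → ℤ) (x : σ → ℤ)
    (h : (fun c => (x c : ℚ)) ∈ Submodule.span ℚ (Set.range fun i (c : σ) => (w i c : ℚ))) :
    ∃ (d : ℕ) (k : κ' → ℤ), 0 < d ∧ ∀ c, (d : ℤ) * x c = ∑ i, k i * w i c := by
  classical
  obtain ⟨r, hr⟩ := (Submodule.mem_span_range_iff_exists_fun ℚ).1 h
  have hd0 : 0 < ∏ i, (r i).den := Finset.prod_pos fun i _ => (r i).den_pos
  refine ⟨∏ i, (r i).den, fun i => (r i).num * ∏ j ∈ univ.erase i, ((r j).den : ℤ), hd0, ?_⟩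
  intro c
  have hc : (x c : ℚ) = ∑ i, r i * w i c := by
    have := congrFun hr c
    simp only [Finset.sum_apply, Pi.smul_apply, smul_eq_mul] at this
    rw [← this]
  have key : (((∏ i, (r i).den : ℕ) : ℤ) * x c : ℚ) =
      ∑ i, (((r i).num * ∏ j ∈ univ.erase i, ((r j).den : ℤ) : ℤ) : ℚ) * (w i c : ℚ) := by
    rw [hc, Finset.mul_sum]
    refine Finset.sum_congr rfl fun i _ => ?_
    have h1 : ((∏ i, (r i).den : ℕ) : ℚ) * r i =
        ((r i).num : ℚ) * ∏ j ∈ univ.erase i, ((r j).den : ℚ) := by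
      rw [Nat.cast_prod, ← Finset.mul_prod_erase univ _ (mem_univ i)]
      have h2 : ((r i).den : ℚ) * r i = (r i).num := by
        have := Rat.mul_den_eq_num (r i)
        rw [mul_comm]; exact this
      calc ((r i).den : ℚ) * (∏ j ∈ univ.erase i, ((r j).den : ℚ)) * r i
          = (((r i).den : ℚ) * r i) * ∏ j ∈ univ.erase i, ((r j).den : ℚ) := by ring
        _ = _ := by rw [h2]
    push_cast at h1 ⊢
    rw [← mul_assoc, h1]
  exact_mod_cast key

theorem count (N : ℕ) (S : Finset (Fin N → ℤ)) (Q : ℕ) (hQ : 0 < Q) :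
    ∃ K : ℕ, ∀ m : ℕ, 1 ≤ m →
      {a : Fin N → QZ | (∀ i, m • a i = 0) ∧ ∀ χ : Fin N → ℤ, (∀ c ∈ S, ∑ i, χ i * c i = 0) →
        Q • ∑ i, χ i • a i = 0}.encard ≤ ((K * m ^ rk (fun i (c : S) => c.1 i) : ℕ) : ℕ∞) := by
  classical
  obtain ⟨κ', b, hb, hspan, hli⟩ := exists_linearIndependent' ℚ
    (fun (i : Fin N) (c : S) => ((c.1 i : ℤ) : ℚ))
  have : Finite κ' := Finite.of_injective b hb
  have : Fintype κ' := Fintype.ofFinite κ'
  have hrk : rk (fun i (c : S) => c.1 i) = Fintype.card κ' := by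
    unfold rk
    rw [← hspan]
    exact finrank_span_eq_card hli
  have hex : ∀ j : Fin N, ∃ (d : ℕ) (k : κ' → ℤ), 0 < d ∧
      ∀ c : S, (d : ℤ) * c.1 j = ∑ i, k i * c.1 (b i) := by
    intro j
    refine exists_int_relation (fun i (c : S) => c.1 (b i)) (fun c : S => c.1 j) ?_
    have : (fun c : S => ((c.1 j : ℤ) : ℚ)) ∈
        Submodule.span ℚ (Set.range fun (i : Fin N) (c : S) => ((c.1 i : ℤ) : ℚ)) :=
      Submodule.subset_span ⟨j, rfl⟩
    rw [← hspan] at this
    exact this
  choose d k hd hk using hex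
  refine ⟨∏ j, (Q * d j), fun m hm => ?_⟩
  have hQd : ∀ j, 0 < Q * d j := fun j => Nat.mul_pos hQ (hd j)
  choose T hTc hT using fun (n : ℕ) (hn : 0 < n) (y : QZ) => exists_div_finset n hn y
  set Z : Finset (Fin N → QZ) :=
    (Fintype.piFinset (fun _ : κ' => T m hm 0)).biUnion (fun y =>
      Fintype.piFinset (fun j => T (Q * d j) (hQd j) (∑ i, ((Q : ℤ) * k j i) • y i))) with hZ
  have hsub : {a : Fin N → QZ | (∀ i, m • a i = 0) ∧
      ∀ χ : Fin N → ℤ, (∀ c ∈ S, ∑ i, χ i * c i = 0) → Q • ∑ i, χ i • a i = 0} ⊆ (Z : Set _) := by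
    intro a ha
    obtain ⟨ha1, ha2⟩ := ha
    rw [hZ, Finset.mem_coe, mem_biUnion]
    refine ⟨fun i => a (b i), Fintype.mem_piFinset.2 fun i => hT m hm 0 _ (ha1 _), ?_⟩
    refine Fintype.mem_piFinset.2 fun j => hT _ (hQd j) _ _ ?_
    have h1 := ha2 (fun l => (if l = j then (d j : ℤ) else 0) -
      ∑ i, if l = b i then k j i else 0) ?_
    · have h2 : ∑ l, ((if l = j then (d j : ℤ) else 0) - ∑ i, if l = b i then k j i else 0) • a l
          = (d j : ℤ) • a j - ∑ i, k j i • a (b i) := by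
        simp only [sub_smul, Finset.sum_sub_distrib]
        congr 1
        · simp [ite_smul]
        · simp only [Finset.sum_smul]
          rw [Finset.sum_comm]
          refine Finset.sum_congr rfl fun i _ => ?_
          simp [ite_smul]
      rw [h2, smul_sub, sub_eq_zero] at h1
      have h3 : (Q * d j) • a j = Q • ((d j : ℤ) • a j) := by
        rw [natCast_zsmul, mul_smul]
      rw [h3, h1, Finset.smul_sum]
      refine Finset.sum_congr rfl fun i _ => ?_
      rw [mul_smul, natCast_zsmul]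
    · intro c hc
      have h2 : ∑ l, ((if l = j then (d j : ℤ) else 0) - ∑ i, if l = b i then k j i else 0) * c l
          = (d j : ℤ) * c j - ∑ i, k j i * c (b i) := by
        simp only [sub_mul, Finset.sum_sub_distrib]
        congr 1
        · simp [ite_mul]
        · simp only [Finset.sum_mul]
          rw [Finset.sum_comm]
          refine Finset.sum_congr rfl fun i _ => ?_
          simp [ite_mul]
      rw [h2, sub_eq_zero]
      exact hk j ⟨c, hc⟩
  refine (Set.encard_le_encard hsub).trans ?_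
  rw [Set.encard_coe_eq_coe_finsetCard]
  have hcard : Z.card ≤ (∏ j, (Q * d j)) * m ^ Fintype.card κ' := by
    rw [hZ]
    refine le_trans card_biUnion_le ?_
    have h1 : ∀ y ∈ Fintype.piFinset (fun _ : κ' => T m hm 0),
        (Fintype.piFinset (fun j => T (Q * d j) (hQd j) (∑ i, ((Q : ℤ) * k j i) • y i))).card
          ≤ ∏ j, (Q * d j) := by
      intro y _
      rw [Fintype.card_piFinset]
      exact Finset.prod_le_prod' fun j _ => hTc _ _ _
    refine le_trans (Finset.sum_le_card_nsmul _ _ _ h1) ?_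
    rw [smul_eq_mul, mul_comm]
    refine Nat.mul_le_mul_left _ ?_
    rw [Fintype.card_piFinset, Finset.prod_const, card_univ]
    exact Nat.pow_le_pow_left (hTc _ _ _) _
  rw [hrk]
  exact_mod_cast hcard

end Pool.Agent.Lib.MP_386e47_ag_h1L
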