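import Pool.Agent.Lib.MP_386e47_ag_h1L.E6
import Pool.Agent.Lib.MP_386e47_ag_h1.OddCount

/-! The lower bound for the number of characters of level one. -/

set_option autoImplicit false

namespace Pool.Agent.Lib.MP_386e47_ag_h1L

open Finset
open Pool.Agent.Lib.MP_386e47_ag_h1 (card_levelOne_ge)

private noncomputable def emb {m N : ℕ} (a : Fin N → ZMod m) : Fin N → QZ := fun i =>
  ((((a i).val : ℚ) / m : ℚ) : QZ)

private lemma rep_smul_emb {m N : ℕ} [NeZero m] (a : Fin N → ZMod m) (w : ℕ) (i : Fin N) :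
    rep (w • emb a i) = ((((w : ZMod m) * a i).val : ℚ)) / m := by
  have h1 : w • emb a i = (((w * (a i).val : ℕ) : ℚ) / m : ℚ) := by
    unfold emb
    rw [← AddCircle.coe_nsmul, nsmul_eq_mul]
    push_cast
    rw [mul_div_assoc]
  have h2 : ((w : ZMod m) * a i) = ((w * (a i).val : ℕ) : ZMod m) := by
    push_cast
    rw [ZMod.natCast_zmod_val]
  rw [h1, rep_coe, h2, ZMod.val_natCast]
  exact Int.fract_div_natCast_eq_div_natCast_mod

private lemma rep_emb {m N : ℕ} [NeZero m] (a : Fin N → ZMod m) (i : Fin N) :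
    rep (emb a i) = ((a i).val : ℚ) / m := by
  have h := rep_smul_emb a 1 i
  rwa [one_smul, Nat.cast_one, one_mul] at h

private lemma emb_inj {m N : ℕ} [NeZero m] : Function.Injective (emb (m := m) (N := N)) := by
  intro a b h
  funext i
  have hm : (m : ℚ) ≠ 0 := by exact_mod_cast NeZero.ne m
  have h1 := congrArg rep (congrFun h i)
  rw [rep_emb, rep_emb, div_left_inj' hm] at h1
  exact ZMod.val_injective m (by exact_mod_cast h1)

private lemma emb_torsion {m N : ℕ} [NeZero m] (a : Fin N → ZMod m) (i : Fin N) :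
    m • emb a i = 0 := by
  have hm : (m : ℚ) ≠ 0 := by exact_mod_cast NeZero.ne m
  unfold emb
  rw [← AddCircle.coe_nsmul, nsmul_eq_mul, mul_div_cancel₀ _ hm]
  exact coe_eq_zero.mpr ⟨((a i).val : ℤ), by simp⟩

private lemma levelOne_emb {m l : ℕ} [NeZero m] {a : Fin (2 * l + 1) → ZMod m}
    (ha : Pool.Agent.Lib.MP_386e47_ag_h1.LevelOne m l a) : LevelOne (emb a) := by
  have hm : (m : ℚ) ≠ 0 := by exact_mod_cast NeZero.ne m
  have key : ∀ t : (ZMod m)ˣ, ∑ i, ((((t : ZMod m) * a i).val : ℚ)) / m = l ∨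
      ∑ i, ((((t : ZMod m) * a i).val : ℚ)) / m = l + 1 := by
    intro t
    rw [← Finset.sum_div]
    rcases ha.2 t with h | h
    · left
      rw [div_eq_iff hm]
      exact_mod_cast h
    · right
      rw [div_eq_iff hm]
      exact_mod_cast h
  refine ⟨⟨fun i h => ?_, ?_⟩, fun u hu => ?_⟩
  · have h1 := rep_eq_zero.mpr h
    rw [rep_emb, div_eq_zero_iff] at h1
    rcases h1 with h1 | h1
    · exact ha.1 i ((ZMod.val_eq_zero _).mp (by exact_mod_cast h1))
    · exact hm h1
  · have h1 : ∑ i, emb a i = ((∑ i, ((a i).val : ℚ) / m : ℚ) : QZ) :=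
      (map_sum (QuotientAddGroup.mk' (AddSubgroup.zmultiples (1 : ℚ)))
          (fun i => ((a i).val : ℚ) / m) Finset.univ).symm
    have h2 := key 1
    simp only [Units.val_one, one_mul] at h2
    rw [h1, coe_eq_zero]
    rcases h2 with h2 | h2
    · exact ⟨l, by rw [h2]; simp⟩
    · exact ⟨l + 1, by rw [h2]; simp⟩
  · have hn : 0 < ∏ i, addOrderOf (emb a i) := Finset.prod_pos fun i _ => order_pos _
    obtain ⟨w, hw, hwm, -⟩ := exists_lift hn (NeZero.pos m) (Nat.Coprime.prod_right fun i _ => hu i)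
    have h1 : total (emb a) u = ∑ i, ((((w : ZMod m) * a i).val : ℚ)) / m := by
      unfold total
      refine Finset.sum_congr rfl fun i _ => ?_
      rw [← rep_smul_emb, smul_eq_of_modEq (addOrderOf_dvd_iff_nsmul_eq_zero.mp
        (Finset.dvd_prod_of_mem (fun i => addOrderOf (emb a i)) (Finset.mem_univ i))) hw]
    have h2 := key (ZMod.unitOfCoprime w hwm)
    rw [ZMod.coe_unitOfCoprime, ← h1] at h2
    rw [Fintype.card_fin]
    push_cast
    rcases h2 with h2 | h2
    · left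
      rw [h2]
      ring
    · right
      rw [h2]
      ring

theorem lower (l : ℕ) (hl : 1 ≤ l) (m : ℕ) (hm : 1 ≤ m) :
    (((m - 1) ^ l * (m - 2) : ℕ) : ℕ∞) ≤
      {a : Fin (2 * l + 1) → QZ | (∀ i, m • a i = 0) ∧ LevelOne a}.encard := by
  classical
  have : NeZero m := ⟨by omega⟩
  obtain ⟨n, rfl⟩ : ∃ n, l = n + 1 := ⟨l - 1, by omega⟩
  refine le_trans ?_ (Set.encard_le_encard (s := emb '' ((univ.filter fun
    a : Fin (2 * (n + 1) + 1) → ZMod m => Pool.Agent.Lib.MP_386e47_ag_h1.LevelOne m (n + 1) a :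
    Finset (Fin (2 * (n + 1) + 1) → ZMod m)) : Set (Fin (2 * (n + 1) + 1) → ZMod m))) ?_)
  · rw [emb_inj.encard_image, Set.encard_coe_eq_coe_finsetCard]
    exact_mod_cast card_levelOne_ge n
  · rintro _ ⟨a, ha, rfl⟩
    rw [Finset.mem_coe, Finset.mem_filter] at ha
    exact ⟨fun i => emb_torsion a i, levelOne_emb ha.2⟩

end Pool.Agent.Lib.MP_386e47_ag_h1L
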