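import Pool.Agent.Lib.MP_386e47_ag_h1L.W9
import Pool.Agent.Lib.MP_386e47_ag_h1L.F1
import Pool.Agent.Lib.MP_386e47_ag_h1L.F3
import Pool.Agent.Lib.MP_386e47_ag_h1L.S2
import Pool.Agent.Lib.MP_386e47_ag_h1L.K1
import Pool.Agent.Lib.MP_386e47_ag_h1L.K2

/-! Row F4: the theorem. -/

set_option autoImplicit false

namespace Pool.Agent.Lib.MP_386e47_ag_h1L

open Finset

theorem known_of_rank {ι κ : Type} [Fintype ι] [Fintype κ] [DecidableEq ι] (l : ℕ) (hl : 2 ≤ l)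
    (hcard : Fintype.card ι = 2 * l + 1) (a : ι → QZ) (ha : LevelOne a) (v : ι → κ → ℤ)
    (hsum : ∑ i, v i = 0) (hst : ∀ u, Adm a u → TwoVal (rl a u) v) (hrk : l - 1 ≤ rk v) :
    Known a := by
  by_cases hT : ∃ C ∈ classes v, wsum v C ≠ 0
  · exact case_T l hl hcard a ha.1 v hsum hst hrk hT
  · push Not at hT
    have hz : ∀ i ∈ zs v, ∀ n : ℤ, rl a 1 i ≠ n := fun i _ n =>
      rl_ne_int (adm_one a) (ha.1.1 i) n
    rcases no_triangle (rl a 1) hz (hst 1 (adm_one a)) hsum hT with h | ⟨C, hC, -, h⟩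
    · exact case_C l hl hcard a ha.1 v hrk hT h
    · exact case_P l hl hcard a ha.1 v hst hrk hT hC h

theorem main (l : ℕ) (hl : 2 ≤ l) : ∃ C : ℕ, ∀ m : ℕ, 1 ≤ m →
    {a : Fin (2 * l + 1) → QZ | (∀ i, m • a i = 0) ∧ LevelOne a ∧ ¬ Known a}.encard ≤
      ((C * m ^ (l - 2) : ℕ) : ℕ∞) := by
  classical
  obtain ⟨F, Q, hQ, hF⟩ := structureQ (2 * l + 1)
  choose K hK using fun S : Finset (Fin (2 * l + 1) → ℤ) => count (2 * l + 1) S Q hQ
  refine ⟨∑ S ∈ F, K S, fun m hm => ?_⟩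
  set X : Finset (Fin (2 * l + 1) → ℤ) → Set (Fin (2 * l + 1) → QZ) := fun S =>
    {a : Fin (2 * l + 1) → QZ | (∀ i, m • a i = 0) ∧ ∀ χ : Fin (2 * l + 1) → ℤ,
      (∀ c ∈ S, ∑ i, χ i * c i = 0) → Q • ∑ i, χ i • a i = 0} with hX
  have hsub : {a : Fin (2 * l + 1) → QZ | (∀ i, m • a i = 0) ∧ LevelOne a ∧ ¬ Known a} ⊆
      ⋃ S ∈ F.filter (fun S : Finset (Fin (2 * l + 1) → ℤ) => rk (fun i (c : S) => c.1 i) ≤ l - 2),
        X S := by
    rintro a ⟨h1, h2, h3⟩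
    obtain ⟨S, hS, h4, h5, h6⟩ := hF a h2
    rw [Set.mem_iUnion₂]
    refine ⟨S, ?_, h1, h5⟩
    rw [Finset.mem_filter]
    refine ⟨hS, ?_⟩
    by_contra h7
    refine h3 (known_of_rank l hl (by simp) a h2 (fun i (c : S) => c.1 i) ?_ h6 (by omega))
    funext c
    have := h4 c.1 c.2
    simpa using this
  refine (Set.encard_le_encard hsub).trans ?_
  have hbi : ∀ G : Finset (Finset (Fin (2 * l + 1) → ℤ)),
      (⋃ S ∈ G, X S).encard ≤ ∑ S ∈ G, (X S).encard := by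
    intro G
    induction G using Finset.induction_on with
    | empty => simp
    | insert S G hS ih =>
      rw [Finset.set_biUnion_insert, Finset.sum_insert hS]
      exact (Set.encard_union_le _ _).trans (by gcongr)
  refine (hbi _).trans ?_
  refine (Finset.sum_le_sum (g := fun S => ((K S * m ^ (l - 2) : ℕ) : ℕ∞)) ?_).trans ?_
  · intro S hS
    rw [Finset.mem_filter] at hS
    refine (hK S m hm).trans ?_
    norm_cast
    exact Nat.mul_le_mul_left _ (Nat.pow_le_pow_right hm hS.2)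
  · rw [← Nat.cast_sum]
    norm_cast
    rw [Finset.sum_mul]
    exact Finset.sum_le_sum_of_subset (Finset.filter_subset _ _)

end Pool.Agent.Lib.MP_386e47_ag_h1L
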