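import Pool.Agent.Lib.MP_386e47_ag_h1L.G1
import Pool.Agent.Lib.MP_386e47_ag_h1L.E8

/-! The core: the entries `a i`, `i ∈ B`, and `e` entries `1/2`. -/

set_option autoImplicit false

namespace Pool.Agent.Lib.MP_386e47_ag_h1L

open Finset
open Pool.Agent.LevelOne (saw dot)

variable {ι κ : Type} [Fintype ι] [Fintype κ] [DecidableEq ι]

/-- the core -/
noncomputable def coreT (a : ι → QZ) (B : Finset ι) (e : ℕ) : B ⊕ Fin e → QZ :=
  Sum.elim (fun i => a i.1) fun _ => half

omit [Fintype ι] [DecidableEq ι] in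
lemma card_core (B : Finset ι) (e : ℕ) : Fintype.card (B ⊕ Fin e) = B.card + e := by
  simp

omit [Fintype ι] [DecidableEq ι] in
lemma formal_core (a : ι → QZ) (B : Finset ι) (e : ℕ) :
    formal (coreT a B e) = ∑ i ∈ B, (Finsupp.single (a i) 1 : QZ →₀ ℤ) +
      (e : ℤ) • Finsupp.single half 1 := by
  unfold formal coreT
  rw [Fintype.sum_sum_type]
  simp only [Sum.elim_inl, Sum.elim_inr, Finset.sum_const, Finset.card_univ, Fintype.card_fin]
  rw [← Finset.sum_coe_sort B fun i => (Finsupp.single (a i) 1 : QZ →₀ ℤ), natCast_zsmul]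

/-- if all classes but those inside `B` are inactive and `e` has the parity of the number of the
entries outside `B`, then `a` is equivalent to the core -/
theorem rel_core {v : ι → κ → ℤ} {a : ι → QZ} (ha : ∀ i, a i ≠ 0) (B : Finset ι) (e : ℕ)
    (P : Finset (Finset ι)) (hP : P ⊆ classes v) (hPin : ∀ C ∈ P, Inactive (rl a 1) v C)
    (hB : ∀ {M : Type} [AddCommMonoid M] (f : ι → M), ∑ i, f i = ∑ i ∈ B, f i + ∑ C ∈ P, ∑ i ∈ C, f i)
    (he : Even ((∑ C ∈ P, (C.card : ℤ)) - e)) :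
    formal a - formal (coreT a B e) ∈ Rel := by
  have r2 : ∀ C ∈ P, ∑ i ∈ C, (Finsupp.single (a i) 1 : QZ →₀ ℤ) -
      (C.card : ℤ) • (Finsupp.single half 1 : QZ →₀ ℤ) ∈ Rel :=
    fun C hC => rel_class_inactive ha (hP hC) (hPin C hC)
  have s2 := Rel.sum_mem r2
  have s3 := rel_parity he
  have s4 := Rel.add_mem s2 s3
  convert s4 using 1
  have hfa : formal a = ∑ i ∈ B, (Finsupp.single (a i) 1 : QZ →₀ ℤ) +
      ∑ C ∈ P, ∑ i ∈ C, (Finsupp.single (a i) 1 : QZ →₀ ℤ) := by
    unfold formal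
    exact hB _
  rw [hfa, formal_core, Finset.sum_sub_distrib, ← Finset.sum_smul]
  abel

omit [DecidableEq ι] in
/-- the core is a character -/
theorem isCharacter_core {a : ι → QZ} (ha : IsCharacter a) (B : Finset ι) (e : ℕ)
    (h : formal a - formal (coreT a B e) ∈ Rel) : IsCharacter (coreT a B e) := by
  refine ⟨fun i => ?_, ?_⟩
  · rcases i with i | i
    · exact ha.1 i.1
    · exact half_ne_zero
  · rw [← sum_eq_of_rel a _ h, ha.2]

end Pool.Agent.Lib.MP_386e47_ag_h1L
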