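import Pool.Agent.Lib.MP_386e47_ag_h1L.W9
import Pool.Agent.Lib.MP_386e47_ag_h1L.G2
import Pool.Agent.Lib.MP_386e47_ag_h1L.E6

/-! The line through the conjugates of the core. -/

set_option autoImplicit false

namespace Pool.Agent.Lib.MP_386e47_ag_h1L

open Finset
open Pool.Agent.LevelOne (saw dot)

variable {ι κ : Type} [Fintype ι] [Fintype κ] [DecidableEq ι]

/-- the evaluation homomorphism -/
private noncomputable def evalL (w : ℕ) : (QZ →₀ ℤ) →+ ℝ :=
  Finsupp.liftAddHom fun x =>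
    (AddMonoidHom.mulRight (saw (rep (w • x) : ℝ))).comp (Int.castAddHom ℝ)

private lemma evalL_apply (w : ℕ) (h : QZ →₀ ℤ) :
    evalL w h = h.sum (fun x n => (n : ℝ) * saw (rep (w • x) : ℝ)) := by
  unfold evalL
  rw [Finsupp.liftAddHom_apply]
  rfl

private lemma evalL_single (w : ℕ) (x : QZ) : evalL w (Finsupp.single x 1) = saw (rep (w • x) : ℝ) := by
  unfold evalL
  rw [Finsupp.liftAddHom_apply_single]
  simp

private lemma saw_half : saw (((1 / 2 : ℚ) : ℝ)) = 0 := by
  rw [Pool.Agent.LevelOne.saw_of_mem (by norm_num) (by norm_num)]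
  norm_num

private lemma dot_zero_right (w : κ → ℤ) : dot w (0 : κ → ℝ) = 0 := by
  unfold dot
  simp

omit [Fintype ι] [DecidableEq ι] in
/-- the sum over an inactive class for a conjugate prime to the constant of the relation -/
private lemma class_eval {C : Finset ι} {a : ι → QZ} {w : ℕ} (hw : w.Coprime 2)
    (h : evalL w (∑ i ∈ C, (Finsupp.single (a i) 1 : QZ →₀ ℤ) -
      (C.card : ℤ) • Finsupp.single half 1) = 0) :
    ∑ i ∈ C, saw (rl a w i) = 0 := by
  rw [map_sub, map_sum, map_zsmul, evalL_single, rep_half_odd hw, saw_half, smul_zero,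
    sub_zero] at h
  rw [← h]
  refine Finset.sum_congr rfl fun i _ => ?_
  rw [evalL_single]
  rfl

/-- the line through the conjugates of the core is stable -/
theorem core_line (a : ι → QZ) (ha : IsCharacter a) (v : ι → κ → ℤ)
    (hst : ∀ u, Adm a u → TwoVal (rl a u) v) (h0 : ∀ C ∈ classes v, wsum v C = 0)
    {C : Finset ι} (hC : C ∈ classes v)
    (hoth : ∀ C' ∈ classes v, C' ≠ C → Inactive (rl a 1) v C')
    (e : ℕ) (u : ℕ) (hu : Adm (coreT a (C ∪ zs v) e) u) :
    ∀ θ : κ → ℝ, GenC C (rl a u) v θ → |kap0 (rl a u) v + gC C (rl a u) v θ| = 1 / 2 := by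
  classical
  set n : ℕ := ∏ i ∈ C ∪ zs v, addOrderOf (a i) with hn
  have hn0 : 0 < n := Finset.prod_pos fun i _ => order_pos (a i)
  have hun : u.Coprime n := Nat.Coprime.prod_right fun i hi => hu (Sum.inl ⟨i, hi⟩)
  have hK : ∀ C' : Finset ι, ∃ K : ℕ, 0 < K ∧ (C' ∈ classes v → C' ≠ C → ∀ w : ℕ, w.Coprime K →
      evalL w (∑ i ∈ C', (Finsupp.single (a i) 1 : QZ →₀ ℤ) -
      (C'.card : ℤ) • Finsupp.single half 1) = 0) := by
    intro C'
    by_cases hc : C' ∈ classes v ∧ C' ≠ C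
    · obtain ⟨K, hK0, hK⟩ := rel_eval (rel_class_inactive ha.1 hc.1 (hoth C' hc.1 hc.2))
      exact ⟨K, hK0, fun _ _ w hw => by rw [evalL_apply]; exact hK w hw⟩
    · exact ⟨1, one_pos, fun h1 h2 => absurd ⟨h1, h2⟩ hc⟩
  choose K hK0 hK1 using hK
  set T : ℕ := 2 * ((∏ C' ∈ classes v, K C') * ∏ i, addOrderOf (a i)) with hT
  have hT0 : 0 < T := Nat.mul_pos two_pos (Nat.mul_pos
    (Finset.prod_pos fun C' _ => hK0 C') (Finset.prod_pos fun i _ => order_pos (a i)))
  obtain ⟨w, hwu, hwT, -⟩ := exists_lift hn0 hT0 hun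
  have hw2 : w.Coprime 2 := Nat.Coprime.coprime_dvd_right (Dvd.intro _ rfl) hwT
  have hwr : w.Coprime ((∏ C' ∈ classes v, K C') * ∏ i, addOrderOf (a i)) :=
    Nat.Coprime.coprime_dvd_right (Dvd.intro_left _ rfl) hwT
  have hwa : Adm a w := fun i => Nat.Coprime.coprime_dvd_right
    ((Finset.dvd_prod_of_mem (fun i => addOrderOf (a i)) (Finset.mem_univ i)).trans
      (Dvd.intro_left _ rfl)) hwr
  have hwK : ∀ C' ∈ classes v, w.Coprime (K C') := fun C' hC' =>
    Nat.Coprime.coprime_dvd_right ((Finset.dvd_prod_of_mem K hC').trans (Dvd.intro _ rfl)) hwr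
  have heq : ∀ i ∈ C ∪ zs v, rl a w i = rl a u i := by
    intro i hi
    unfold rl
    rw [smul_eq_of_modEq (n := n) (addOrderOf_dvd_iff_nsmul_eq_zero.mp
      (Finset.dvd_prod_of_mem (fun i => addOrderOf (a i)) hi)) hwu]
  have hkap : kap0 (rl a w) v = kap0 (rl a u) v := by
    unfold kap0
    exact Finset.sum_congr rfl fun i hi => by rw [heq i (Finset.mem_union_right _ hi)]
  have hgen : ∀ θ : κ → ℝ, GenC C (rl a u) v θ → GenC C (rl a w) v θ := fun θ hθ i hi k => by
    rw [heq i (Finset.mem_union_left _ hi)]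
    exact hθ i hi k
  have hgC : ∀ θ : κ → ℝ, gC C (rl a w) v θ = gC C (rl a u) v θ := fun θ => by
    unfold gC
    exact Finset.sum_congr rfl fun i hi => by rw [heq i (Finset.mem_union_left _ hi)]
  have hz : ∀ i ∈ zs v, ∀ k : ℤ, rl a w i ≠ k := fun i _ k => rl_ne_int hwa (ha.1 i) k
  intro θ hθ
  rw [← hkap, ← hgC]
  rcases dichotomy (rl a w) hz (hst w hwa) hC (h0 C hC) with h | h
  · have hgen0 : ∀ B : Finset ι, GenC B (rl a w) v 0 := fun B i _ k => by
      rw [dot_zero_right, add_zero]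
      exact rl_ne_int hwa (ha.1 i) k
    have h1 := hst w hwa 0 (hgen0 _)
    have h2 : gC univ (rl a w) v 0 = kap0 (rl a w) v := by
      have h3 := sum_classes v fun i => saw (rl a w i + dot (v i) (0 : κ → ℝ))
      unfold gC kap0
      rw [h3]
      simp only [dot_zero_right, add_zero]
      rw [add_eq_left]
      refine Finset.sum_eq_zero fun C' hC' => ?_
      by_cases hcc : C' = C
      · rw [hcc]
        have h4 := h 0 (hgen0 _)
        unfold gC at h4
        simpa only [dot_zero_right, add_zero] using h4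
      · exact class_eval hw2 (hK1 C' hC' hcc w (hwK C' hC'))
    rw [h2] at h1
    rw [h θ (hgen θ hθ), add_zero]
    exact h1
  · exact h θ (hgen θ hθ)

end Pool.Agent.Lib.MP_386e47_ag_h1L
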