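import Pool.Agent.Lib.MP_386e47_ag_h1L.Defs
import Pool.Agent.Lib.MP_386e47_h75.Energy

/-!
Internal definitions.
-/

set_option autoImplicit false

namespace Pool.Agent.Lib.MP_386e47_ag_h1L

open Finset
open Pool.Agent.LevelOne (saw dot)

/-- the element `1/2` -/
noncomputable def half : QZ := ((1 / 2 : ℚ) : QZ)

/-- the real representatives of the conjugate `u • a` -/
noncomputable def rl {ι : Type} (a : ι → QZ) (u : ℕ) : ι → ℝ := fun i => (rep (u • a i) : ℝ)

section

variable {ι κ : Type} [Fintype ι] [Fintype κ] [DecidableEq ι]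

/-- no entry `α i + q i * t`, `i ∈ C`, is an integer -/
def Gen (C : Finset ι) (α : ι → ℝ) (q : ι → ℤ) (t : ℝ) : Prop :=
  ∀ i ∈ C, ∀ n : ℤ, α i + q i * t ≠ n

/-- the sum of the sawtooth functions along a line -/
noncomputable def gs (C : Finset ι) (α : ι → ℝ) (q : ι → ℤ) (t : ℝ) : ℝ :=
  ∑ i ∈ C, saw (α i + q i * t)

/-- no entry `α i + v i · θ`, `i ∈ C`, is an integer -/
def GenC (C : Finset ι) (α : ι → ℝ) (v : ι → κ → ℤ) (θ : κ → ℝ) : Prop :=
  ∀ i ∈ C, ∀ n : ℤ, α i + dot (v i) θ ≠ n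

/-- the sum of the sawtooth functions over `C` -/
noncomputable def gC (C : Finset ι) (α : ι → ℝ) (v : ι → κ → ℤ) (θ : κ → ℝ) : ℝ :=
  ∑ i ∈ C, saw (α i + dot (v i) θ)

/-- the sum over all entries has absolute value one half at the generic points -/
def TwoVal (α : ι → ℝ) (v : ι → κ → ℤ) : Prop :=
  ∀ θ : κ → ℝ, GenC univ α v θ → |gC univ α v θ| = 1 / 2

/-- the constant entries -/
def zs (v : ι → κ → ℤ) : Finset ι := univ.filter fun i => v i = 0

/-- the constant part -/
noncomputable def kap0 (α : ι → ℝ) (v : ι → κ → ℤ) : ℝ := ∑ i ∈ zs v, saw (α i)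

/-- the linear forms of `i` and `j` are nonzero and parallel -/
def Par (v : ι → κ → ℤ) (i j : ι) : Prop :=
  v i ≠ 0 ∧ v j ≠ 0 ∧ ∃ a b : ℤ, a ≠ 0 ∧ a • v j = b • v i

open Classical in
/-- the class of `i` -/
noncomputable def cl (v : ι → κ → ℤ) (i : ι) : Finset ι := univ.filter fun j => Par v i j

open Classical in
/-- the set of the classes -/
noncomputable def classes (v : ι → κ → ℤ) : Finset (Finset ι) :=
  (univ.filter fun i => v i ≠ 0).image (cl v)

/-- the sum of the linear forms of a class -/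
def wsum (v : ι → κ → ℤ) (C : Finset ι) : κ → ℤ := ∑ i ∈ C, v i

/-- the sum over `C` vanishes at the generic points -/
def Inactive (α : ι → ℝ) (v : ι → κ → ℤ) (C : Finset ι) : Prop :=
  ∀ θ : κ → ℝ, GenC C α v θ → gC C α v θ = 0

/-- `C` is the class of the multiples of the linear form `y`, with `N • v i = q i • y` -/
def IsClass (v : ι → κ → ℤ) (C : Finset ι) (y : κ → ℤ) (N : ℤ) (q : ι → ℤ) : Prop :=
  y ≠ 0 ∧ N ≠ 0 ∧ (∀ i ∈ C, q i ≠ 0 ∧ N • v i = q i • y) ∧
    ∀ i, v i ≠ 0 → i ∉ C → ∀ a b : ℤ, a ≠ 0 → a • v i ≠ b • y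

/-- the additive constant of the sawtooth function of an active class -/
noncomputable def betaC (C : Finset ι) (α : ι → ℝ) : ℝ := ∑ i ∈ C, α i - ((C.card : ℝ) - 1) / 2

end

/-- the rank of the linear forms -/
noncomputable def rk {ι κ : Type} [Fintype ι] [Fintype κ] (v : ι → κ → ℤ) : ℕ :=
  Module.finrank ℚ (Submodule.span ℚ (Set.range fun i (k : κ) => (v i k : ℚ)))

end Pool.Agent.Lib.MP_386e47_ag_h1L
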