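import Pool.Agent.Lib.MP_386e47_ag_h1L.IDefs

/-! Row R1: the representative of an element of `ℚ/ℤ`. -/

set_option autoImplicit false

namespace Pool.Agent.Lib.MP_386e47_ag_h1L

open Finset

lemma rep_coe (q : ℚ) : rep (q : QZ) = Int.fract q := by
  unfold rep
  rw [AddCircle.coe_equivIco_mk_apply]
  simp

lemma coe_eq_zero {q : ℚ} : (q : QZ) = 0 ↔ ∃ n : ℤ, q = n := by
  rw [AddCircle.coe_eq_zero_iff]
  constructor
  · rintro ⟨n, hn⟩
    exact ⟨n, by rw [← hn]; simp⟩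
  · rintro ⟨n, hn⟩
    exact ⟨n, by rw [hn]; simp⟩

private lemma coe_fract (q : ℚ) : ((Int.fract q : ℚ) : QZ) = (q : QZ) := by
  have h1 : ((⌊q⌋ : ℚ) : QZ) = 0 := coe_eq_zero.mpr ⟨⌊q⌋, rfl⟩
  have h2 : (q : QZ) = ((Int.fract q : ℚ) : QZ) + ((⌊q⌋ : ℚ) : QZ) := by
    rw [← AddCircle.coe_add, Int.fract_add_floor]
  rw [h2, h1, add_zero]

lemma coe_rep (x : QZ) : ((rep x : ℚ) : QZ) = x := by
  obtain ⟨q, rfl⟩ := QuotientAddGroup.mk_surjective x
  rw [rep_coe, coe_fract]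

lemma rep_nonneg (x : QZ) : 0 ≤ rep x := by
  obtain ⟨q, rfl⟩ := QuotientAddGroup.mk_surjective x
  rw [rep_coe]
  exact Int.fract_nonneg q

lemma rep_lt_one (x : QZ) : rep x < 1 := by
  obtain ⟨q, rfl⟩ := QuotientAddGroup.mk_surjective x
  rw [rep_coe]
  exact Int.fract_lt_one q

lemma rep_eq_zero {x : QZ} : rep x = 0 ↔ x = 0 := by
  constructor
  · intro h
    rw [← coe_rep x, h]
    rfl
  · rintro rfl
    have h1 : (0 : QZ) = ((0 : ℚ) : QZ) := rfl
    rw [h1, rep_coe, Int.fract_zero]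

private lemma int_eq_zero {r : ℚ} (h0 : 0 ≤ r) (h1 : r < 1) {n : ℤ} (h : r = n) : r = 0 := by
  have h2 : (0 : ℤ) ≤ n := by
    rw [h] at h0
    exact_mod_cast h0
  have h3 : n < 1 := by
    rw [h] at h1
    exact_mod_cast h1
  have h4 : n = 0 := by omega
  rw [h, h4, Int.cast_zero]

lemma rep_ne_int {x : QZ} (hx : x ≠ 0) (n : ℤ) : (rep x : ℝ) ≠ n := by
  intro h
  have h1 : rep x = (n : ℚ) := by exact_mod_cast h
  exact hx (rep_eq_zero.mp (int_eq_zero (rep_nonneg x) (rep_lt_one x) h1))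

lemma order_pos (x : QZ) : 0 < addOrderOf x := by
  rw [addOrderOf_pos_iff, isOfFinAddOrder_iff_nsmul_eq_zero]
  refine ⟨(rep x).den, (rep x).den_pos, ?_⟩
  have h1 : (rep x).den • x = (((rep x).den • rep x : ℚ) : QZ) := by
    rw [AddCircle.coe_nsmul, coe_rep]
  rw [h1, coe_eq_zero]
  refine ⟨(rep x).num, ?_⟩
  rw [nsmul_eq_mul, mul_comm]
  exact Rat.mul_den_eq_num (rep x)

lemma smul_ne {x : QZ} (hx : x ≠ 0) {u : ℕ} (hu : u.Coprime (addOrderOf x)) : u • x ≠ 0 := by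
  intro h
  have h1 : addOrderOf x ∣ u := addOrderOf_dvd_of_nsmul_eq_zero h
  have h2 : addOrderOf x ∣ 1 := by
    have h3 := Nat.dvd_gcd h1 (dvd_refl (addOrderOf x))
    rwa [hu] at h3
  exact hx (AddMonoid.addOrderOf_eq_one_iff.mp (Nat.dvd_one.mp h2))

lemma half_ne_zero : half ≠ 0 := by
  intro h
  obtain ⟨n, hn⟩ := coe_eq_zero.mp h
  have h1 : (2 : ℚ) * n = 1 := by
    rw [← hn]
    norm_num
  have h2 : 2 * n = 1 := by exact_mod_cast h1
  omega

lemma two_half : half + half = 0 := by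
  unfold half
  rw [← AddCircle.coe_add]
  exact coe_eq_zero.mpr ⟨1, by norm_num⟩

lemma neg_half : -half = half := by
  rw [neg_eq_iff_add_eq_zero]
  exact two_half

lemma order_half : addOrderOf half = 2 := by
  apply addOrderOf_eq_prime
  · rw [two_nsmul]
    exact two_half
  · exact half_ne_zero

lemma rep_half_odd {u : ℕ} (hu : u.Coprime 2) : rep (u • half) = 1 / 2 := by
  have h1 : u % 2 = 1 := by
    have h2 : Odd u := Nat.coprime_two_right.mp hu
    exact Nat.odd_iff.mp h2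
  have h3 : u • half = half := by
    have h4 : u = 2 * (u / 2) + 1 := by omega
    rw [h4, add_nsmul, mul_comm, mul_nsmul, one_nsmul]
    have h5 : (u / 2 * 2 / 2) • (2 • half) = 0 := by
      rw [two_nsmul, two_half, nsmul_zero]
    rw [two_nsmul, ← nsmul_add, two_half, nsmul_zero, zero_add]
  rw [h3]
  unfold half
  rw [rep_coe, Int.fract_eq_self]
  norm_num

/-- real points over `ℚ/ℤ`: `rep x + q t` is an integer if and only if `x + q t = 0` -/
lemma int_iff (x : QZ) (q : ℤ) (t : ℚ) :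
    (∃ n : ℤ, (rep x : ℝ) + q * (t : ℝ) = n) ↔ x + q • (t : QZ) = 0 := by
  have h1 : x + q • (t : QZ) = ((rep x + q * t : ℚ) : QZ) := by
    conv_lhs => rw [← coe_rep x]
    rw [← AddCircle.coe_zsmul, ← AddCircle.coe_add, zsmul_eq_mul]
  rw [h1, coe_eq_zero]
  constructor
  · rintro ⟨n, hn⟩
    exact ⟨n, by exact_mod_cast hn⟩
  · rintro ⟨n, hn⟩
    exact ⟨n, by exact_mod_cast hn⟩

end Pool.Agent.Lib.MP_386e47_ag_h1L
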