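import Pool.Agent.Lib.MP_386e47_ag_h1L.R1

/-! Row R2: level one and level zero through the sawtooth function. -/

set_option autoImplicit false

namespace Pool.Agent.Lib.MP_386e47_ag_h1L

open Finset
open Pool.Agent.LevelOne (saw dot)

variable {ι : Type} [Fintype ι]

private lemma saw_rep {x : QZ} (hx : x ≠ 0) : saw (rep x : ℝ) = (rep x : ℝ) - 1 / 2 := by
  apply Pool.Agent.LevelOne.saw_of_mem
  · have h1 := rep_nonneg x
    have h2 : rep x ≠ 0 := fun h => hx (rep_eq_zero.mp h)
    exact_mod_cast lt_of_le_of_ne h1 (Ne.symm h2)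
  · exact_mod_cast rep_lt_one x

lemma total_eq (a : ι → QZ) (ha : ∀ i, a i ≠ 0) (u : ℕ) (hu : Adm a u) :
    ((total a u : ℚ) : ℝ) = ∑ i, saw (rl a u i) + (Fintype.card ι : ℝ) / 2 := by
  unfold total rl
  have h1 : ∀ i, saw (rep (u • a i) : ℝ) = (rep (u • a i) : ℝ) - 1 / 2 :=
    fun i => saw_rep (smul_ne (ha i) (hu i))
  rw [sum_congr rfl fun i _ => h1 i, sum_sub_distrib]
  simp only [sum_const, card_univ, nsmul_eq_mul]
  push_cast
  ring

theorem levelOne_iff {a : ι → QZ} (ha : IsCharacter a) :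
    LevelOne a ↔ ∀ u, Adm a u → |∑ i, saw (rl a u i)| = 1 / 2 := by
  unfold LevelOne
  rw [and_iff_right ha]
  refine forall₂_congr fun u hu => ?_
  have h1 := total_eq a ha.1 u hu
  have h2 : (∑ i, saw (rl a u i)) = ((total a u : ℚ) : ℝ) - (Fintype.card ι : ℝ) / 2 := by
    rw [h1]
    ring
  rw [h2, abs_eq (by norm_num)]
  constructor
  · rintro (h | h)
    · right
      rw [h]
      push_cast
      ring
    · left
      rw [h]
      push_cast
      ring
  · rintro (h | h)
    · right
      have h3 : ((total a u : ℚ) : ℝ) = ((((Fintype.card ι : ℚ) + 1) / 2 : ℚ) : ℝ) := by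
        push_cast
        linarith
      exact_mod_cast h3
    · left
      have h3 : ((total a u : ℚ) : ℝ) = ((((Fintype.card ι : ℚ) - 1) / 2 : ℚ) : ℝ) := by
        push_cast
        linarith
      exact_mod_cast h3

theorem levelZero_iff {a : ι → QZ} (ha : IsCharacter a) :
    LevelZero a ↔ ∀ u, Adm a u → ∑ i, saw (rl a u i) = 0 := by
  unfold LevelZero
  rw [and_iff_right ha]
  refine forall₂_congr fun u hu => ?_
  have h1 := total_eq a ha.1 u hu
  have h2 : (∑ i, saw (rl a u i)) = ((total a u : ℚ) : ℝ) - (Fintype.card ι : ℝ) / 2 := by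
    rw [h1]
    ring
  rw [h2, sub_eq_zero]
  constructor
  · intro h
    rw [h]
    push_cast
    ring
  · intro h
    have h3 : ((total a u : ℚ) : ℝ) = (((Fintype.card ι : ℚ) / 2 : ℚ) : ℝ) := by
      rw [h]
      push_cast
      ring
    exact_mod_cast h3

lemma adm_one (a : ι → QZ) : Adm a 1 := fun i => Nat.coprime_one_left _

/-- entries of a conjugate are not integers -/
lemma rl_ne_int {a : ι → QZ} {u : ℕ} (hu : Adm a u) {i : ι} (hi : a i ≠ 0) (n : ℤ) :
    rl a u i ≠ n := by
  unfold rl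
  exact rep_ne_int (smul_ne hi (hu i)) n

end Pool.Agent.Lib.MP_386e47_ag_h1L
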