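import Pool.Agent.Lib.MP_386e47_ag_h1L.R2
import Pool.Agent.Lib.MP_386e47_ag_h1.Deform

/-! The structure theorem, modulo `m`: the conjugates of a character are dense in translates of a
subtorus, the character has bounded order modulo the subtorus. -/

set_option autoImplicit false

namespace Pool.Agent.Lib.MP_386e47_ag_h1L

open Finset Filter
open Pool.Agent.Lib.MP_938ce2_ag_h85f (ee kap avg ee_add ee_zero norm_ee norm_kap_le card_units_pos)
open Pool.Agent.Lib.MP_386e47_ag_h1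

private lemma exists_orth2 {ι : Type} [Fintype ι] [DecidableEq ι] (Λ : AddSubgroup (ι → ℤ))
    (x : ι → ℤ) (hx : ∀ k : ℕ, 0 < k → k • x ∉ Λ) :
    ∃ c : ι → ℤ, (∀ χ ∈ Λ, ∑ i, χ i * c i = 0) ∧ ∑ i, x i * c i ≠ 0 := by
  set V := Submodule.span ℚ ((fun (χ : ι → ℤ) (i : ι) => (χ i : ℚ)) '' (Λ : Set (ι → ℤ))) with hV
  have hxV : (fun i => (x i : ℚ)) ∉ V := by
    intro hmem
    obtain ⟨k, hk, χ, hχ, h1⟩ := exists_mult_of_mem_span Λ hmem
    refine hx k hk ?_
    have h2 : k • x = χ := by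
      funext i
      have := h1 i
      simp only [Pi.smul_apply, nsmul_eq_mul]
      exact_mod_cast this
    rw [h2]
    exact hχ
  obtain ⟨f, hf, hfV⟩ := Submodule.exists_le_ker_of_notMem hxV
  obtain ⟨d, hd⟩ := IsLocalization.exist_integer_multiples_of_finite (nonZeroDivisors ℤ)
    (fun i : ι => f (Pi.single i (1 : ℚ)))
  choose c hc using hd
  have hd0 : ((d : ℤ) : ℚ) ≠ 0 := by
    have := nonZeroDivisors.ne_zero d.2
    exact_mod_cast this
  have hc' : ∀ i, (c i : ℚ) = (d : ℤ) * f (Pi.single i (1 : ℚ)) := by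
    intro i
    have := hc i
    rw [zsmul_eq_mul] at this
    simpa using this
  have hexp : ∀ y : ι → ℚ, ((d : ℤ) : ℚ) * f y = ∑ i, y i * c i := by
    intro y
    have h1 : y = ∑ i, y i • (Pi.single i (1 : ℚ) : ι → ℚ) := by
      funext j
      simp [Finset.sum_apply, Pi.single_apply]
    conv_lhs => rw [h1]
    rw [map_sum, Finset.mul_sum]
    refine Finset.sum_congr rfl fun i _ => ?_
    rw [map_smul, smul_eq_mul, hc']
    ring
  refine ⟨c, ?_, ?_⟩
  · intro χ hχ
    have h1 : f (fun i => (χ i : ℚ)) = 0 := by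
      have : (fun i => (χ i : ℚ)) ∈ V := Submodule.subset_span ⟨χ, hχ, rfl⟩
      exact hfV this
    have h2 := hexp (fun i => (χ i : ℚ))
    rw [h1, mul_zero] at h2
    exact_mod_cast h2.symm
  · intro h0
    have h1 := hexp (fun i => (x i : ℚ))
    have h2 : ∑ i, (x i : ℚ) * c i = 0 := by exact_mod_cast h0
    rw [h2] at h1
    exact hf ((mul_eq_zero.mp h1).resolve_left hd0)

/-- the vectors of size at most `n` with vanishing block sums -/
private noncomputable def dirs0 {ι κ : Type} [Fintype ι] [DecidableEq ι] [Fintype κ] [DecidableEq κ]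
    (b : ι → κ) (n : ℕ) : Finset (ι → ℤ) :=
  (Fintype.piFinset fun _ : ι => Finset.Icc (-(n : ℤ)) n).filter fun c =>
    ∀ j, ∑ i with b i = j, c i = 0

/-- the vectors orthogonal to a lattice -/
private def perp {ι : Type} [Fintype ι] (Λ : AddSubgroup (ι → ℤ)) : AddSubgroup (ι → ℤ) where
  carrier := {c | ∀ χ ∈ Λ, ∑ i, χ i * c i = 0}
  zero_mem' := fun χ _ => by simp
  add_mem' := by
    intro c d hc hd χ hχ
    simp only [Pi.add_apply, mul_add, Finset.sum_add_distrib, hc χ hχ, hd χ hχ, add_zero]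
  neg_mem' := by
    intro c hc χ hχ
    simp only [Pi.neg_apply, mul_neg, Finset.sum_neg_distrib, hc χ hχ, neg_zero]

private lemma exists_gens {ι : Type} [Fintype ι] (Λ : AddSubgroup (ι → ℤ)) :
    ∃ S : Finset (ι → ℤ), AddSubgroup.closure (S : Set (ι → ℤ)) = Λ := by
  obtain ⟨S, hS⟩ := (Submodule.fg_iff_addSubgroup_fg
    (AddSubgroup.toIntSubmodule Λ)).mp (IsNoetherian.noetherian _)
  exact ⟨S, hS⟩

theorem structD {ι κ : Type} [Fintype ι] [DecidableEq ι] [Fintype κ] [DecidableEq κ] (b : ι → κ) :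
    ∃ (F : Finset (Finset (ι → ℤ))) (Q : ℕ), 0 < Q ∧ ∀ D : Datum b, ∃ S ∈ F,
      (∀ c ∈ S, ∀ j, ∑ i with b i = j, c i = 0) ∧
      (∀ χ : ι → ℤ, (∀ c ∈ S, ∑ i, χ i * c i = 0) → Q • pr D.a χ = 0) ∧
      ∀ (u : (ZMod D.m)ˣ) (t : S → ℝ),
        (∀ i, ∀ k : ℤ, (((u : ZMod D.m) * D.a i).val : ℝ) / D.m + ∑ c : S, (c.1 i : ℝ) * t c ≠ k) →
        ∃ w : (ZMod D.m)ˣ, ∀ j, ∑ i with b i = j,
          Int.fract ((((u : ZMod D.m) * D.a i).val : ℝ) / D.m + ∑ c : S, (c.1 i : ℝ) * t c) =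
            D.val w j := by
  classical
  by_contra hcon
  have hcon' : ∀ n : ℕ, ∃ D : Datum b, ∀ S ⊆ dirs0 b n, ¬ (
      (∀ χ : ι → ℤ, (∀ c ∈ S, ∑ i, χ i * c i = 0) → n.factorial • pr D.a χ = 0) ∧
      ∀ (u : (ZMod D.m)ˣ) (t : S → ℝ),
        (∀ i, ∀ k : ℤ, (((u : ZMod D.m) * D.a i).val : ℝ) / D.m + ∑ c : S, (c.1 i : ℝ) * t c ≠ k) →
        ∃ w : (ZMod D.m)ˣ, ∀ j, ∑ i with b i = j,
          Int.fract ((((u : ZMod D.m) * D.a i).val : ℝ) / D.m + ∑ c : S, (c.1 i : ℝ) * t c) =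
            D.val w j) := by
    intro n
    by_contra h1
    push Not at h1
    refine hcon ⟨(dirs0 b n).powerset, n.factorial, Nat.factorial_pos n, fun D => ?_⟩
    obtain ⟨S, hS, h2, h3⟩ := h1 D
    exact ⟨S, Finset.mem_powerset.mpr hS,
      fun c hc => (Finset.mem_filter.mp (hS hc)).2, h2, h3⟩
  choose D hbad using hcon'
  set U : Ultrafilter ℕ := Filter.hyperfilter ℕ with hU
  -- generators of the lattice
  obtain ⟨Sg, hSg⟩ := exists_gens (relLat D U)
  let s : Sg → ι → ℤ := Subtype.val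
  have hsr : AddSubgroup.closure (Set.range s) = relLat D U := by
    rw [← hSg]
    congr 1
    exact Subtype.range_coe
  have hsmem : ∀ ρ : Sg, s ρ ∈ relLat D U := fun ρ => hSg ▸ AddSubgroup.subset_closure ρ.2
  obtain ⟨Q, hQ, hQev⟩ : ∃ Q : ℕ, 0 < Q ∧
      ∀ᶠ n in (U : Filter ℕ), ∀ ρ, Q • pr (D n).a (s ρ) = 0 := by
    choose Q hQ h2 using hsmem
    refine ⟨∏ ρ, Q ρ, Finset.prod_pos fun ρ _ => hQ ρ, ?_⟩
    filter_upwards [Filter.eventually_all.mpr h2] with n hn ρ
    rw [← Finset.mul_prod_erase _ _ (Finset.mem_univ ρ), mul_comm, mul_smul, hn ρ, smul_zero]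
  -- the directions
  obtain ⟨S, hS⟩ := exists_gens (perp (relLat D U))
  have hSmem : ∀ c ∈ S, ∀ χ ∈ relLat D U, ∑ i, χ i * c i = 0 := by
    intro c hc
    have h1 : c ∈ perp (relLat D U) := hS ▸ AddSubgroup.subset_closure hc
    exact h1
  have hSperp : ∀ χ : ι → ℤ, (∀ c ∈ S, ∑ i, χ i * c i = 0) → χ ∈ relLat D U := by
    intro χ hχ
    by_contra hno
    have h1 : ∀ k : ℕ, 0 < k → k • χ ∉ relLat D U := by
      intro k hk hmem
      apply hno
      obtain ⟨Q', hQ', h2⟩ := hmem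
      refine ⟨Q' * k, Nat.mul_pos hQ' hk, ?_⟩
      filter_upwards [h2] with n hn
      rw [map_nsmul, ← mul_smul] at hn
      exact hn
    obtain ⟨c, hc, hc2⟩ := exists_orth2 (relLat D U) χ h1
    have h2 : c ∈ AddSubgroup.closure (S : Set (ι → ℤ)) := hS ▸ hc
    have h3 : ∀ y ∈ AddSubgroup.closure (S : Set (ι → ℤ)), ∑ i, χ i * y i = 0 := by
      intro y hy
      induction hy using AddSubgroup.closure_induction with
      | mem x hx => exact hχ x hx
      | zero => simp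
      | add x y _ _ hx hy =>
        simp only [Pi.add_apply, mul_add, Finset.sum_add_distrib, hx, hy, add_zero]
      | neg x _ hx => simp only [Pi.neg_apply, mul_neg, Finset.sum_neg_distrib, hx, neg_zero]
    exact hc2 (h3 c h2)
  have hSev : ∀ᶠ n in (U : Filter ℕ), S ⊆ dirs0 b n := by
    have h1 : ∀ᶠ n in (atTop : Filter ℕ), S ⊆ dirs0 b n := by
      filter_upwards [Filter.eventually_ge_atTop (∑ c ∈ S, ∑ i, (c i).natAbs)] with n hn c hc
      unfold dirs0
      rw [Finset.mem_filter, Fintype.mem_piFinset]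
      refine ⟨fun i => ?_, fun j => ?_⟩
      · have h2 : (c i).natAbs ≤ ∑ i, (c i).natAbs :=
          Finset.single_le_sum (f := fun i => (c i).natAbs) (fun _ _ => Nat.zero_le _)
            (Finset.mem_univ i)
        have h3 : ∑ i, (c i).natAbs ≤ ∑ c ∈ S, ∑ i, (c i).natAbs :=
          Finset.single_le_sum (f := fun c : ι → ℤ => ∑ i, (c i).natAbs) (fun _ _ => Nat.zero_le _) hc
        rw [Finset.mem_Icc]
        omega
      · have h1 := hSmem c hc _ (blk_mem_relLat D U j)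
        rw [Finset.sum_filter]
        refine Eq.trans (Finset.sum_congr rfl fun i _ => ?_) h1
        split_ifs <;> simp
    exact Nat.hyperfilter_le_atTop h1
  have hQfac : ∀ᶠ n in (U : Filter ℕ), Q ≤ n := by
    exact Nat.hyperfilter_le_atTop (Filter.eventually_ge_atTop Q)
  -- the two finite invariants
  let P : ℕ → Set (Sg → ℂ) := fun n => Set.range fun v : (ZMod (D n).m)ˣ => fun ρ : Sg =>
    ee ((v : ZMod (D n).m) * pr (D n).a (s ρ))
  let W : ℕ → Set (κ → ℝ) := fun n => Set.range fun v : (ZMod (D n).m)ˣ => (D n).val v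
  obtain ⟨A, hA⟩ : ∃ A : Set (Sg → ℂ), ∀ᶠ n in (U : Filter ℕ), P n = A := by
    have hfin : ({f : Sg → ℂ | ∀ ρ, f ρ ∈ {w : ℂ | w ^ Q = 1}}).Finite := by
      refine Set.Finite.pi' fun ρ => ?_
      refine Set.Finite.subset (Polynomial.nthRootsFinset Q (1 : ℂ)).finite_toSet ?_
      intro w hw
      rw [Finset.mem_coe, Polynomial.mem_nthRootsFinset hQ]
      exact hw
    have h2 : ∀ᶠ n in (U : Filter ℕ), ∃ A ∈ {A : Set (Sg → ℂ) |
        A ⊆ {f : Sg → ℂ | ∀ ρ, f ρ ∈ {w : ℂ | w ^ Q = 1}}}, P n = A := by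
      filter_upwards [hQev] with n hn
      refine ⟨P n, ?_, rfl⟩
      rintro f ⟨v, rfl⟩ ρ
      have h3 := ee_zsmul (Q : ℤ) ((v : ZMod (D n).m) * pr (D n).a (s ρ))
      rw [zpow_natCast] at h3
      change _ ^ Q = 1
      rw [← h3, Int.cast_natCast, ← nsmul_eq_mul, ← mul_smul_comm, hn ρ, mul_zero, ee_zero]
    obtain ⟨A, -, hA⟩ := (Ultrafilter.eventually_exists_mem_iff hfin.finite_subsets).mp h2
    exact ⟨A, hA⟩
  obtain ⟨B, hB⟩ : ∃ B : Set (κ → ℝ), ∀ᶠ n in (U : Filter ℕ), W n = B := by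
    have hfin : ({f : κ → ℝ | ∀ j, f j ∈ {w : ℝ | ∃ k : ℕ, k ≤ Fintype.card ι ∧ w = k}}).Finite := by
      refine Set.Finite.pi' fun j => ?_
      refine Set.Finite.subset (Set.Finite.image (fun k : ℕ => (k : ℝ))
        (Finset.range (Fintype.card ι + 1)).finite_toSet) ?_
      rintro w ⟨k, hk, rfl⟩
      exact ⟨k, by simpa using Nat.lt_succ_of_le hk, rfl⟩
    have h2 : ∀ᶠ n in (U : Filter ℕ), ∃ B ∈ {B : Set (κ → ℝ) |
        B ⊆ {f : κ → ℝ | ∀ j, f j ∈ {w : ℝ | ∃ k : ℕ, k ≤ Fintype.card ι ∧ w = k}}}, W n = B := by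
      refine Filter.Eventually.of_forall fun n => ⟨W n, ?_, rfl⟩
      rintro f ⟨v, rfl⟩ j
      exact (D n).val_mem v j
    obtain ⟨B, -, hB⟩ := (Ultrafilter.eventually_exists_mem_iff hfin.finite_subsets).mp h2
    exact ⟨B, hB⟩
  -- a level at which the directions `S` fail
  obtain ⟨n', hA', hB', hSn, hQn, hQ'⟩ := (hA.and (hB.and (hSev.and (hQfac.and hQev)))).exists
  have hcond : ∀ χ : ι → ℤ, (∀ c ∈ S, ∑ i, χ i * c i = 0) →
      n'.factorial • pr (D n').a χ = 0 := by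
    intro χ hχ
    obtain ⟨r, hr⟩ := Nat.dvd_factorial hQ hQn
    have h1 : Q • pr (D n').a χ = 0 := by
      have h2 : χ ∈ AddSubgroup.closure (Set.range s) := hsr ▸ hSperp χ hχ
      have h3 : ∀ y ∈ AddSubgroup.closure (Set.range s), Q • pr (D n').a y = 0 := by
        intro y hy
        induction hy using AddSubgroup.closure_induction with
        | mem x hx =>
          obtain ⟨ρ, rfl⟩ := hx
          exact hQ' ρ
        | zero => simp
        | add x y _ _ hx hy => rw [map_add, smul_add, hx, hy, add_zero]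
        | neg x _ hx => rw [map_neg, smul_neg, hx, neg_zero]
      exact h3 χ h2
    rw [hr, mul_comm, mul_smul, h1, smul_zero]
  have hb := hbad n' S hSn
  rw [not_and] at hb
  have hb := hb hcond
  push Not at hb
  obtain ⟨u, t, hint, hno⟩ := hb
  set x : ι → ℝ := fun i => (((u : ZMod (D n').m) * (D n').a i).val : ℝ) / (D n').m +
    ∑ c : S, (c.1 i : ℝ) * t c with hx
  set z : ι → ℂ := fun i => Complex.exp ((2 * Real.pi * x i : ℝ) * Complex.I) with hzdef
  have hz : ∀ i, ‖z i‖ = 1 := fun i => Complex.norm_exp_ofReal_mul_I _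
  have hz1 : ∀ i, z i ≠ 1 := by
    intro i h
    rw [hzdef] at h
    simp only at h
    rw [Complex.exp_eq_one_iff] at h
    obtain ⟨k, hk⟩ := h
    apply hint i k
    have h1 : ((2 * Real.pi * x i : ℝ) : ℂ) = ((k * (2 * Real.pi) : ℝ) : ℂ) := by
      have h2 : ((k * (2 * Real.pi) : ℝ) : ℂ) * Complex.I = (k : ℂ) * (2 * Real.pi * Complex.I) := by
        push_cast; ring
      rw [← h2] at hk
      exact mul_right_cancel₀ Complex.I_ne_zero hk
    have h2 : 2 * Real.pi * x i = k * (2 * Real.pi) := by exact_mod_cast h1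
    have h3 : (0 : ℝ) < 2 * Real.pi := by positivity
    have h4 : (2 * Real.pi) * x i = (2 * Real.pi) * k := by rw [h2]; ring
    exact mul_left_cancel₀ h3.ne' h4
  have hFz : ∀ i, FF (z i) = Int.fract (x i) := fun i => FF_exp (hint i)
  have hzint : ∀ j, ∃ k : ℤ, ∑ i with b i = j, Int.fract (x i) = k := by
    intro j
    obtain ⟨k, -, hk⟩ := (D n').val_mem u j
    refine ⟨k - ∑ i with b i = j, ⌊x i⌋, ?_⟩
    have h1 : ∀ i, Int.fract (x i) = x i - ⌊x i⌋ := fun i => rfl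
    simp only [h1, Finset.sum_sub_distrib]
    push_cast
    congr 1
    have h2 : ∑ i with b i = j, x i = (D n').val u j +
        ∑ c : S, (∑ i with b i = j, (c.1 i : ℝ)) * t c := by
      rw [hx]
      unfold Datum.val
      simp only
      rw [Finset.sum_add_distrib, Finset.sum_comm]
      congr 1
      exact Finset.sum_congr rfl fun c _ => by rw [Finset.sum_mul]
    have h3 : ∑ c : S, (∑ i with b i = j, (c.1 i : ℝ)) * t c = 0 := by
      refine Finset.sum_eq_zero fun c _ => ?_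
      have h4 : ∑ i with b i = j, c.1 i = 0 := (Finset.mem_filter.mp (hSn c.2)).2 j
      have h5 : ∑ i with b i = j, (c.1 i : ℝ) = 0 := by exact_mod_cast h4
      rw [h5, zero_mul]
    rw [h2, h3, add_zero, hk]
  -- the radius
  obtain ⟨ε, hε, hε1, hεF⟩ : ∃ ε : ℝ, 0 < ε ∧ ε ≤ 1 ∧ ∀ i, ∀ w : ℂ, ‖w - z i‖ < ε →
      |FF w - FF (z i)| < 1 / (Fintype.card ι + 1) := by
    have h1 : ∀ i, ∃ δ > 0, ∀ w : ℂ, dist w (z i) < δ →
        dist (FF w) (FF (z i)) < 1 / (Fintype.card ι + 1) := fun i =>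
      Metric.continuousAt_iff.mp (FF_continuousAt (hz i) (hz1 i)) _ (by positivity)
    choose δ hδ h2 using h1
    have h3 : ∀ᶠ ε in nhdsWithin (0 : ℝ) (Set.Ioi 0), ∀ i, ε ≤ δ i :=
      Filter.eventually_all.mpr fun i => by
        filter_upwards [Ioc_mem_nhdsGT (hδ i)] with ε hε
        exact hε.2
    obtain ⟨ε, h4, h5⟩ := (h3.and (Ioc_mem_nhdsGT (zero_lt_one : (0 : ℝ) < 1))).exists
    refine ⟨ε, h5.1, h5.2, fun i w hw => ?_⟩
    have h6 := h2 i w (by rw [dist_eq_norm]; exact hw.trans_le (h4 i))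
    rwa [Real.dist_eq] at h6
  obtain ⟨N, hN⟩ := exists_gap (Fintype.card ι) (δ := ε ^ 2 / 4) (by positivity) (by nlinarith)
  set gap : ℝ := (beta N N) ^ Fintype.card ι - (1 - ε ^ 2 / 4) ^ N with hgap
  have hgap0 : 0 < gap := by rw [hgap]; linarith
  have hQr : (0 : ℝ) < (Q : ℝ) ^ Fintype.card Sg := by positivity
  set η : ℝ := gap / (2 * (Q : ℝ) ^ Fintype.card Sg) with hη
  have hη0 : 0 < η := by positivity
  obtain ⟨d, hd⟩ := kap_small hη0
  have hkev : ∀ᶠ n in (U : Filter ℕ), ∀ χ ∈ Fintype.piFinset fun _ : ι => Finset.Icc (-(N : ℤ)) N,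
      ∀ J ∈ Fintype.piFinset (fun _ : Sg => Finset.range Q), χ ∉ relLat D U →
      ‖kap (pr (D n).a (χ + comb s J))‖ ≤ η := by
    rw [Filter.eventually_all_finset]
    intro χ _
    rw [Filter.eventually_all_finset]
    intro J _
    by_cases hχ : χ ∈ relLat D U
    · exact Filter.Eventually.of_forall fun n h => absurd hχ h
    · have h1 : comb s J ∈ relLat D U := by
        unfold comb
        exact AddSubgroup.sum_mem _ fun ρ _ => AddSubgroup.zsmul_mem _ (hsmem ρ) _
      have h2 : χ + comb s J ∉ relLat D U := fun h3 =>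
        hχ (by simpa using (relLat D U).sub_mem h3 h1)
      filter_upwards [order_large h2 d] with n hn _
      exact hd _ _ hn
  obtain ⟨n, hk, hA2, hB2, hQ2⟩ := (hkev.and (hA.and (hB.and hQev))).exists
  -- the pattern of `u` occurs at the level `n`
  have hpat : (fun ρ : Sg => ee ((u : ZMod (D n').m) * pr (D n').a (s ρ))) ∈ P n := by
    rw [hA2, ← hA']
    exact ⟨u, rfl⟩
  obtain ⟨v₀, hv₀⟩ := hpat
  have hz0 : ∀ ρ : Sg, ∏ i, z i ^ s ρ i = ee ((v₀ : ZMod (D n).m) * pr (D n).a (s ρ)) := by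
    intro ρ
    have h1 : ee ((v₀ : ZMod (D n).m) * pr (D n).a (s ρ))
        = ee ((u : ZMod (D n').m) * pr (D n').a (s ρ)) := congrFun hv₀ ρ
    rw [h1, ee_mul_pr]
    have h2 : ∀ i, z i ^ s ρ i = ee ((u : ZMod (D n').m) * (D n').a i) ^ s ρ i *
        Complex.exp ((2 * Real.pi * ((s ρ i : ℝ) * ∑ c : S, (c.1 i : ℝ) * t c) : ℝ) *
          Complex.I) := by
      intro i
      rw [hzdef]
      simp only
      rw [← Complex.exp_int_mul, ee_eq_exp, ← Complex.exp_int_mul, ← Complex.exp_add]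
      congr 1
      rw [hx]
      push_cast
      ring
    rw [Finset.prod_congr rfl fun i _ => h2 i, Finset.prod_mul_distrib, ← Complex.exp_sum,
      ← Finset.sum_mul]
    have h3 : ∑ i, ((2 * Real.pi * ((s ρ i : ℝ) * ∑ c : S, (c.1 i : ℝ) * t c) : ℝ) : ℂ) = 0 := by
      rw [← Complex.ofReal_sum, ← Finset.mul_sum]
      have h4 : ∑ i, ((s ρ i : ℝ) * ∑ c : S, (c.1 i : ℝ) * t c) = 0 := by
        simp only [Finset.mul_sum]
        rw [Finset.sum_comm]
        refine Finset.sum_eq_zero fun c _ => ?_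
        have h5 : ∑ i, ((s ρ i : ℝ) * (c.1 i : ℝ)) = 0 := by
          exact_mod_cast hSmem c.1 c.2 _ (hsmem ρ)
        have h6 : ∑ i, (s ρ i : ℝ) * ((c.1 i : ℝ) * t c) =
            (∑ i, ((s ρ i : ℝ) * (c.1 i : ℝ))) * t c := by
          rw [Finset.sum_mul]
          exact Finset.sum_congr rfl fun i _ => by ring
        rw [h6, h5, zero_mul]
      rw [h4, mul_zero, Complex.ofReal_zero]
    rw [h3, zero_mul, Complex.exp_zero, mul_one]
  obtain ⟨v, hv⟩ := core (D n).a s hQ hQ2 v₀ z hz hz0 N hε hε1 hη0.le (by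
    intro χ hχ hχ2 J hJ
    rw [hsr] at hχ2
    refine hk χ ?_ J hJ hχ2
    rw [Fintype.mem_piFinset]
    intro i
    rw [Finset.mem_Icc]
    exact abs_le.mp (hχ i)) (by
    rw [← hgap, hη, div_mul_eq_mul_div, div_lt_iff₀ (by positivity)]
    nlinarith)
  -- conclusion
  have hval : ∀ j, ∑ i with b i = j, Int.fract (x i) = (D n).val v j := by
    intro j
    obtain ⟨k, hk⟩ := hzint j
    obtain ⟨l, -, hl⟩ := (D n).val_mem v j
    have h1 : |(D n).val v j - ∑ i with b i = j, Int.fract (x i)| < 1 := by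
      unfold Datum.val
      rw [← Finset.sum_sub_distrib]
      refine (Finset.abs_sum_le_sum_abs _ _).trans_lt ?_
      have h2 : ∀ i ∈ Finset.univ.filter (fun i => b i = j),
          |((((v : ZMod (D n).m) * (D n).a i).val : ℝ) / (D n).m) - Int.fract (x i)|
          ≤ 1 / (Fintype.card ι + 1) := by
        intro i _
        have h3 := hεF i _ (hv i)
        rw [FF_ee ((D n).mul_ne v i), hFz] at h3
        exact h3.le
      refine (Finset.sum_le_sum h2).trans_lt ?_
      rw [Finset.sum_const, nsmul_eq_mul, mul_one_div, div_lt_one (by positivity)]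
      have h3 : ((Finset.univ.filter (fun i => b i = j)).card : ℝ) ≤ Fintype.card ι := by
        exact_mod_cast Finset.card_le_univ _
      linarith
    rw [hk, hl] at h1 ⊢
    have h2 : |(l : ℤ) - k| < 1 := by exact_mod_cast h1
    have h3 : (l : ℤ) = k := by
      have := Int.abs_lt_one_iff.mp h2
      omega
    exact_mod_cast h3.symm
  have hmem : (D n).val v ∈ W n' := by
    rw [hB', ← hB2]
    exact ⟨v, rfl⟩
  obtain ⟨v', hv'⟩ := hmem
  obtain ⟨j, hj⟩ := hno v'
  apply hj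
  rw [hval j]
  exact (congrFun hv' j).symm

end Pool.Agent.Lib.MP_386e47_ag_h1L
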