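import Pool.Agent.Lib.MP_386e47_ag_h1L.IDefs

/-! Row W1: the bounded sums of sawtooth functions in one variable, nonzero degree.

Proof: for generic `t` (`Gen C α q t`) put `G t = κ₀ + gs C α q t` and
`β = κ₀ + ∑ α i - (card C - 1) / 2`. All `saw` are `Int.fract _ - 1 / 2`, hence
`G t + 1 / 2 = β + M t - (integer)`, `M = ∑ q i ≠ 0`. If `β + M t` is not an integer, then
`0 ≤ G t + 1 / 2 ≤ 1` gives `G t + 1 / 2 = Int.fract (β + M t)`, i.e. `G t = saw (β + M t)`. If
`β + M t` is an integer, then `G t = ± 1 / 2`, but near the generic point `t` the function `G` is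
affine with slope `M ≠ 0` (each `saw` is affine with slope `q i` near `α i + q i t`,
`LevelOne.saw_local`), which contradicts `|G| ≤ 1 / 2` on one side. So `G t = saw (β + M t)` for all
generic `t`. Integrate over `[0, 1]` (almost every `t` is generic; `LevelOne.integral_saw_comp`):
`κ₀ = 0`. -/

set_option autoImplicit false

namespace Pool.Agent.Lib.MP_386e47_ag_h1L

open Finset
open Pool.Agent.LevelOne (saw dot)

variable {ι : Type} [Fintype ι] [DecidableEq ι]

/-- near a generic parameter the sum is affine -/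
lemma gs_local (C : Finset ι) (α : ι → ℝ) (q : ι → ℤ) {t : ℝ} (ht : Gen C α q t) :
    ∃ ε > 0, ∀ h : ℝ, |h| < ε → Gen C α q (t + h) ∧
      gs C α q (t + h) = gs C α q t + ((∑ i ∈ C, q i : ℤ) : ℝ) * h := by
  have key : ∀ i ∈ C, ∀ᶠ h in nhds (0 : ℝ), (∀ n : ℤ, α i + q i * (t + h) ≠ n) ∧
      saw (α i + q i * (t + h)) = saw (α i + q i * t) + q i * h := by
    intro i hi
    obtain ⟨ε, hε, H⟩ := Pool.Agent.LevelOne.saw_local (α i + q i * t)
    have hfr : Int.fract (α i + q i * t) ≠ 0 := by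
      intro h0
      obtain ⟨n, hn⟩ := Pool.Agent.LevelOne.fract_eq_zero_iff.1 h0
      exact ht i hi n hn
    have hcont : Filter.Tendsto (fun h : ℝ => (q i : ℝ) * h) (nhds 0) (nhds 0) := by
      have h1 : Filter.Tendsto (fun h : ℝ => (q i : ℝ) * h) (nhds 0) (nhds ((q i : ℝ) * 0)) :=
        (continuous_const.mul continuous_id).tendsto 0
      rwa [mul_zero] at h1
    have hev : ∀ᶠ h in nhds (0 : ℝ), |(q i : ℝ) * h| < ε := by
      have h1 := hcont (Metric.ball_mem_nhds (0 : ℝ) hε)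
      filter_upwards [h1] with h hh
      simpa [Real.dist_eq] using hh
    filter_upwards [hev] with h hh
    have e : α i + q i * (t + h) = (α i + q i * t) + q i * h := by ring
    rw [e]
    by_cases h0 : (q i : ℝ) * h = 0
    · rw [h0, add_zero, add_zero]
      exact ⟨ht i hi, rfl⟩
    · obtain ⟨h1, h2⟩ := H _ h0 hh
      rw [if_neg hfr, sub_zero] at h2
      exact ⟨h1, h2⟩
  have hall : ∀ᶠ h in nhds (0 : ℝ), ∀ i ∈ C, (∀ n : ℤ, α i + q i * (t + h) ≠ n) ∧
      saw (α i + q i * (t + h)) = saw (α i + q i * t) + q i * h :=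
    (Filter.eventually_all_finset C).2 key
  obtain ⟨ε, hε, H⟩ := Metric.eventually_nhds_iff.1 hall
  refine ⟨ε, hε, fun h hh => ?_⟩
  have h1 := H (y := h) (by simpa [Real.dist_eq] using hh)
  refine ⟨fun i hi => (h1 i hi).1, ?_⟩
  unfold gs
  push_cast
  rw [sum_mul, ← sum_add_distrib]
  exact sum_congr rfl fun i hi => (h1 i hi).2

/-- almost every parameter is generic -/
lemma ae_gen (C : Finset ι) (α : ι → ℝ) (q : ι → ℤ) (hq : ∀ i ∈ C, q i ≠ 0) :
    ∀ᵐ t : ℝ, Gen C α q t := by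
  unfold Gen
  refine (Filter.eventually_all_finset C).2 fun i hi => ?_
  rw [MeasureTheory.ae_all_iff]
  intro n
  have hq' : (q i : ℝ) ≠ 0 := by exact_mod_cast hq i hi
  have h1 : ∀ᵐ t : ℝ, t ≠ ((n : ℝ) - α i) / q i := by
    rw [MeasureTheory.ae_iff]
    have : {t : ℝ | ¬ t ≠ ((n : ℝ) - α i) / q i} = {((n : ℝ) - α i) / q i} := by
      ext t
      simp
    rw [this]
    exact MeasureTheory.measure_singleton _
  filter_upwards [h1] with t ht h2
  apply ht
  rw [eq_div_iff hq']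
  linarith

private lemma w1_integrable (C : Finset ι) (α : ι → ℝ) (q : ι → ℤ) :
    IntervalIntegrable (fun t => gs C α q t) MeasureTheory.volume 0 1 := by
  have h : IntervalIntegrable (∑ i ∈ C, fun t : ℝ => saw (α i + q i * t))
      MeasureTheory.volume 0 1 :=
    IntervalIntegrable.sum C fun i _ =>
      Pool.Agent.LevelOne.intervalIntegrable_saw (fun t => α i + q i * t) (by fun_prop) 0 1
  convert h using 1
  funext t
  unfold gs
  rw [Finset.sum_apply]

lemma integral_gs (C : Finset ι) (α : ι → ℝ) (q : ι → ℤ) (hq : ∀ i ∈ C, q i ≠ 0) :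
    ∫ t in (0 : ℝ)..1, gs C α q t = 0 := by
  unfold gs
  rw [intervalIntegral.integral_finsetSum]
  · apply sum_eq_zero
    intro i hi
    have h := Pool.Agent.LevelOne.integral_saw_comp (q i) (hq i hi) (α i)
    rw [← h]
    congr 1
    funext t
    rw [add_comm]
  · intro i _
    exact Pool.Agent.LevelOne.intervalIntegrable_saw (fun t => α i + q i * t) (by fun_prop) 0 1

private lemma w1_gs_eq (C : Finset ι) (α : ι → ℝ) (q : ι → ℤ) {t : ℝ} (ht : Gen C α q t) :
    gs C α q t + 1 / 2 = betaC C α + ((∑ i ∈ C, q i : ℤ) : ℝ) * t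
      - ((∑ i ∈ C, ⌊α i + q i * t⌋ : ℤ) : ℝ) := by
  have h1 : gs C α q t = ∑ i ∈ C, (α i + q i * t - ⌊α i + q i * t⌋ - 1 / 2) := by
    unfold gs
    refine sum_congr rfl fun i hi => ?_
    rw [Pool.Agent.LevelOne.saw_of_ne (ht i hi), Int.fract]
  rw [h1]
  unfold betaC
  simp only [sum_sub_distrib, sum_add_distrib, sum_const, nsmul_eq_mul]
  push_cast
  rw [sum_mul]
  ring

private lemma w1_main (C : Finset ι) (α : ι → ℝ) (q : ι → ℤ) (κ₀ : ℝ)
    (h : ∀ t, Gen C α q t → |κ₀ + gs C α q t| ≤ 1 / 2) (hM : ∑ i ∈ C, q i ≠ 0) {t : ℝ}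
    (ht : Gen C α q t) :
    (∀ n : ℤ, κ₀ + betaC C α + ((∑ i ∈ C, q i : ℤ) : ℝ) * t ≠ n) ∧
      κ₀ + gs C α q t = saw (κ₀ + betaC C α + ((∑ i ∈ C, q i : ℤ) : ℝ) * t) := by
  have h1 := w1_gs_eq C α q ht
  have h2 := abs_le.1 (h t ht)
  set K : ℤ := ∑ i ∈ C, ⌊α i + q i * t⌋ with hK
  have hM' : ((∑ i ∈ C, q i : ℤ) : ℝ) ≠ 0 := by exact_mod_cast hM
  set M : ℝ := ((∑ i ∈ C, q i : ℤ) : ℝ) with hMd
  have hne : ∀ n : ℤ, κ₀ + betaC C α + M * t ≠ n := by
    intro n hn
    have h3 : κ₀ + gs C α q t + 1 / 2 = ((n - K : ℤ) : ℝ) := by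
      push_cast
      linarith
    have h4 : (0 : ℝ) ≤ ((n - K : ℤ) : ℝ) := by rw [← h3]; linarith
    have h5 : ((n - K : ℤ) : ℝ) ≤ 1 := by rw [← h3]; linarith
    have h6 : 0 ≤ n - K := by exact_mod_cast h4
    have h7 : n - K ≤ 1 := by exact_mod_cast h5
    obtain ⟨ε, hε, H⟩ := gs_local C α q ht
    have hMa : 0 < |M| := abs_pos.2 hM'
    have h8 : n - K = 0 ∨ n - K = 1 := by omega
    have key : ∀ s : ℝ, |s| = 1 → |κ₀ + gs C α q t + s * (|M| * (ε / 2))| ≤ 1 / 2 := by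
      intro s hs
      have hsM : ∃ s' : ℝ, |s'| = 1 ∧ M * s' = s * |M| := by
        rcases abs_cases M with ⟨ha, -⟩ | ⟨ha, -⟩
        · exact ⟨s, hs, by rw [ha]; ring⟩
        · exact ⟨-s, by rw [abs_neg, hs], by rw [ha]; ring⟩
      obtain ⟨s', hs', hs''⟩ := hsM
      have h9 : |s' * (ε / 2)| < ε := by
        rw [abs_mul, hs', one_mul, abs_of_pos (by linarith)]
        linarith
      obtain ⟨g1, g2⟩ := H _ h9
      have g3 := h _ g1
      rw [g2] at g3
      have g4 : κ₀ + (gs C α q t + M * (s' * (ε / 2))) = κ₀ + gs C α q t + s * (|M| * (ε / 2)) := by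
        have : M * (s' * (ε / 2)) = (M * s') * (ε / 2) := by ring
        rw [this, hs'']
        ring
      rwa [g4] at g3
    have hpos : 0 < |M| * (ε / 2) := by positivity
    rcases h8 with h8 | h8
    · have h9 := abs_le.1 (key (-1) (by norm_num))
      rw [h8] at h3
      push_cast at h3
      linarith [h9.1]
    · have h9 := abs_le.1 (key 1 (by norm_num))
      rw [h8] at h3
      push_cast at h3
      linarith [h9.2]
  refine ⟨hne, ?_⟩
  have h3 : κ₀ + gs C α q t + 1 / 2 = κ₀ + betaC C α + M * t - K := by linarith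
  have h4 : κ₀ + betaC C α + M * t ≠ ((K + 1 : ℤ) : ℝ) := hne (K + 1)
  have h4' : κ₀ + betaC C α + M * t ≠ ((K : ℤ) : ℝ) := hne K
  push_cast at h4
  rw [Pool.Agent.LevelOne.saw_of_mem_int K]
  · linarith
  · rcases lt_or_eq_of_le (show (K : ℝ) ≤ κ₀ + betaC C α + M * t by linarith) with h5 | h5
    · exact h5
    · exact absurd h5.symm h4'
  · rcases lt_or_eq_of_le (show κ₀ + betaC C α + M * t ≤ (K : ℝ) + 1 by linarith) with h5 | h5
    · exact h5
    · exact absurd h5 h4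

theorem oneD_ne (C : Finset ι) (α : ι → ℝ) (q : ι → ℤ) (hq : ∀ i ∈ C, q i ≠ 0) (κ₀ : ℝ)
    (h : ∀ t, Gen C α q t → |κ₀ + gs C α q t| ≤ 1 / 2) (hM : ∑ i ∈ C, q i ≠ 0) :
    κ₀ = 0 ∧ ∀ t, Gen C α q t →
      (∀ n : ℤ, betaC C α + ((∑ i ∈ C, q i : ℤ) : ℝ) * t ≠ n) ∧
      gs C α q t = saw (betaC C α + ((∑ i ∈ C, q i : ℤ) : ℝ) * t) := by
  have hk : κ₀ = 0 := by
    have h1 : ∫ t in (0 : ℝ)..1, (κ₀ + gs C α q t) = κ₀ := by
      rw [intervalIntegral.integral_add intervalIntegrable_const (w1_integrable C α q),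
        integral_gs C α q hq]
      simp
    have h2 : ∫ t in (0 : ℝ)..1, (κ₀ + gs C α q t) =
        ∫ t in (0 : ℝ)..1, saw (((∑ i ∈ C, q i : ℤ) : ℝ) * t + (κ₀ + betaC C α)) := by
      refine intervalIntegral.integral_congr_ae ?_
      filter_upwards [ae_gen C α q hq] with t ht _
      rw [(w1_main C α q κ₀ h hM ht).2, add_comm (((∑ i ∈ C, q i : ℤ) : ℝ) * t)]
    rw [h1, Pool.Agent.LevelOne.integral_saw_comp _ hM] at h2
    exact h2
  refine ⟨hk, fun t ht => ?_⟩
  have h1 := w1_main C α q κ₀ h hM ht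
  rw [hk, zero_add, zero_add] at h1
  exact h1

end Pool.Agent.Lib.MP_386e47_ag_h1L
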