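import Pool.Agent.Lib.MP_386e47_ag_h1L.W1

/-! Row W2: the bounded sums of sawtooth functions in one variable, degree zero.

Proof: for generic `t` the number `G t = κ₀ + gs C α q t` is congruent to a fixed number modulo
`ℤ` (as `∑ q i = 0`). If one value `G t₀` has `|G t₀| < 1 / 2`, then `|G t| ≤ 1 / 2` and
`G t - G t₀ ∈ ℤ` force `G t = G t₀` for all generic `t`; integrate over `[0, 1]` (`ae_gen`,
`integral_gs`): `κ₀ = G t₀`, hence `gs = 0` at all generic `t`. Otherwise `|G t| = 1 / 2` for all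
generic `t`. -/

set_option autoImplicit false

namespace Pool.Agent.Lib.MP_386e47_ag_h1L

open Finset
open Pool.Agent.LevelOne (saw dot)

variable {ι : Type} [Fintype ι] [DecidableEq ι]

private lemma gs_mod (C : Finset ι) (α : ι → ℝ) (q : ι → ℤ) {t : ℝ} (ht : Gen C α q t) :
    ∃ n : ℤ, gs C α q t = ∑ i ∈ C, α i - (C.card : ℝ) / 2 + ((∑ i ∈ C, q i : ℤ) : ℝ) * t - n := by
  refine ⟨∑ i ∈ C, ⌊α i + q i * t⌋, ?_⟩
  have h1 : ∀ i ∈ C, saw (α i + q i * t)
      = α i - 1 / 2 + (q i : ℝ) * t - (⌊α i + q i * t⌋ : ℝ) := by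
    intro i hi
    rw [Pool.Agent.LevelOne.saw_of_ne (ht i hi), Int.fract]
    ring
  unfold gs
  rw [sum_congr rfl h1, sum_sub_distrib, sum_add_distrib, sum_sub_distrib, ← sum_mul]
  simp only [sum_const, nsmul_eq_mul]
  push_cast
  ring

theorem oneD_eq (C : Finset ι) (α : ι → ℝ) (q : ι → ℤ) (hq : ∀ i ∈ C, q i ≠ 0) (κ₀ : ℝ)
    (h : ∀ t, Gen C α q t → |κ₀ + gs C α q t| ≤ 1 / 2) (hM : ∑ i ∈ C, q i = 0) :
    (∀ t, Gen C α q t → gs C α q t = 0) ∨ ∀ t, Gen C α q t → |κ₀ + gs C α q t| = 1 / 2 := by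
  by_cases hex : ∃ t₀, Gen C α q t₀ ∧ |κ₀ + gs C α q t₀| < 1 / 2
  · left
    obtain ⟨t₀, ht₀, hlt⟩ := hex
    obtain ⟨n₀, hn₀⟩ := gs_mod C α q ht₀
    have hconst : ∀ t, Gen C α q t → gs C α q t = gs C α q t₀ := by
      intro t ht
      obtain ⟨n, hn⟩ := gs_mod C α q ht
      have h1 : gs C α q t - gs C α q t₀ = ((n₀ - n : ℤ) : ℝ) := by
        rw [hn, hn₀, hM]
        push_cast
        ring
      have h2 := abs_le.mp (h t ht)
      have h3 := abs_lt.mp hlt
      have h4 : ((n₀ - n : ℤ) : ℝ) < 1 := by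
        rw [← h1]
        linarith
      have h5 : (-1 : ℝ) < ((n₀ - n : ℤ) : ℝ) := by
        rw [← h1]
        linarith
      have h6 : n₀ - n < 1 := by exact_mod_cast h4
      have h7 : -1 < n₀ - n := by exact_mod_cast h5
      have h8 : n₀ - n = 0 := by omega
      rw [h8, Int.cast_zero] at h1
      linarith
    have hint := integral_gs C α q hq
    have h1 : ∫ t in (0 : ℝ)..1, gs C α q t = ∫ _ in (0 : ℝ)..1, gs C α q t₀ := by
      apply intervalIntegral.integral_congr_ae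
      filter_upwards [ae_gen C α q hq] with t ht _
      exact hconst t ht
    rw [h1, intervalIntegral.integral_const, sub_zero, one_smul] at hint
    intro t ht
    rw [hconst t ht, hint]
  · right
    push Not at hex
    intro t ht
    exact le_antisymm (h t ht) (hex t ht)

end Pool.Agent.Lib.MP_386e47_ag_h1L
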