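import Pool.Agent.Lib.MP_386e47_ag_h1L.IDefs

/-! Row W3: the classes of parallel linear forms. -/

set_option autoImplicit false

namespace Pool.Agent.Lib.MP_386e47_ag_h1L

open Finset
open Pool.Agent.LevelOne (saw dot)

variable {ι κ : Type} [Fintype ι] [Fintype κ] [DecidableEq ι] {v : ι → κ → ℤ}

private lemma right_ne {i j : ι} {a b : ℤ} (hj : v j ≠ 0) (ha : a ≠ 0)
    (h : a • v j = b • v i) : b ≠ 0 := by
  rintro rfl
  rw [zero_smul, smul_eq_zero] at h
  exact h.elim ha hj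

private lemma Par.symm' {i j : ι} (h : Par v i j) : Par v j i := by
  obtain ⟨h1, h2, a, b, ha, hab⟩ := h
  exact ⟨h2, h1, b, a, right_ne h2 ha hab, hab.symm⟩

private lemma Par.trans' {i j k : ι} (h : Par v i j) (h' : Par v j k) : Par v i k := by
  obtain ⟨h1, h2, a, b, ha, hab⟩ := h
  obtain ⟨h3, h4, c, d, hc, hcd⟩ := h'
  refine ⟨h1, h4, a * c, d * b, mul_ne_zero ha hc, ?_⟩
  calc (a * c) • v k = a • (c • v k) := mul_smul _ _ _
    _ = a • (d • v j) := by rw [hcd]
    _ = d • (a • v j) := smul_comm _ _ _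
    _ = d • (b • v i) := by rw [hab]
    _ = (d * b) • v i := (mul_smul _ _ _).symm

lemma mem_cl {i j : ι} : j ∈ cl v i ↔ Par v i j := by
  unfold cl
  simp

lemma self_mem_cl {i : ι} (h : v i ≠ 0) : i ∈ cl v i :=
  mem_cl.mpr ⟨h, h, 1, 1, one_ne_zero, rfl⟩

lemma cl_eq {i j : ι} (h : j ∈ cl v i) : cl v j = cl v i := by
  rw [mem_cl] at h
  ext k
  rw [mem_cl, mem_cl]
  exact ⟨fun h' => h.trans' h', fun h' => h.symm'.trans' h'⟩

lemma mem_classes {C : Finset ι} : C ∈ classes v ↔ ∃ i, v i ≠ 0 ∧ C = cl v i := by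
  classical
  unfold classes
  rw [mem_image]
  constructor
  · rintro ⟨i, hi, rfl⟩
    exact ⟨i, (mem_filter.mp hi).2, rfl⟩
  · rintro ⟨i, hi, rfl⟩
    exact ⟨i, mem_filter.mpr ⟨mem_univ _, hi⟩, rfl⟩

lemma classes_disjoint {C C' : Finset ι} (hC : C ∈ classes v) (hC' : C' ∈ classes v)
    (h : C ≠ C') : Disjoint C C' := by
  obtain ⟨i, hi, rfl⟩ := mem_classes.mp hC
  obtain ⟨j, hj, rfl⟩ := mem_classes.mp hC'
  rw [Finset.disjoint_left]
  intro k hk hk'
  exact h ((cl_eq hk).symm.trans (cl_eq hk'))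

lemma classes_nonempty {C : Finset ι} (hC : C ∈ classes v) : C.Nonempty := by
  obtain ⟨i, hi, rfl⟩ := mem_classes.mp hC
  exact ⟨i, self_mem_cl hi⟩

lemma ne_zero_of_mem {C : Finset ι} (hC : C ∈ classes v) {i : ι} (hi : i ∈ C) : v i ≠ 0 := by
  obtain ⟨j, hj, rfl⟩ := mem_classes.mp hC
  exact (mem_cl.mp hi).2.1

theorem sum_classes {M : Type} [AddCommMonoid M] (v : ι → κ → ℤ) (f : ι → M) :
    ∑ i, f i = ∑ i ∈ zs v, f i + ∑ C ∈ classes v, ∑ i ∈ C, f i := by
  classical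
  have h1 : (univ.filter fun i => ¬ v i = 0) = (classes v).biUnion id := by
    ext i
    rw [mem_filter, mem_biUnion]
    constructor
    · rintro ⟨-, hi⟩
      exact ⟨cl v i, mem_classes.mpr ⟨i, hi, rfl⟩, self_mem_cl hi⟩
    · rintro ⟨C, hC, hi⟩
      exact ⟨mem_univ _, ne_zero_of_mem hC hi⟩
  rw [← sum_filter_add_sum_filter_not univ (fun i => v i = 0) f, h1, sum_biUnion]
  · rfl
  · intro C hC C' hC' hne
    exact classes_disjoint hC hC' hne

/-- choose the multiplier of each form with a common denominator `N` (product) -/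
theorem isClass_cl {C : Finset ι} (hC : C ∈ classes v) : ∃ y N q, IsClass v C y N q := by
  obtain ⟨i, hi, rfl⟩ := mem_classes.mp hC
  have h1 : ∀ j, ∃ a b : ℤ, a ≠ 0 ∧ (j ∈ cl v i → a • v j = b • v i) := by
    intro j
    by_cases hj : j ∈ cl v i
    · obtain ⟨-, -, a, b, ha, hab⟩ := mem_cl.mp hj
      exact ⟨a, b, ha, fun _ => hab⟩
    · exact ⟨1, 1, one_ne_zero, fun h => absurd h hj⟩
  choose a b ha hab using h1
  refine ⟨v i, ∏ j ∈ cl v i, a j, fun j => (∏ k ∈ (cl v i).erase j, a k) * b j, hi,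
    prod_ne_zero_iff.mpr fun j _ => ha j, ?_, ?_⟩
  · intro j hj
    refine ⟨mul_ne_zero (prod_ne_zero_iff.mpr fun k _ => ha k)
      (right_ne (mem_cl.mp hj).2.1 (ha j) (hab j hj)), ?_⟩
    rw [← prod_erase_mul _ _ hj, mul_smul, hab j hj, ← mul_smul]
  · intro j hj hjC c d hc hcd
    exact hjC (mem_cl.mpr ⟨hi, hj, c, d, hc, hcd⟩)

private lemma wsum_eq {C : Finset ι} {y : κ → ℤ} {N : ℤ} {q : ι → ℤ}
    (h : IsClass v C y N q) : N • wsum v C = (∑ i ∈ C, q i) • y := by
  unfold wsum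
  rw [smul_sum, sum_smul]
  exact sum_congr rfl fun i hi => (h.2.2.1 i hi).2

/-- forms of different classes are not parallel (for sums of a class, too) -/
lemma wsum_not_par {C C' : Finset ι} (hC : C ∈ classes v) (hC' : C' ∈ classes v) (h : C ≠ C')
    (hw : wsum v C ≠ 0) (hw' : wsum v C' ≠ 0) (a b : ℤ) (ha : a ≠ 0) :
    a • wsum v C ≠ b • wsum v C' := by
  intro heq
  obtain ⟨y, N, q, hI⟩ := isClass_cl hC
  obtain ⟨y', N', q', hI'⟩ := isClass_cl hC'
  have e1 := wsum_eq hI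
  have e2 := wsum_eq hI'
  obtain ⟨i, hi⟩ := classes_nonempty hC
  have hs : ∑ i ∈ C, q i ≠ 0 := by
    intro h0
    rw [h0, zero_smul, smul_eq_zero] at e1
    exact e1.elim hI.2.1 hw
  have hi' : i ∉ C' := fun h' => (Finset.disjoint_left.mp (classes_disjoint hC hC' h)) hi h'
  have hvi := ne_zero_of_mem hC hi
  obtain ⟨hqi, hvy⟩ := hI.2.2.1 i hi
  -- the sum of the class is parallel to `v i`
  have e3 : (a * N' * (∑ i ∈ C, q i) * N) • v i = (q i * (b * N * (∑ i ∈ C', q' i))) • y' := by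
    calc (a * N' * (∑ i ∈ C, q i) * N) • v i
        = (a * N' * (∑ i ∈ C, q i)) • (N • v i) := mul_smul _ _ _
      _ = (a * N' * (∑ i ∈ C, q i)) • (q i • y) := by rw [hvy]
      _ = (a * N' * q i) • ((∑ i ∈ C, q i) • y) := by
          rw [← mul_smul, ← mul_smul]
          congr 1
          ring
      _ = (a * N' * q i) • (N • wsum v C) := by rw [e1]
      _ = (N' * q i * N) • (a • wsum v C) := by
          rw [← mul_smul, ← mul_smul]
          congr 1
          ring
      _ = (N' * q i * N) • (b • wsum v C') := by rw [heq]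
      _ = (q i * (b * N)) • (N' • wsum v C') := by
          rw [← mul_smul, ← mul_smul]
          congr 1
          ring
      _ = (q i * (b * N)) • ((∑ i ∈ C', q' i) • y') := by rw [e2]
      _ = (q i * (b * N * (∑ i ∈ C', q' i))) • y' := by
          rw [← mul_smul]
          congr 1
          ring
  refine hI'.2.2.2 i hvi hi' _ _ ?_ e3
  exact mul_ne_zero (mul_ne_zero (mul_ne_zero ha hI'.2.1) hs) hI.2.1

end Pool.Agent.Lib.MP_386e47_ag_h1L
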