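import Pool.Agent.Lib.MP_386e47_ag_h1L.W4

/-! Row W5: averaging over the fibres of a class.

Proof (as in `LevelOne.wall`): `LevelOne.exists_direction` (applied with `C ∪ zs v`) gives
`η : κ → ℤ` with `∑ y j * η j = 0` and `∑ v i j * η j ≠ 0` for all `i ∉ C` with `v i ≠ 0`. Take `θ₀`
with `dot y θ₀ / N = t` and the points `θ₀ + s η`. For `i ∈ C` the form is constant along this line,
for `i ∈ zs v` too; for the others it is `(integer ≠ 0) * s + const`. So almost all `s` are generic,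
and `∫ s in 0..1, gC univ α v (θ₀ + s η) = kap0 α v + gs C α q t` (`LevelOne.integral_saw_comp`). -/

set_option autoImplicit false

namespace Pool.Agent.Lib.MP_386e47_ag_h1L

open Finset
open Pool.Agent.LevelOne (saw dot)

variable {ι κ : Type} [Fintype ι] [Fintype κ] [DecidableEq ι] {v : ι → κ → ℤ}
  {C : Finset ι} {y : κ → ℤ} {N : ℤ} {q : ι → ℤ}

lemma exists_eta (hC : IsClass v C y N q) : ∃ η : κ → ℤ, ∑ j, y j * η j = 0 ∧
    ∀ i, v i ≠ 0 → i ∉ C → ∑ j, v i j * η j ≠ 0 := by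
  obtain ⟨η, h1, h2⟩ := Pool.Agent.LevelOne.exists_direction (C ∪ zs v) v y hC.1 (by
    intro i hi
    rw [mem_union, not_or] at hi
    refine hC.2.2.2 i ?_ hi.1
    intro h0
    exact hi.2 (mem_filter.2 ⟨mem_univ _, h0⟩))
  refine ⟨η, h1, fun i hi hiC => h2 i ?_⟩
  rw [mem_union, not_or]
  exact ⟨hiC, fun h => hi (mem_filter.1 h).2⟩

private lemma w5_dot (w η : κ → ℤ) (θ₀ : κ → ℝ) (s : ℝ) :
    dot w (fun j => θ₀ j + s * η j) = dot w θ₀ + ((∑ j, w j * η j : ℤ) : ℝ) * s := by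
  unfold dot
  push_cast
  rw [sum_mul, ← sum_add_distrib]
  exact sum_congr rfl fun j _ => by ring

private lemma w5_zero (hC : IsClass v C y N q) {η : κ → ℤ} (h1 : ∑ j, y j * η j = 0) {i : ι}
    (hi : i ∈ C) : ∑ j, v i j * η j = 0 := by
  have h2 := (hC.2.2.1 i hi).2
  have h3 : N * ∑ j, v i j * η j = q i * ∑ j, y j * η j := by
    rw [mul_sum, mul_sum]
    refine sum_congr rfl fun j _ => ?_
    have h4 := congrFun h2 j
    simp only [Pi.smul_apply, smul_eq_mul] at h4
    rw [← mul_assoc, h4, mul_assoc]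
  rw [h1, mul_zero] at h3
  exact (mul_eq_zero.1 h3).resolve_left hC.2.1

private lemma w5_ne (hC : IsClass v C y N q) {i : ι} (hi : i ∈ C) : v i ≠ 0 := by
  intro h0
  have h2 := hC.2.2.1 i hi
  rw [h0, smul_zero] at h2
  rcases smul_eq_zero.1 h2.2.symm with h3 | h3
  · exact h2.1 h3
  · exact hC.1 h3

/-- almost all points of the line are generic -/
lemma ae_genC (α : ι → ℝ) (hz : ∀ i ∈ zs v, ∀ n : ℤ, α i ≠ n) (hC : IsClass v C y N q)
    {η : κ → ℤ} (h1 : ∑ j, y j * η j = 0) (h2 : ∀ i, v i ≠ 0 → i ∉ C → ∑ j, v i j * η j ≠ 0)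
    (θ₀ : κ → ℝ) (hθ : GenC C α v θ₀) :
    ∀ᵐ s : ℝ, GenC univ α v (fun j => θ₀ j + s * η j) := by
  refine (Filter.eventually_all_finset univ).2 fun i _ => ?_
  rw [MeasureTheory.ae_all_iff]
  intro n
  by_cases hiC : i ∈ C
  · filter_upwards with s
    rw [w5_dot, w5_zero hC h1 hiC, Int.cast_zero, zero_mul, add_zero]
    exact hθ i hiC n
  · by_cases hv : v i = 0
    · filter_upwards with s
      have h3 : dot (v i) (fun j => θ₀ j + s * η j) = 0 := by
        rw [hv]
        unfold dot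
        simp
      rw [h3, add_zero]
      exact hz i (mem_filter.2 ⟨mem_univ _, hv⟩) n
    · have hc : ((∑ j, v i j * η j : ℤ) : ℝ) ≠ 0 := by exact_mod_cast h2 i hv hiC
      have h4 : ∀ᵐ s : ℝ, s ≠ ((n : ℝ) - α i - dot (v i) θ₀) / ((∑ j, v i j * η j : ℤ) : ℝ) := by
        rw [MeasureTheory.ae_iff]
        have : {s : ℝ | ¬ s ≠ ((n : ℝ) - α i - dot (v i) θ₀) / ((∑ j, v i j * η j : ℤ) : ℝ)} =
            {((n : ℝ) - α i - dot (v i) θ₀) / ((∑ j, v i j * η j : ℤ) : ℝ)} := by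
          ext t
          simp
        rw [this]
        exact MeasureTheory.measure_singleton _
      filter_upwards [h4] with s hs h5
      apply hs
      rw [eq_div_iff hc]
      rw [w5_dot] at h5
      linarith

private lemma w5_int (α : ι → ℝ) (η : κ → ℤ) (θ₀ : κ → ℝ) (i : ι) :
    IntervalIntegrable (fun s : ℝ => saw (α i + dot (v i) (fun j => θ₀ j + s * η j)))
      MeasureTheory.volume 0 1 := by
  have h : (fun s : ℝ => saw (α i + dot (v i) (fun j => θ₀ j + s * η j))) =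
      fun s : ℝ => saw (α i + (dot (v i) θ₀ + ((∑ j, v i j * η j : ℤ) : ℝ) * s)) := by
    funext s
    rw [w5_dot]
  rw [h]
  exact Pool.Agent.LevelOne.intervalIntegrable_saw
    (fun s => α i + (dot (v i) θ₀ + ((∑ j, v i j * η j : ℤ) : ℝ) * s)) (by fun_prop) 0 1

lemma integral_line (α : ι → ℝ) (hC : IsClass v C y N q)
    {η : κ → ℤ} (h1 : ∑ j, y j * η j = 0) (h2 : ∀ i, v i ≠ 0 → i ∉ C → ∑ j, v i j * η j ≠ 0)
    (θ₀ : κ → ℝ) :
    ∫ s in (0 : ℝ)..1, gC univ α v (fun j => θ₀ j + s * η j) = kap0 α v + gC C α v θ₀ := by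
  unfold gC
  rw [intervalIntegral.integral_finsetSum fun i _ => w5_int α η θ₀ i]
  have h3 : ∀ i ∈ (univ : Finset ι),
      ∫ s in (0 : ℝ)..1, saw (α i + dot (v i) (fun j => θ₀ j + s * η j)) =
      (if i ∈ zs v then saw (α i) else 0) + (if i ∈ C then saw (α i + dot (v i) θ₀) else 0) := by
    intro i _
    by_cases hiC : i ∈ C
    · have hz : i ∉ zs v := fun h => w5_ne hC hiC (mem_filter.1 h).2
      rw [if_neg hz, if_pos hiC, zero_add]
      simp only [w5_dot, w5_zero hC h1 hiC, Int.cast_zero, zero_mul, add_zero]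
      simp
    · by_cases hv : v i = 0
      · have hz : i ∈ zs v := mem_filter.2 ⟨mem_univ _, hv⟩
        rw [if_pos hz, if_neg hiC, add_zero]
        have h3 : ∀ s : ℝ, dot (v i) (fun j => θ₀ j + s * η j) = 0 := by
          intro s
          rw [hv]
          unfold dot
          simp
        simp only [h3, add_zero]
        simp
      · have hz : i ∉ zs v := fun h => hv (mem_filter.1 h).2
        rw [if_neg hz, if_neg hiC, add_zero]
        have h5 := Pool.Agent.LevelOne.integral_saw_comp _ (h2 i hv hiC) (α i + dot (v i) θ₀)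
        rw [← h5]
        congr 1
        funext s
        rw [w5_dot]
        congr 1
        ring
  rw [sum_congr rfl h3, sum_add_distrib, sum_ite_mem, sum_ite_mem, univ_inter, univ_inter]
  rfl

theorem avg_bound (α : ι → ℝ) (hz : ∀ i ∈ zs v, ∀ n : ℤ, α i ≠ n) (hst : TwoVal α v)
    (hC : IsClass v C y N q) (t : ℝ) (ht : Gen C α q t) :
    |kap0 α v + gs C α q t| ≤ 1 / 2 := by
  obtain ⟨η, h1, h2⟩ := exists_eta hC
  obtain ⟨θ₀, rfl⟩ := exists_theta hC t
  have hθ := (genC_iff hC α θ₀).2 ht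
  rw [← gC_eq hC, ← integral_line α hC h1 h2 θ₀, ← Real.norm_eq_abs]
  have h3 := intervalIntegral.norm_integral_le_of_norm_le_const_ae (a := (0 : ℝ)) (b := 1)
    (f := fun s : ℝ => gC univ α v (fun j => θ₀ j + s * η j)) (C := 1 / 2) (by
      filter_upwards [ae_genC α hz hC h1 h2 θ₀ hθ] with s hs _
      rw [Real.norm_eq_abs]
      exact (hst _ hs).le)
  simpa using h3

end Pool.Agent.Lib.MP_386e47_ag_h1L
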