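import Pool.Agent.Lib.MP_386e47_ag_h1L.W5

/-! Row W6: if one class is active with degree zero all other classes are inactive.

Proof. (1) For every generic `θ` (`GenC univ α v θ`): `gC univ α v θ = kap0 + gC C α v θ`. Take `η` for
`C` (`exists_eta`), the line `θ + s η`. By `integral_line` the integral over `[0, 1]` is
`kap0 + gC C α v θ = ± 1 / 2`, and the integrand has absolute value `1 / 2` almost everywhere
(`ae_genC`, `TwoVal`), so it is almost everywhere equal to this value; near `s = 0` the integrand is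
constant (all forms are generic at `θ`, each `saw` is affine with slope `∑ v i j * η j`, and the sum
of the slopes vanishes by `hsum`), so it has this value at `s = 0`.
(2) For the other class `C'` take `η'` for `C'` and `θ'` with `dot y' θ' / N' = t`: by `integral_line`
`kap0 + gs C' α q' t` is the integral of `gC univ α v (θ' + s η')`, which by (1) is almost everywhere
`kap0 + gC C α v (θ' + s η')`; the integral of `gC C α v (θ' + s η')` vanishes, because
`∑ v i j * η' j ≠ 0` for `i ∈ C` (`C` and `C'` are disjoint) and `integral_saw_comp`. -/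

set_option autoImplicit false

namespace Pool.Agent.Lib.MP_386e47_ag_h1L

open Finset
open Pool.Agent.LevelOne (saw dot)

variable {ι κ : Type} [Fintype ι] [Fintype κ] [DecidableEq ι] {v : ι → κ → ℤ}

private lemma w6_dot (w η : κ → ℤ) (θ₀ : κ → ℝ) (s : ℝ) :
    dot w (fun j => θ₀ j + s * η j) = dot w θ₀ + ((∑ j, w j * η j : ℤ) : ℝ) * s := by
  unfold dot
  push_cast
  rw [sum_mul, ← sum_add_distrib]
  exact sum_congr rfl fun j _ => by ring

private lemma w6_gC (C : Finset ι) (α : ι → ℝ) (η : κ → ℤ) (θ : κ → ℝ) (s : ℝ) :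
    gC C α v (fun j => θ j + s * η j) =
      gs C (fun i => α i + dot (v i) θ) (fun i => ∑ j, v i j * η j) s := by
  unfold gC gs
  refine sum_congr rfl fun i _ => ?_
  rw [w6_dot, add_assoc]

private lemma w6_int (C : Finset ι) (α : ι → ℝ) (q : ι → ℤ) (a b : ℝ) :
    IntervalIntegrable (fun t => gs C α q t) MeasureTheory.volume a b := by
  have h : IntervalIntegrable (∑ i ∈ C, fun t : ℝ => saw (α i + q i * t))
      MeasureTheory.volume a b :=
    IntervalIntegrable.sum C fun i _ =>
      Pool.Agent.LevelOne.intervalIntegrable_saw (fun t => α i + q i * t) (by fun_prop) a b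
  convert h using 1
  funext t
  unfold gs
  rw [Finset.sum_apply]

/-- a function with values `± 1 / 2` almost everywhere, whose integral is `V = ± 1 / 2` and which is
locally constant at `0` has the value `V` at `0` -/
private lemma w6_real {G : ℝ → ℝ} (hi : ∀ a b : ℝ, IntervalIntegrable G MeasureTheory.volume a b)
    {V : ℝ} (hV : |V| = 1 / 2) (hG : ∫ s in (0 : ℝ)..1, G s = V)
    (hae : ∀ᵐ s : ℝ, |G s| = 1 / 2) (h0 : |G 0| = 1 / 2) {ε : ℝ} (hε : 0 < ε)
    (hloc : ∀ h : ℝ, |h| < ε → G h = G 0) : G 0 = V := by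
  by_contra hne
  have hsq : ∀ x : ℝ, |x| = 1 / 2 → x * x = 1 / 4 := by
    intro x hx
    have h1 : x * x = |x| * |x| := (abs_mul_abs_self x).symm
    rw [h1, hx]
    norm_num
  have hneg : G 0 = - V := by
    have h1 : (G 0 - V) * (G 0 + V) = 0 := by
      have := hsq _ h0
      have h2 := hsq _ hV
      ring_nf
      nlinarith
    rcases mul_eq_zero.1 h1 with h2 | h2
    · exact absurd (by linarith) hne
    · linarith
  set δ : ℝ := min (ε / 2) 1 with hδ
  have hδ0 : 0 < δ := lt_min (by linarith) one_pos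
  have hδ1 : δ ≤ 1 := min_le_right _ _
  have hδε : δ < ε := lt_of_le_of_lt (min_le_left _ _) (by linarith)
  have hVG : ∀ a b : ℝ, IntervalIntegrable (fun s => V * V - V * G s) MeasureTheory.volume a b :=
    fun a b => intervalIntegrable_const.sub ((hi a b).const_mul V)
  have h1 : ∫ s in (0 : ℝ)..1, (V * V - V * G s) = 0 := by
    rw [intervalIntegral.integral_sub intervalIntegrable_const ((hi 0 1).const_mul V),
      intervalIntegral.integral_const_mul V G, hG]
    simp
  have h2 : ∫ s in (0 : ℝ)..δ, (V * V - V * G s) = δ / 2 := by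
    have h3 : ∫ s in (0 : ℝ)..δ, (V * V - V * G s) = ∫ s in (0 : ℝ)..δ, (1 / 2 : ℝ) := by
      apply intervalIntegral.integral_congr
      intro s hs
      rw [Set.uIcc_of_le hδ0.le] at hs
      have h4 := hloc s (by rw [abs_of_nonneg hs.1]; linarith [hs.2])
      have h5 := hsq _ hV
      show V * V - V * G s = 1 / 2
      rw [h4, hneg]
      nlinarith
    rw [h3]
    simp
    ring
  have h3 : 0 ≤ ∫ s in δ..(1 : ℝ), (V * V - V * G s) := by
    apply intervalIntegral.integral_nonneg_of_ae hδ1
    filter_upwards [hae] with s hs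
    have h4 := hsq _ hs
    have h5 := hsq _ hV
    show 0 ≤ V * V - V * G s
    nlinarith [sq_nonneg (V - G s)]
  have h4 := intervalIntegral.integral_add_adjacent_intervals (hVG 0 δ) (hVG δ 1)
  rw [h1, h2] at h4
  linarith

lemma rigid_all (α : ι → ℝ) (hz : ∀ i ∈ zs v, ∀ n : ℤ, α i ≠ n) (hst : TwoVal α v)
    (hsum : ∑ i, v i = 0) {C : Finset ι} {y : κ → ℤ} {N : ℤ} {q : ι → ℤ}
    (hC : IsClass v C y N q) (hab : ∀ t, Gen C α q t → |kap0 α v + gs C α q t| = 1 / 2)
    (θ : κ → ℝ) (hθ : GenC univ α v θ) :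
    gC univ α v θ = kap0 α v + gC C α v θ := by
  obtain ⟨η, h1, h2⟩ := exists_eta hC
  have hθC : GenC C α v θ := fun i _ => hθ i (mem_univ i)
  have hV : |kap0 α v + gC C α v θ| = 1 / 2 := by
    rw [gC_eq hC]
    exact hab _ ((genC_iff hC α θ).1 hθC)
  set α' : ι → ℝ := fun i => α i + dot (v i) θ with hα'
  set q' : ι → ℤ := fun i => ∑ j, v i j * η j with hq'
  have hint : ∫ s in (0 : ℝ)..1, gs univ α' q' s = kap0 α v + gC C α v θ := by
    rw [← integral_line α hC h1 h2 θ]
    congr 1
    funext s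
    rw [w6_gC]
  have hae : ∀ᵐ s : ℝ, |gs univ α' q' s| = 1 / 2 := by
    filter_upwards [ae_genC α hz hC h1 h2 θ hθC] with s hs
    rw [← w6_gC]
    exact hst _ hs
  have hg0 : gs univ α' q' 0 = gC univ α v θ := by
    have := w6_gC (v := v) univ α η θ 0
    rw [← this]
    congr 1
    funext j
    ring
  have hgen : Gen univ α' q' 0 := by
    intro i _ n
    rw [mul_zero, add_zero]
    exact hθ i (mem_univ i) n
  obtain ⟨ε, hε, H⟩ := gs_local univ α' q' hgen
  have hslope : ∑ i, q' i = 0 := by
    simp only [hq']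
    rw [sum_comm]
    apply sum_eq_zero
    intro j _
    rw [← sum_mul]
    have h3 := congrFun hsum j
    rw [Finset.sum_apply] at h3
    rw [h3]
    simp
  rw [← hg0]
  refine w6_real (fun a b => w6_int univ α' q' a b) hV hint hae ?_ hε ?_
  · rw [hg0]
    exact hst θ hθ
  · intro h hh
    have h3 := (H h hh).2
    rw [zero_add, hslope, Int.cast_zero, zero_mul, add_zero] at h3
    exact h3

theorem rigid (α : ι → ℝ) (hz : ∀ i ∈ zs v, ∀ n : ℤ, α i ≠ n) (hst : TwoVal α v)
    (hsum : ∑ i, v i = 0) {C : Finset ι} {y : κ → ℤ} {N : ℤ} {q : ι → ℤ}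
    (hC : IsClass v C y N q) (hab : ∀ t, Gen C α q t → |kap0 α v + gs C α q t| = 1 / 2)
    {C' : Finset ι} {y' : κ → ℤ} {N' : ℤ} {q' : ι → ℤ} (hC' : IsClass v C' y' N' q')
    (hdis : Disjoint C C') : Inactive α v C' := by
  rw [inactive_iff hC']
  intro t ht
  obtain ⟨θ, rfl⟩ := exists_theta hC' t
  have hθ := (genC_iff hC' α θ).2 ht
  rw [← gC_eq hC']
  obtain ⟨η, h1, h2⟩ := exists_eta hC'
  have h3 := integral_line α hC' h1 h2 θ
  have h4 : ∫ s in (0 : ℝ)..1, gC univ α v (fun j => θ j + s * η j) =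
      ∫ s in (0 : ℝ)..1, (kap0 α v +
        gs C (fun i => α i + dot (v i) θ) (fun i => ∑ j, v i j * η j) s) := by
    refine intervalIntegral.integral_congr_ae ?_
    filter_upwards [ae_genC α hz hC' h1 h2 θ hθ] with s hs _
    rw [rigid_all α hz hst hsum hC hab _ hs, w6_gC]
  have h5 : ∀ i ∈ C, ∑ j, v i j * η j ≠ 0 := by
    intro i hi
    refine h2 i ?_ (disjoint_left.1 hdis hi)
    intro h0
    have h6 := hC.2.2.1 i hi
    rw [h0, smul_zero] at h6
    rcases smul_eq_zero.1 h6.2.symm with h7 | h7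
    · exact h6.1 h7
    · exact hC.1 h7
  have h6 : ∫ s in (0 : ℝ)..1, (kap0 α v +
        gs C (fun i => α i + dot (v i) θ) (fun i => ∑ j, v i j * η j) s) = kap0 α v := by
    rw [intervalIntegral.integral_add intervalIntegrable_const (w6_int _ _ _ 0 1),
      integral_gs _ _ _ h5]
    simp
  rw [h4, h6] at h3
  linarith

end Pool.Agent.Lib.MP_386e47_ag_h1L
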