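import Pool.Agent.Lib.MP_386e47_ag_h1L.IDefs

/-! Row W7: the second moment: exactly three active classes of nonzero degree.

Proof: on the torus `κ → UnitAddCircle` (see `MP_386e47_h75/Energy.lean`) the square of
`∑ k, sawC (chr (w k) θ + β k)` is `1 / 4` almost everywhere, the diagonal terms have integral
`1 / 12` (`integral_sq_chr`) and the other terms vanish: adapt `integral_prod_double` and
`integral_prod_zero` to translations,
`2 ∫ sawC (chr w θ + b) * sawC (chr w' θ + c) = ∫ sawC (chr w θ + b) * sawC (chr (2 w') θ + 2 c)`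
(or translate by a point `τ` of the torus with `chr w τ = b`, `chr w' τ = c`). -/

set_option autoImplicit false

namespace Pool.Agent.Lib.MP_386e47_ag_h1L

open Finset MeasureTheory
open Pool.Agent.LevelOne (saw dot sawC chr)

variable {ι κ : Type} [Fintype ι] [Fintype κ] [DecidableEq ι]

private lemma exists_tau (w w' : κ → ℤ) (hw : w ≠ 0)
    (hind : ∀ a b : ℤ, a ≠ 0 → a • w' ≠ b • w) (b c : UnitAddCircle) :
    ∃ τ : κ → UnitAddCircle, chr w τ = b ∧ chr w' τ = c := by
  classical
  obtain ⟨η, hη1, hη2⟩ := Pool.Agent.LevelOne.exists_direction (∅ : Finset Unit) (fun _ => w') w hw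
    (fun _ _ a b ha => hind a b ha)
  have hη2 := hη2 () (by simp)
  set a : ℤ := ∑ j, w' j * η j with ha
  have har : (a : ℝ) ≠ 0 := by exact_mod_cast hη2
  obtain ⟨σ, hσ⟩ := Pool.Agent.LevelOne.chr_surjective w hw b
  obtain ⟨d, hd⟩ := QuotientAddGroup.mk_surjective (c - chr w' σ)
  let τr : κ → ℝ := (d / (a : ℝ)) • fun j => (η j : ℝ)
  let τ : κ → UnitAddCircle := fun j => ((τr j : ℝ) : UnitAddCircle)
  have h1 : chr w τ = 0 := by
    rw [Pool.Agent.LevelOne.chr_coe, Pool.Agent.LevelOne.coe_eq_zero_iff']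
    refine ⟨0, ?_⟩
    simp only [τr]
    rw [Pool.Agent.LevelOne.dot_smul, Pool.Agent.LevelOne.dot_int, hη1]
    simp
  have h2 : chr w' τ = ((d : ℝ) : UnitAddCircle) := by
    rw [Pool.Agent.LevelOne.chr_coe]
    congr 1
    simp only [τr]
    rw [Pool.Agent.LevelOne.dot_smul, Pool.Agent.LevelOne.dot_int, ← ha]
    field_simp
  refine ⟨σ + τ, ?_, ?_⟩
  · rw [map_add, hσ, h1, add_zero]
  · rw [map_add, h2]
    have : ((d : ℝ) : UnitAddCircle) = c - chr w' σ := hd
    rw [this]
    abel

lemma integral_prod_zero' (w w' : κ → ℤ) (hw : w ≠ 0)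
    (hind : ∀ a b : ℤ, a ≠ 0 → a • w' ≠ b • w) (b c : UnitAddCircle) :
    ∫ θ : κ → UnitAddCircle, sawC (chr w θ + b) * sawC (chr w' θ + c) = 0 := by
  obtain ⟨τ, h1, h2⟩ := exists_tau w w' hw hind b c
  rw [← Pool.Agent.LevelOne.integral_prod_zero w w' hw hind,
    ← integral_add_right_eq_self
      (fun θ : κ → UnitAddCircle => sawC (chr w θ) * sawC (chr w' θ)) τ]
  refine integral_congr_ae (Filter.Eventually.of_forall fun θ => ?_)
  simp only [map_add, h1, h2]

private lemma integrable_prod' (w w' : κ → ℤ) (b c : UnitAddCircle) :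
    Integrable (fun θ : κ → UnitAddCircle => sawC (chr w θ + b) * sawC (chr w' θ + c)) := by
  refine Integrable.of_bound (C := 1) ?_ (Filter.Eventually.of_forall fun θ => ?_)
  · exact ((Pool.Agent.LevelOne.measurable_sawC.comp
      ((Pool.Agent.LevelOne.continuous_chr w).measurable.add_const b)).mul
      (Pool.Agent.LevelOne.measurable_sawC.comp
        ((Pool.Agent.LevelOne.continuous_chr w').measurable.add_const c))).aestronglyMeasurable
  · rw [Real.norm_eq_abs, abs_mul]
    have h1 := Pool.Agent.LevelOne.abs_sawC (chr w θ + b)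
    have h2 := Pool.Agent.LevelOne.abs_sawC (chr w' θ + c)
    have h3 := abs_nonneg (sawC (chr w θ + b))
    have h4 := abs_nonneg (sawC (chr w' θ + c))
    nlinarith

private lemma ae_chr_ne (w : κ → ℤ) (hw : w ≠ 0) (c : UnitAddCircle) :
    ∀ᵐ θ : κ → UnitAddCircle, chr w θ ≠ c := by
  have h : ∀ᵐ x : UnitAddCircle, x ≠ c := by
    rw [ae_iff]
    have h1 : {x : UnitAddCircle | ¬x ≠ c} = Metric.closedBall c 0 := by
      ext x
      simp
    rw [h1, AddCircle.volume_closedBall]
    simp
  exact (Pool.Agent.LevelOne.measurePreserving_chr w hw).quasiMeasurePreserving.ae h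

theorem energy3 {K : Type} [Fintype K] (w : K → κ → ℤ) (β : K → ℝ) (hw : ∀ k, w k ≠ 0)
    (hind : ∀ k k', k ≠ k' → ∀ a b : ℤ, a ≠ 0 → a • w k ≠ b • w k')
    (α : ι → ℝ) (v : ι → κ → ℤ) (hz : ∀ i ∈ zs v, ∀ n : ℤ, α i ≠ n)
    (h : ∀ θ, GenC univ α v θ → |∑ k, saw (β k + dot (w k) θ)| = 1 / 2) :
    Fintype.card K = 3 := by
  classical
  have h1 : ∫ θ : κ → UnitAddCircle, (∑ k, sawC (chr (w k) θ + ((β k : ℝ) : UnitAddCircle))) ^ 2
      = 1 / 4 := by
    have hae : ∀ᵐ θ : κ → UnitAddCircle,
        (∑ k, sawC (chr (w k) θ + ((β k : ℝ) : UnitAddCircle))) ^ 2 = 1 / 4 := by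
      have h2 : ∀ᵐ θ : κ → UnitAddCircle, ∀ i, v i ≠ 0 →
          chr (v i) θ ≠ -((α i : ℝ) : UnitAddCircle) :=
        ae_all_iff.2 fun i => by
          by_cases hv : v i = 0
          · exact Filter.Eventually.of_forall fun θ hne => absurd hv hne
          · filter_upwards [ae_chr_ne (v i) hv (-((α i : ℝ) : UnitAddCircle))] with θ hθ _
            exact hθ
      filter_upwards [h2] with θ hθ
      obtain ⟨t, rfl⟩ := Pool.Agent.LevelOne.exists_lift θ
      have hgen : GenC univ α v t := by
        intro i _ n hn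
        by_cases hv : v i = 0
        · refine hz i (by simp [zs, hv]) n ?_
          have h3 : dot (v i) t = 0 := by
            rw [hv]
            unfold dot
            simp
          rw [h3, add_zero] at hn
          exact hn
        · apply hθ i hv
          rw [Pool.Agent.LevelOne.chr_coe]
          have h4 : (((α i + dot (v i) t : ℝ)) : UnitAddCircle) = 0 := by
            rw [Pool.Agent.LevelOne.coe_eq_zero_iff']
            exact ⟨n, hn⟩
          rw [AddCircle.coe_add] at h4
          exact eq_neg_of_add_eq_zero_right h4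
      have h5 := h t hgen
      rw [← sq_abs]
      have h6 : ∀ k, sawC (chr (w k) (fun j => ((t j : ℝ) : UnitAddCircle)) +
          ((β k : ℝ) : UnitAddCircle)) = saw (β k + dot (w k) t) := by
        intro k
        rw [Pool.Agent.LevelOne.chr_coe, ← AddCircle.coe_add, Pool.Agent.LevelOne.sawC_coe,
          add_comm]
      simp only [h6]
      rw [h5]
      norm_num
    rw [integral_congr_ae hae]
    simp [Measure.real, Pool.Agent.LevelOne.volume_torus]
  have h2 : ∫ θ : κ → UnitAddCircle, (∑ k, sawC (chr (w k) θ + ((β k : ℝ) : UnitAddCircle))) ^ 2 =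
      ∑ k, ∑ k', ∫ θ : κ → UnitAddCircle, sawC (chr (w k) θ + ((β k : ℝ) : UnitAddCircle)) *
        sawC (chr (w k') θ + ((β k' : ℝ) : UnitAddCircle)) := by
    have e1 : ∀ θ : κ → UnitAddCircle,
        (∑ k, sawC (chr (w k) θ + ((β k : ℝ) : UnitAddCircle))) ^ 2 =
        ∑ k, ∑ k', sawC (chr (w k) θ + ((β k : ℝ) : UnitAddCircle)) *
          sawC (chr (w k') θ + ((β k' : ℝ) : UnitAddCircle)) := by
      intro θ
      rw [sq, Finset.sum_mul_sum]
    simp only [e1]
    rw [integral_finsetSum _ fun i _ => integrable_finsetSum _ fun j _ => integrable_prod' _ _ _ _]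
    refine Finset.sum_congr rfl fun i _ => ?_
    rw [integral_finsetSum _ fun j _ => integrable_prod' _ _ _ _]
  have h3 : ∀ k k', ∫ θ : κ → UnitAddCircle, sawC (chr (w k) θ + ((β k : ℝ) : UnitAddCircle)) *
        sawC (chr (w k') θ + ((β k' : ℝ) : UnitAddCircle)) = if k = k' then 1 / 12 else 0 := by
    intro k k'
    by_cases hkk : k = k'
    · subst hkk
      rw [if_pos rfl, ← Pool.Agent.LevelOne.integral_sq_chr (w k) (hw k) ((β k : ℝ) : UnitAddCircle)]
      refine integral_congr_ae (Filter.Eventually.of_forall fun θ => ?_)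
      simp only
      ring
    · rw [if_neg hkk]
      exact integral_prod_zero' (w k) (w k') (hw k) (hind k' k (Ne.symm hkk)) _ _
  rw [h2] at h1
  simp only [h3, Finset.sum_ite_eq, Finset.mem_univ, if_true, Finset.sum_const, Finset.card_univ,
    nsmul_eq_mul] at h1
  have h4 : (Fintype.card K : ℝ) = 3 := by linarith
  exact_mod_cast h4

end Pool.Agent.Lib.MP_386e47_ag_h1L
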