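import Pool.Agent.Lib.MP_386e47_ag_h1L.W2
import Pool.Agent.Lib.MP_386e47_ag_h1L.W3
import Pool.Agent.Lib.MP_386e47_ag_h1L.W6
import Pool.Agent.Lib.MP_386e47_ag_h1L.W7

/-! Row W8: the case of a class of nonzero degree.

Proof: for every class `C` take `IsClass` data (`isClass_cl`) and `avg_bound`. By `oneD_ne` the
classes with `wsum v C ≠ 0` (`wsum_ne_zero_iff`) satisfy `kap0 = 0` and `gC C = saw (betaC + dot (wsum v C) θ)`
(`gC_eq`, `dot_wsum`). The classes with `wsum v C = 0` are inactive: otherwise by `oneD_eq` and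
`rigid` the class with nonzero degree would be inactive, impossible (`saw (β + M t)` is not
identically zero at generic `t`, `M ≠ 0`). So `gC univ = ∑` over the classes of nonzero degree
(`sum_classes`) and `energy3` (index type: the classes of nonzero degree; `wsum_not_par`) gives
three. -/

set_option autoImplicit false

namespace Pool.Agent.Lib.MP_386e47_ag_h1L

open Finset
open Pool.Agent.LevelOne (saw dot)

variable {ι κ : Type} [Fintype ι] [Fintype κ] [DecidableEq ι] {v : ι → κ → ℤ}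

private lemma w8_act (α : ι → ℝ) (hz : ∀ i ∈ zs v, ∀ n : ℤ, α i ≠ n) (hst : TwoVal α v)
    {C : Finset ι} (hC : C ∈ classes v) (hw : wsum v C ≠ 0) :
    kap0 α v = 0 ∧ ∀ θ : κ → ℝ, GenC C α v θ →
        (∀ n : ℤ, betaC C α + dot (wsum v C) θ ≠ n) ∧
        gC C α v θ = saw (betaC C α + dot (wsum v C) θ) := by
  obtain ⟨y, N, q, hI⟩ := isClass_cl hC
  have hM := (wsum_ne_zero_iff hI).1 hw
  obtain ⟨h1, h2⟩ := oneD_ne C α q (fun i hi => (hI.2.2.1 i hi).1) (kap0 α v)
    (fun t ht => avg_bound α hz hst hI t ht) hM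
  refine ⟨h1, fun θ hθ => ?_⟩
  rw [genC_iff hI] at hθ
  rw [dot_wsum hI, gC_eq hI]
  exact h2 _ hθ

private lemma w8_not_inactive (α : ι → ℝ) {C : Finset ι} (hC : C ∈ classes v)
    (hw : wsum v C ≠ 0) : ¬ Inactive α v C := by
  intro hin
  obtain ⟨y, N, q, hI⟩ := isClass_cl hC
  have hM := (wsum_ne_zero_iff hI).1 hw
  rw [inactive_iff hI] at hin
  have hq : ∀ i ∈ C, q i ≠ 0 := fun i hi => (hI.2.2.1 i hi).1
  obtain ⟨t, ht⟩ := (ae_gen C α q hq).exists
  obtain ⟨ε, hε, h1⟩ := gs_local C α q ht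
  obtain ⟨h2, h3⟩ := h1 (ε / 2) (by rw [abs_of_pos (by linarith)]; linarith)
  rw [hin _ ht, hin _ h2, zero_add] at h3
  have hM' : ((∑ i ∈ C, q i : ℤ) : ℝ) ≠ 0 := by exact_mod_cast hM
  exact mul_ne_zero hM' (by positivity : ε / 2 ≠ 0) h3.symm

private lemma w8_inactive (α : ι → ℝ) (hz : ∀ i ∈ zs v, ∀ n : ℤ, α i ≠ n) (hst : TwoVal α v)
    (hsum : ∑ i, v i = 0) {C' : Finset ι} (hC' : C' ∈ classes v) (hw' : wsum v C' ≠ 0)
    {C : Finset ι} (hC : C ∈ classes v) (hw : wsum v C = 0) : Inactive α v C := by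
  obtain ⟨y, N, q, hI⟩ := isClass_cl hC
  have hM : ∑ i ∈ C, q i = 0 := by
    by_contra hne
    exact (wsum_ne_zero_iff hI).2 hne hw
  rcases oneD_eq C α q (fun i hi => (hI.2.2.1 i hi).1) (kap0 α v)
    (fun t ht => avg_bound α hz hst hI t ht) hM with h1 | h1
  · exact (inactive_iff hI α).2 h1
  · exfalso
    obtain ⟨y', N', q', hI'⟩ := isClass_cl hC'
    refine w8_not_inactive α hC' hw' (rigid α hz hst hsum hI h1 hI' ?_)
    refine classes_disjoint hC hC' ?_
    rintro rfl
    exact hw' hw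

theorem triangle (α : ι → ℝ) (hz : ∀ i ∈ zs v, ∀ n : ℤ, α i ≠ n) (hst : TwoVal α v)
    (hsum : ∑ i, v i = 0) (hex : ∃ C ∈ classes v, wsum v C ≠ 0) :
    ((classes v).filter fun C => wsum v C ≠ 0).card = 3 ∧ kap0 α v = 0 ∧
      (∀ C ∈ classes v, wsum v C = 0 → Inactive α v C) ∧
      ∀ C ∈ classes v, wsum v C ≠ 0 → ∀ θ : κ → ℝ, GenC C α v θ →
        (∀ n : ℤ, betaC C α + dot (wsum v C) θ ≠ n) ∧
        gC C α v θ = saw (betaC C α + dot (wsum v C) θ) := by
  obtain ⟨C₀, hC₀, hw₀⟩ := hex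
  have hk := (w8_act α hz hst hC₀ hw₀).1
  refine ⟨?_, hk, fun C hC hw => w8_inactive α hz hst hsum hC₀ hw₀ hC hw,
    fun C hC hw => (w8_act α hz hst hC hw).2⟩
  have key : Fintype.card {C // C ∈ (classes v).filter fun C => wsum v C ≠ 0} = 3 := by
    refine energy3 (K := {C // C ∈ (classes v).filter fun C => wsum v C ≠ 0})
      (fun C => wsum v C.1) (fun C => betaC C.1 α) ?_ ?_ α v hz ?_
    · intro C
      exact (mem_filter.1 C.2).2
    · intro C C' hne a b ha
      exact wsum_not_par (mem_filter.1 C.2).1 (mem_filter.1 C'.2).1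
        (fun h => hne (Subtype.ext h)) (mem_filter.1 C.2).2 (mem_filter.1 C'.2).2 a b ha
    · intro θ hθ
      have h1 := hst θ hθ
      have h2 : gC univ α v θ = ∑ C : {C // C ∈ (classes v).filter fun C => wsum v C ≠ 0},
          saw (betaC C.1 α + dot (wsum v C.1) θ) := by
        unfold gC
        rw [sum_classes v]
        have h3 : ∑ i ∈ zs v, saw (α i + dot (v i) θ) = 0 := by
          rw [← hk, kap0]
          refine sum_congr rfl fun i hi => ?_
          have hvi : v i = 0 := (mem_filter.1 hi).2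
          rw [hvi]
          simp [dot]
        rw [h3, zero_add]
        rw [Finset.sum_coe_sort ((classes v).filter fun C => wsum v C ≠ 0)
          (fun C => saw (betaC C α + dot (wsum v C) θ)), sum_filter]
        refine sum_congr rfl fun C hC => ?_
        have hg : GenC C α v θ := fun i _ => hθ i (mem_univ i)
        by_cases hw : wsum v C = 0
        · rw [if_neg (by simpa using hw)]
          exact w8_inactive α hz hst hsum hC₀ hw₀ hC hw θ hg
        · rw [if_pos hw]
          exact ((w8_act α hz hst hC hw).2 θ hg).2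
      rw [← h2]
      exact h1
  rw [Fintype.card_coe] at key
  exact key

end Pool.Agent.Lib.MP_386e47_ag_h1L
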