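import Pool.Agent.Lib.MP_386e47_ag_h1L.W2
import Pool.Agent.Lib.MP_386e47_ag_h1L.W3
import Pool.Agent.Lib.MP_386e47_ag_h1L.W6

/-! Row W9: the case without a class of nonzero degree. -/

set_option autoImplicit false

namespace Pool.Agent.Lib.MP_386e47_ag_h1L

open Finset
open Pool.Agent.LevelOne (saw dot)

variable {ι κ : Type} [Fintype ι] [Fintype κ] [DecidableEq ι] {v : ι → κ → ℤ}

/-- for every class: inactive or `|kap0 + gC C| = 1/2` at the generic points (`avg_bound`,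
`oneD_eq`) -/
theorem dichotomy (α : ι → ℝ) (hz : ∀ i ∈ zs v, ∀ n : ℤ, α i ≠ n) (hst : TwoVal α v)
    {C : Finset ι} (hC : C ∈ classes v) (h0 : wsum v C = 0) :
    Inactive α v C ∨ ∀ θ, GenC C α v θ → |kap0 α v + gC C α v θ| = 1 / 2 := by
  obtain ⟨y, N, q, hI⟩ := isClass_cl hC
  have hM : ∑ i ∈ C, q i = 0 := by
    by_contra hne
    exact (wsum_ne_zero_iff hI).2 hne h0
  rcases oneD_eq C α q (fun i hi => (hI.2.2.1 i hi).1) (kap0 α v)
    (fun t ht => avg_bound α hz hst hI t ht) hM with h1 | h1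
  · exact Or.inl ((inactive_iff hI α).2 h1)
  · right
    intro θ hθ
    rw [genC_iff hI] at hθ
    rw [gC_eq hI]
    exact h1 _ hθ

/-- all classes are inactive, or one class has `|kap0 + gC C| = 1/2` and all others are
inactive (`rigid`) -/
theorem no_triangle (α : ι → ℝ) (hz : ∀ i ∈ zs v, ∀ n : ℤ, α i ≠ n) (hst : TwoVal α v)
    (hsum : ∑ i, v i = 0) (h0 : ∀ C ∈ classes v, wsum v C = 0) :
    (∀ C ∈ classes v, Inactive α v C) ∨ ∃ C ∈ classes v,
      (∀ θ, GenC C α v θ → |kap0 α v + gC C α v θ| = 1 / 2) ∧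
      ∀ C' ∈ classes v, C' ≠ C → Inactive α v C' := by
  by_cases hall : ∀ C ∈ classes v, Inactive α v C
  · exact Or.inl hall
  · right
    push Not at hall
    obtain ⟨C, hC, hna⟩ := hall
    rcases dichotomy α hz hst hC (h0 C hC) with h1 | h1
    · exact absurd h1 hna
    · refine ⟨C, hC, h1, fun C' hC' hne => ?_⟩
      obtain ⟨y, N, q, hI⟩ := isClass_cl hC
      obtain ⟨y', N', q', hI'⟩ := isClass_cl hC'
      refine rigid α hz hst hsum hI (fun t ht => ?_) hI' (classes_disjoint hC hC' hne.symm)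
      obtain ⟨θ, hθ⟩ := exists_theta hI t
      have h2 := h1 θ ((genC_iff hI α θ).2 (by rw [hθ]; exact ht))
      rwa [gC_eq hI, hθ] at h2

end Pool.Agent.Lib.MP_386e47_ag_h1L
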